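import Mathlib
import Pool.Agent.Lib.MP_663568_nul.Abstract

/-!
# Vector valued frequencies: definitions and the statement of the estimate
-/

set_option autoImplicit false
open Finset MeasureTheory

namespace Pool.Agent.Lib.MP_663568_nt.T3

open Katai Nul

variable {ι J : Type}

/-- separation of two vectors of frequencies -/
def SepJ (κ : ℝ) (u v : J → ℝ) : Prop :=
  (∀ b, κ ≤ nd (u b)) ∧ (∀ b, κ ≤ nd (v b)) ∧ ∀ b b', κ ≤ nd (u b - v b')

/-- Correlations of the dilated phases are small if the frequencies are separated. -/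
def CorrJ (F : ι → ℕ → ℂ) (ld : ι → J → ℝ) (A : Set ι) (ε : ℝ) : Prop :=
  ∀ κ : ℝ, 0 < κ → ∀ Dm : ℕ, ∃ L₀ : ℕ, ∀ L : ℕ, L₀ ≤ L → ∀ i ∈ A, ∀ i' ∈ A, ∀ p q j : ℕ,
    p ≤ Dm → q ≤ Dm → SepJ κ (fun b => (p : ℝ) * ld i b) (fun b => (q : ℝ) * ld i' b) →
    ‖∑ l ∈ Icc 1 L, F i (p * (j + l)) * (starRingEnd ℂ) (F i' (q * (j + l)))‖ ≤ ε * L

/-- the indices with frequencies close to `K` -/
def AAJ (ld : ι → J → ℝ) (K : Set (J → ℝ)) (δ : ℝ) : Set ι :=
  {i | ∃ α ∈ K, ∀ b, |ld i b - α b| < δ}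

/-- the family of the phases with frequencies close to `K` -/
noncomputable def FAJ (F : ι → ℕ → ℂ) (ld : ι → J → ℝ) (K : Set (J → ℝ)) (δ : ℝ) :
    {i // i ∈ AAJ ld K δ} → ℕ → ℂ := fun i => F i.1

end Pool.Agent.Lib.MP_663568_nt.T3
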