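import Mathlib
import Pool.Agent.Lib.MP_663568_nul.Near

/-!
# A cut off function near a compact set whose image on the circle has small measure
-/

set_option autoImplicit false
open Finset MeasureTheory

namespace Pool.Agent.Lib.MP_663568_nt.T3

open Katai Nul

/-- **Task M0.** (as `near_fun`, with `C = 1` and the measure of the image on the circle) -/
theorem near_circ (K : Set ℝ) (hK : IsCompact K) (ρ : ℝ)
    (hvol : (volume ((fun x : ℝ => (x : UnitAddCircle)) '' K)).toReal < ρ) :
    ∃ φ : ℝ → ℝ, Continuous φ ∧ (∀ x, φ (x + 1) = φ x) ∧ (∀ x, 0 ≤ φ x) ∧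
      (∫ x in (0 : ℝ)..1, φ x) ≤ ρ ∧ ∃ r : ℝ, 0 < r ∧ ∀ x : ℝ, ∀ k ∈ K, ∀ z : ℤ,
        |x - (k + z)| ≤ r → 1 ≤ φ x := by
  set E : Set UnitAddCircle := (fun x : ℝ => (x : UnitAddCircle)) '' K with hE
  have hEc : IsCompact E := hK.image (AddCircle.continuous_mk' 1)
  have hvK : volume E ≠ ⊤ := hEc.measure_lt_top.ne
  have hρ0 : 0 < ρ := lt_of_le_of_lt ENNReal.toReal_nonneg hvol
  have hvE : volume E < ENNReal.ofReal ρ := by
    rw [← ENNReal.ofReal_toReal hvK]
    exact (ENNReal.ofReal_lt_ofReal_iff hρ0).2 hvol
  -- thickening
  have ht := tendsto_measure_cthickening_of_isCompact (μ := (volume : Measure UnitAddCircle)) hEc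
  have hev := ht.eventually_lt_const hvE
  rw [Metric.eventually_nhds_iff] at hev
  obtain ⟨ε, hε, hev⟩ := hev
  set r : ℝ := ε / 4 with hr
  have hr0 : 0 < r := by positivity
  have hμ : volume (Metric.cthickening (2 * r) E) < ENNReal.ofReal ρ := by
    apply hev
    rw [Real.dist_eq, sub_zero, abs_of_pos (by positivity)]
    rw [hr]; linarith
  set ψ : UnitAddCircle → ℝ := fun y => (thickenedIndicator hr0 (Metric.cthickening r E) y : ℝ)
    with hψ
  have hψc : Continuous ψ :=
    NNReal.continuous_coe.comp (thickenedIndicator hr0 (Metric.cthickening r E)).continuous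
  refine ⟨fun x => ψ (x : UnitAddCircle), hψc.comp (AddCircle.continuous_mk' 1), ?_, ?_, ?_,
    r, hr0, ?_⟩
  · intro x
    have : ((x + 1 : ℝ) : UnitAddCircle) = (x : UnitAddCircle) := AddCircle.coe_add_period 1 x
    change ψ ((x + 1 : ℝ) : UnitAddCircle) = ψ (x : UnitAddCircle)
    rw [this]
  · intro x
    exact NNReal.coe_nonneg _
  · have h1 : (∫ x in (0 : ℝ)..1, ψ (x : UnitAddCircle)) = ∫ y : UnitAddCircle, ψ y := by
      have := UnitAddCircle.intervalIntegral_preimage 0 ψ
      rwa [zero_add] at this
    rw [h1]
    have hms : MeasurableSet (Metric.cthickening (2 * r) E) :=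
      Metric.isClosed_cthickening.measurableSet
    calc ∫ y : UnitAddCircle, ψ y
        ≤ ∫ y : UnitAddCircle, (Metric.cthickening (2 * r) E).indicator 1 y := by
          refine integral_mono_of_nonneg ?_ ?_ ?_
          · exact Filter.Eventually.of_forall fun y => NNReal.coe_nonneg _
          · exact (integrable_const 1).indicator hms
          · refine Filter.Eventually.of_forall fun y => ?_
            by_cases hy : y ∈ Metric.cthickening (2 * r) E
            · rw [Set.indicator_of_mem hy, Pi.one_apply]
              exact_mod_cast thickenedIndicator_le_one hr0 _ y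
            · rw [Set.indicator_of_notMem hy]
              have hy2 : y ∉ Metric.thickening r (Metric.cthickening r E) := by
                intro h
                apply hy
                have h2 := Metric.thickening_cthickening_subset r hr0.le E h
                rw [← two_mul] at h2
                exact Metric.thickening_subset_cthickening _ _ h2
              have h3 := thickenedIndicator_zero hr0 _ hy2
              change ((thickenedIndicator hr0 (Metric.cthickening r E) y : NNReal) : ℝ) ≤ 0
              rw [h3]
              simp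
      _ = (volume (Metric.cthickening (2 * r) E)).toReal := by
          rw [integral_indicator_one hms]
          rfl
      _ ≤ ρ := by
          rw [← ENNReal.toReal_ofReal hρ0.le]
          exact ENNReal.toReal_mono ENNReal.ofReal_ne_top hμ.le
  · intro x k hk z hx
    have hmem : ((k + (z : ℝ) : ℝ) : UnitAddCircle) ∈ E := by
      refine ⟨k, hk, ?_⟩
      change (k : UnitAddCircle) = _
      rw [AddCircle.coe_add]
      have h6 : ((z : ℝ) : UnitAddCircle) = 0 := by
        rw [AddCircle.coe_eq_zero_iff]
        exact ⟨z, by simp⟩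
      rw [h6, add_zero]
    have h1 : (x : UnitAddCircle) ∈ Metric.cthickening r E := by
      refine Metric.mem_cthickening_of_dist_le _ _ r _ hmem ?_
      rw [dist_eq_norm, ← AddCircle.coe_sub]
      refine le_trans ?_ hx
      rw [← Real.norm_eq_abs]
      exact QuotientAddGroup.norm_mk_le_norm
    have h2 := thickenedIndicator_one hr0 (Metric.cthickening r E) h1
    change (1 : ℝ) ≤ ((thickenedIndicator hr0 (Metric.cthickening r E) (x : UnitAddCircle) :
      NNReal) : ℝ)
    rw [h2]
    simp

end Pool.Agent.Lib.MP_663568_nt.T3
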