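import Mathlib
import Pool.Agent.Lib.MP_663568_nul.Step
import Pool.Agent.Lib.MP_663568_t3.MDefs

/-!
# Systems of separated vectors of frequencies with large correlation
-/

set_option autoImplicit false
open Finset

namespace Pool.Agent.Lib.MP_663568_nt.T3

open Katai Nul

variable {ι J : Type}

/-- There are `m` dilated phases, with separated vectors of frequencies, which correlate with `a`
on the window `(n, n + H]`. -/
def SysJ (F : ι → ℕ → ℂ) (ld : ι → J → ℝ) (a : ℕ → ℂ) (A : Set ι) (D : Finset ℕ)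
    (κ ε : ℝ) (n H m : ℕ) : Prop :=
  ∃ e : Fin m → ι × ℕ, (∀ r, (e r).1 ∈ A ∧ (e r).2 ∈ D ∧
      ε * H ≤ ws (ph F (e r).1 (e r).2) a n H) ∧
    ∀ r s, r ≠ s → SepJ κ (fun b => ((e r).2 : ℝ) * ld (e r).1 b)
      (fun b => ((e s).2 : ℝ) * ld (e s).1 b)

lemma sysJ_zero (F : ι → ℕ → ℂ) (ld : ι → J → ℝ) (a : ℕ → ℂ) (A : Set ι) (D : Finset ℕ)
    (κ ε : ℝ) (n H : ℕ) : SysJ F ld a A D κ ε n H 0 :=
  ⟨fun r => r.elim0, fun r => r.elim0, fun r => r.elim0⟩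

/-- **Packing bound.** -/
lemma sysJ_card (F : ι → ℕ → ℂ) (ld : ι → J → ℝ) (a : ℕ → ℂ) (hF : ∀ i n, ‖F i n‖ ≤ 1)
    (ha : ∀ n, ‖a n‖ ≤ 1) (ε₀ : ℝ) (hε₀ : 0 < ε₀) (A₁ : Set ι)
    (hcorr : CorrJ F ld A₁ (ε₀ ^ 2 / 2)) (κ : ℝ) (hκ : 0 < κ) (Dm : ℕ) :
    ∃ L₀ : ℕ, ∀ (A : Set ι) (D : Finset ℕ) (ε : ℝ) (n H m : ℕ), A ⊆ A₁ → (∀ d ∈ D, d ≤ Dm) →
      ε₀ ≤ ε → L₀ ≤ H → SysJ F ld a A D κ ε n H m → (m : ℝ) ≤ 2 / ε₀ ^ 2 := by
  obtain ⟨L₀, hL₀⟩ := hcorr κ hκ Dm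
  refine ⟨L₀ + 1, fun A D ε n H m hA hD hε hH hs => ?_⟩
  obtain ⟨e, he, hsep⟩ := hs
  have hH0 : (0 : ℝ) < H := by
    have : 0 < H := by omega
    exact_mod_cast this
  rcases Nat.eq_zero_or_pos m with hm0 | hm0
  · subst hm0; simp; positivity
  have hm0' : (0 : ℝ) < m := by exact_mod_cast hm0
  set g : ℕ → ℕ → ℂ := fun r l => if h : r < m then F (e ⟨r, h⟩).1 ((e ⟨r, h⟩).2 * (n + l)) else 0
    with hg
  have hg1 : ∀ r l, ‖g r l‖ ≤ 1 := by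
    intro r l
    rw [hg]; beta_reduce
    split_ifs
    · exact hF _ _
    · simp
  have h1 := duality (range m) H (ε₀ ^ 2 / 2) (by positivity) (fun l => a (n + l)) (fun _ => ha _)
    g hg1 (by
      intro r hr s hs' hrs
      rw [mem_range] at hr hs'
      have := hL₀ H (by omega) (e ⟨r, hr⟩).1 (hA (he ⟨r, hr⟩).1) (e ⟨s, hs'⟩).1
        (hA (he ⟨s, hs'⟩).1) (e ⟨r, hr⟩).2 (e ⟨s, hs'⟩).2 n
        (hD _ (he ⟨r, hr⟩).2.1) (hD _ (he ⟨s, hs'⟩).2.1)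
        (hsep ⟨r, hr⟩ ⟨s, hs'⟩ (by simpa using hrs))
      simpa only [hg, hr, hs', dif_pos] using this)
  have h2 : (m : ℝ) * (ε₀ * H) ≤ ∑ r ∈ range m, ‖∑ l ∈ Icc 1 H, g r l * a (n + l)‖ := by
    calc (m : ℝ) * (ε₀ * H) = ∑ r ∈ range m, ε₀ * (H : ℝ) := by simp
      _ ≤ _ := by
        apply sum_le_sum
        intro r hr
        rw [mem_range] at hr
        have h3 := (he ⟨r, hr⟩).2.2
        have h4 : ε₀ * (H : ℝ) ≤ ε * H := mul_le_mul_of_nonneg_right hε hH0.le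
        refine h4.trans (h3.trans (le_of_eq ?_))
        simp only [ws, ph, hg, hr, dif_pos]
  rw [card_range] at h1
  have h3 : (m : ℝ) * ε₀ ≤ √((m : ℝ) + ε₀ ^ 2 / 2 * (m : ℝ) ^ 2) := by
    have h4 := h2.trans h1
    have h5 : (H : ℝ) * ((m : ℝ) * ε₀) ≤ H * √((m : ℝ) + ε₀ ^ 2 / 2 * (m : ℝ) ^ 2) := by
      calc _ = (m : ℝ) * (ε₀ * H) := by ring
        _ ≤ _ := h4
    exact le_of_mul_le_mul_left h5 hH0
  have h4 : ((m : ℝ) * ε₀) ^ 2 ≤ (m : ℝ) + ε₀ ^ 2 / 2 * (m : ℝ) ^ 2 := by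
    rw [← Real.le_sqrt (by positivity) (by positivity)]
    exact h3
  rw [le_div_iff₀ (by positivity)]
  have h5 : (m : ℝ) * (m * ε₀ ^ 2 / 2) ≤ m * 1 := by nlinarith
  have h6 := le_of_mul_le_mul_left h5 hm0'
  linarith

open Classical in
/-- the size of the largest system, at most `M` -/
noncomputable def cntJ (F : ι → ℕ → ℂ) (ld : ι → J → ℝ) (a : ℕ → ℂ) (A : Set ι) (D : Finset ℕ)
    (M : ℕ) (κ ε : ℝ) (n H : ℕ) : ℕ :=
  Nat.findGreatest (fun m => SysJ F ld a A D κ ε n H m) M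

lemma cntJ_le (F : ι → ℕ → ℂ) (ld : ι → J → ℝ) (a : ℕ → ℂ) (A : Set ι) (D : Finset ℕ)
    (M : ℕ) (κ ε : ℝ) (n H : ℕ) : cntJ F ld a A D M κ ε n H ≤ M := by
  classical
  exact Nat.findGreatest_le M

lemma cntJ_sys (F : ι → ℕ → ℂ) (ld : ι → J → ℝ) (a : ℕ → ℂ) (A : Set ι) (D : Finset ℕ)
    (M : ℕ) (κ ε : ℝ) (n H : ℕ) :
    SysJ F ld a A D κ ε n H (cntJ F ld a A D M κ ε n H) := by
  classical
  exact Nat.findGreatest_spec (P := fun m => SysJ F ld a A D κ ε n H m) (Nat.zero_le M)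
    (sysJ_zero F ld a A D κ ε n H)

lemma le_cntJ (F : ι → ℕ → ℂ) (ld : ι → J → ℝ) (a : ℕ → ℂ) (A : Set ι) (D : Finset ℕ)
    (M : ℕ) (κ ε : ℝ) (n H m : ℕ) (hm : m ≤ M) (h : SysJ F ld a A D κ ε n H m) :
    m ≤ cntJ F ld a A D M κ ε n H := by
  classical
  exact Nat.le_findGreatest hm h

lemma sepJ_comm {κ : ℝ} {u v : J → ℝ} (h : SepJ κ u v) : SepJ κ v u := by
  refine ⟨h.2.1, h.1, fun b b' => ?_⟩
  rw [← nd_neg, neg_sub]
  exact h.2.2 b' b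

/-- **The increment for one pair of primes.** -/
lemma cntJ_child (F : ι → ℕ → ℂ) (ld : ι → J → ℝ) (a : ℕ → ℂ) (A : Set ι) (D' : Finset ℕ)
    (M : ℕ) (κ' ε ε' : ℝ) (n H m p p' : ℕ) (hm : m + 1 ≤ M)
    (e : Fin m → ι × ℕ) (heA : ∀ r, (e r).1 ∈ A)
    (hD1 : 1 ∈ D') (hD' : ∀ r, (e r).2 * (p * p') ∈ D')
    (hgood : ∀ r, ε' * ((H : ℕ) : ℝ) ≤
      ws (fun k => ph F (e r).1 (e r).2 (p * p' * k)) a n H)
    (hsep : ∀ r s, r ≠ s → SepJ κ' (fun b => ((p : ℝ) * p') * (((e r).2 : ℝ) * ld (e r).1 b))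
      (fun b => ((p : ℝ) * p') * (((e s).2 : ℝ) * ld (e s).1 b)))
    (hε : ε' ≤ ε) :
    m ≤ cntJ F ld a A D' M κ' ε' n H ∧
      ((∀ i ∈ A, ∀ r, SepJ κ' (ld i) (fun b => ((p : ℝ) * p') * (((e r).2 : ℝ) * ld (e r).1 b))) →
        Kb F a A ε n H → m + 1 ≤ cntJ F ld a A D' M κ' ε' n H) := by
  set e' : Fin m → ι × ℕ := fun r => ((e r).1, (e r).2 * (p * p')) with he'
  have h1 : ∀ r, (e' r).1 ∈ A ∧ (e' r).2 ∈ D' ∧ ε' * H ≤ ws (ph F (e' r).1 (e' r).2) a n H := by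
    intro r
    refine ⟨heA r, hD' r, (hgood r).trans (le_of_eq ?_)⟩
    congr 1
    funext k
    simp only [ph, he', mul_assoc]
  have hld : ∀ r, (fun b => ((e' r).2 : ℝ) * ld (e' r).1 b) =
      (fun b => ((p : ℝ) * p') * (((e r).2 : ℝ) * ld (e r).1 b)) := by
    intro r
    funext b
    simp only [he']
    push_cast
    ring
  have h2 : ∀ r s, r ≠ s → SepJ κ' (fun b => ((e' r).2 : ℝ) * ld (e' r).1 b)
      (fun b => ((e' s).2 : ℝ) * ld (e' s).1 b) := by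
    intro r s hrs
    rw [hld, hld]
    exact hsep r s hrs
  refine ⟨le_cntJ F ld a A D' M κ' ε' n H m (by omega) ⟨e', h1, h2⟩, fun hfar hkb => ?_⟩
  obtain ⟨i, hi, hcor⟩ := hkb
  have e0 : (fun b => (((1 : ℕ) : ℕ) : ℝ) * ld i b) = ld i := by
    funext b
    rw [Nat.cast_one, one_mul]
  refine le_cntJ F ld a A D' M κ' ε' n H (m + 1) hm ⟨Fin.cons (i, 1) e', ?_, ?_⟩
  · intro r
    refine Fin.cases ?_ (fun r => ?_) r
    · simp only [Fin.cons_zero]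
      refine ⟨hi, hD1, ?_⟩
      have e1 : ph F i 1 = F i := by funext k; simp [ph]
      rw [e1]
      refine le_trans ?_ hcor
      exact mul_le_mul_of_nonneg_right hε (Nat.cast_nonneg _)
    · simp only [Fin.cons_succ]
      exact h1 r
  · intro r s
    refine Fin.cases ?_ (fun r => ?_) r
    · refine Fin.cases ?_ (fun s => ?_) s
      · intro h; exact absurd rfl h
      · intro _
        simp only [Fin.cons_zero, Fin.cons_succ]
        rw [hld, e0]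
        exact hfar i hi s
    · refine Fin.cases ?_ (fun s => ?_) s
      · intro _
        simp only [Fin.cons_zero, Fin.cons_succ]
        rw [hld, e0]
        exact sepJ_comm (hfar i hi r)
      · intro hrs
        simp only [Fin.cons_succ]
        exact h2 r s (fun h => hrs (by rw [h]))

end Pool.Agent.Lib.MP_663568_nt.T3
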