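import Mathlib
import Pool.Agent.Lib.MP_663568_nul.OneN
import Pool.Agent.Lib.MP_663568_nul.SepDil
import Pool.Agent.Lib.MP_663568_t3.MSys

/-!
# Vector valued frequencies: the increment for one window, on average over the pairs of primes
-/

set_option autoImplicit false
open Finset

namespace Pool.Agent.Lib.MP_663568_nt.T3

open Katai Nul

variable {ι J : Type}

/-- dilation by a product of two primes keeps the distance to the integers, up to two primes -/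
lemma nd_dilate (R : ℕ) (κ κ' x : ℝ) (h : κ ≤ nd x) (hκ0 : 0 < κ') (hκ : κ' ≤ κ)
    (hR : 2 * κ' * (R : ℝ) ^ 2 ≤ 1) :
    ∃ S : Finset ℕ, S.card ≤ 2 ∧ ∀ p p' : ℕ, p.Prime → p'.Prime → p * p' ≤ R → p ∉ S → p' ∉ S →
      κ' ≤ nd (((p : ℝ) * p') * x) := by
  obtain ⟨S, h1, h2⟩ := sep_dilate 1 1 R κ κ' x le_rfl (by
    intro q hq
    rw [Icc_self, mem_singleton] at hq
    rw [hq, Nat.cast_one, one_mul]
    exact h) hκ0 hκ (by
    rw [Nat.cast_one, one_mul, pow_one]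
    exact hR)
  refine ⟨S, h1, fun p p' hp hp' hpp h3 h4 => ?_⟩
  have h5 := h2 p p' hp hp' hp.one_lt hp'.one_lt hpp h3 h4 1 (by simp)
  rw [Nat.cast_one, one_mul, pow_one] at h5
  exact h5

/-- the same for all the differences of the coordinates of two vectors -/
lemma sepJ_dilate [Fintype J] (R : ℕ) (κ κ' : ℝ) (u v : J → ℝ) (h : SepJ κ u v) (hκ0 : 0 < κ')
    (hκ : κ' ≤ κ) (hR : 2 * κ' * (R : ℝ) ^ 2 ≤ 1) :
    ∃ S : Finset ℕ, S.card ≤ 2 * (Fintype.card J) ^ 2 ∧ ∀ p p' : ℕ, p.Prime → p'.Prime →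
      p * p' ≤ R → p ∉ S → p' ∉ S →
      ∀ b b', κ' ≤ nd (((p : ℝ) * p') * u b - ((p : ℝ) * p') * v b') := by
  classical
  have h1 : ∀ b b', ∃ S : Finset ℕ, S.card ≤ 2 ∧ ∀ p p' : ℕ, p.Prime → p'.Prime → p * p' ≤ R →
      p ∉ S → p' ∉ S → κ' ≤ nd (((p : ℝ) * p') * (u b - v b')) :=
    fun b b' => nd_dilate R κ κ' _ (h.2.2 b b') hκ0 hκ hR
  choose S hS1 hS2 using h1
  refine ⟨univ.biUnion fun b => univ.biUnion fun b' => S b b', ?_, ?_⟩
  · refine card_biUnion_le.trans ?_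
    calc ∑ b : J, (univ.biUnion fun b' => S b b').card ≤ ∑ b : J, (Fintype.card J * 2) := by
          apply sum_le_sum
          intro b _
          refine card_biUnion_le.trans ?_
          calc ∑ b' : J, (S b b').card ≤ ∑ b' : J, 2 := sum_le_sum fun b' _ => hS1 b b'
            _ = Fintype.card J * 2 := by simp
      _ = Fintype.card J * (Fintype.card J * 2) := by simp
      _ = _ := by ring
  · intro p p' hp hp' hpp h3 h4 b b'
    rw [← mul_sub]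
    refine hS2 b b' p p' hp hp' hpp (fun h => h3 ?_) (fun h => h4 ?_)
    · exact mem_biUnion.mpr ⟨b, mem_univ _, mem_biUnion.mpr ⟨b', mem_univ _, h⟩⟩
    · exact mem_biUnion.mpr ⟨b, mem_univ _, mem_biUnion.mpr ⟨b', mem_univ _, h⟩⟩

/-- **The increment for one window, on average over the pairs of primes.** -/
theorem one_nJ [Fintype J] (F : ι → ℕ → ℂ) (ld : ι → J → ℝ) (a : ℕ → ℂ) (hF : ∀ i n, ‖F i n‖ ≤ 1)
    (ha : ∀ n, ‖a n‖ ≤ 1) (hmul : Mult a) (K : Set (J → ℝ)) (δ : ℝ) (A : Set ι)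
    (hA : ∀ i ∈ A, ∃ α ∈ K, ∀ b, |ld i b - α b| < δ)
    (D P P' : Finset ℕ) (hP : ∀ p ∈ P, p.Prime) (hP' : ∀ p ∈ P', p.Prime)
    (P₀ R M : ℕ) (hP₀ : ∀ p ∈ P, P₀ ≤ p) (hP₀' : ∀ p ∈ P', P₀ ≤ p)
    (hR : ∀ p ∈ P, ∀ p' ∈ P', p * p' ≤ R)
    (κ κ' η ε ε₁ : ℝ) (hκ0 : 0 < κ') (hκ : κ' ≤ κ)
    (hκR : 2 * κ' * (R : ℝ) ^ 2 ≤ 1)
    (hη : 0 < η) (hηε : 2 * η ≤ ε) (hη8 : 8 / η ≤ P₀) (hε₁ : ε - 2 * η ≤ ε₁)
    (φ : ℝ → ℝ) (hφ : ∀ x, 0 ≤ φ x) (ρ : ℝ) (hρ : 0 ≤ ρ)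
    (hequi : ∀ α ∈ K, ∀ d ∈ D, ∀ b, ∑ p ∈ P, ∑ p' ∈ P',
      1 / ((p : ℝ) * p') * φ (((p : ℝ) * p') * ((d : ℝ) * α b)) ≤ ρ * (WW P * WW P'))
    (hcoord : ∀ i ∈ A, ∀ d ∈ newD D P P', ∀ b, κ' ≤ nd ((d : ℝ) * ld i b))
    (hnear : ∀ i ∈ A, ∀ i' ∈ A, ∀ d ∈ D, ∀ p ∈ P, ∀ p' ∈ P', ∀ α ∈ K,
      (∀ b, |ld i' b - α b| < δ) → ∀ b b',
      nd (ld i b - ((p : ℝ) * p') * ((d : ℝ) * ld i' b')) < κ' →
      1 ≤ φ (((p : ℝ) * p') * ((d : ℝ) * α b')))
    (γ : ℝ) (hγ : (M : ℝ) * ((Fintype.card J : ℝ) * ρ) * (WW P * WW P') +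
      (M + 1) * ((8 * M / η ^ 2 + 2 * (M * (Fintype.card J : ℝ)) ^ 2) * (WW P + WW P')) ≤
        γ * (WW P * WW P'))
    (n H : ℕ) (hH : LongH P P' η H) (hM : cntJ F ld a A D M κ ε n H + 1 ≤ M) :
    (WW P * WW P') * (cntJ F ld a A D M κ ε n H : ℝ)
      + ∑ z ∈ P ×ˢ P', 1 / ((z.1 : ℝ) * z.2) * kb F a A ε₁ (n / z.1 / z.2) (H / z.1 / z.2)
      ≤ ∑ z ∈ P ×ˢ P', 1 / ((z.1 : ℝ) * z.2) *
          (cntJ F ld a A (newD D P P') M κ' (ε - 2 * η) (n / z.1 / z.2) (H / z.1 / z.2) : ℝ)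
        + γ * (WW P * WW P') := by
  classical
  set m := cntJ F ld a A D M κ ε n H with hm
  have hs : SysJ F ld a A D κ ε n H m := cntJ_sys F ld a A D M κ ε n H
  obtain ⟨e, he, hsep⟩ := hs
  choose α hαK hαδ using fun r => hA (e r).1 (he r).1
  have hmM : (m : ℝ) + 1 ≤ M := by exact_mod_cast hM
  have hWP := WW_nonneg P
  have hWP' := WW_nonneg P'
  set c₀ : ℕ := Fintype.card J with hc₀
  -- primes which spoil the separation
  have hS : ∀ r s, ∃ S : Finset ℕ, S.card ≤ 2 * c₀ ^ 2 ∧ (r ≠ s → ∀ p ∈ P, ∀ p' ∈ P',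
      p ∉ S → p' ∉ S → ∀ b b', κ' ≤ nd (((p : ℝ) * p') * (((e r).2 : ℝ) * ld (e r).1 b) -
        ((p : ℝ) * p') * (((e s).2 : ℝ) * ld (e s).1 b'))) := by
    intro r s
    by_cases hrs : r = s
    · exact ⟨∅, by simp, fun h => absurd hrs h⟩
    · obtain ⟨S, hS1, hS2⟩ := sepJ_dilate R κ κ' _ _ (hsep r s hrs) hκ0 hκ hκR
      exact ⟨S, hS1, fun _ p hp p' hp' h1 h2 => hS2 p p' (hP p hp) (hP' p' hp')
        (hR p hp p' hp') h1 h2⟩
  choose S hS2 hSsep using hS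
  set SS : Finset ℕ := univ.biUnion fun r => univ.biUnion fun s => S r s with hSS
  have hSScard : (SS.card : ℝ) ≤ 2 * ((M : ℝ) * c₀) ^ 2 := by
    have h1 : SS.card ≤ m * (m * (2 * c₀ ^ 2)) := by
      refine card_biUnion_le.trans ?_
      calc ∑ r : Fin m, (univ.biUnion fun s => S r s).card ≤ ∑ r : Fin m, (m * (2 * c₀ ^ 2)) := by
            apply sum_le_sum
            intro r _
            refine card_biUnion_le.trans ?_
            calc ∑ s : Fin m, (S r s).card ≤ ∑ s : Fin m, 2 * c₀ ^ 2 :=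
                  sum_le_sum fun s _ => hS2 r s
              _ = m * (2 * c₀ ^ 2) := by simp
        _ = m * (m * (2 * c₀ ^ 2)) := by simp
    have h2 : (SS.card : ℝ) ≤ m * (m * (2 * (c₀ : ℝ) ^ 2)) := by exact_mod_cast h1
    have h3 : (m : ℝ) ≤ M := by linarith
    have h4 : (0 : ℝ) ≤ m := Nat.cast_nonneg _
    calc (SS.card : ℝ) ≤ m * (m * (2 * (c₀ : ℝ) ^ 2)) := h2
      _ ≤ M * (M * (2 * (c₀ : ℝ) ^ 2)) := by gcongr
      _ = _ := by ring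
  set bad : Finset (ℕ × ℕ) := (univ.biUnion fun r => badpp P P' (ph F (e r).1 (e r).2) a η ε n H) ∪
    (P ×ˢ P').filter (fun z => z.1 ∈ SS ∨ z.2 ∈ SS) with hbad
  have hw : ∀ z : ℕ × ℕ, 0 ≤ 1 / ((z.1 : ℝ) * z.2) := fun z => by positivity
  have hbadw : ∑ z ∈ bad, 1 / ((z.1 : ℝ) * z.2) ≤
      (8 * M / η ^ 2 + 2 * ((M : ℝ) * c₀) ^ 2) * (WW P + WW P') := by
    have h1 : ∑ z ∈ bad, 1 / ((z.1 : ℝ) * z.2) ≤
        ∑ z ∈ (univ.biUnion fun r => badpp P P' (ph F (e r).1 (e r).2) a η ε n H),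
          1 / ((z.1 : ℝ) * z.2) +
        ∑ z ∈ (P ×ˢ P').filter (fun z => z.1 ∈ SS ∨ z.2 ∈ SS), 1 / ((z.1 : ℝ) * z.2) := by
      rw [hbad]
      have := sum_union_inter
        (s₁ := (univ.biUnion fun r => badpp P P' (ph F (e r).1 (e r).2) a η ε n H))
        (s₂ := (P ×ˢ P').filter (fun z => z.1 ∈ SS ∨ z.2 ∈ SS))
        (f := fun z : ℕ × ℕ => 1 / ((z.1 : ℝ) * z.2))
      have h0 : 0 ≤ ∑ z ∈ (univ.biUnion fun r => badpp P P' (ph F (e r).1 (e r).2) a η ε n H) ∩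
          (P ×ˢ P').filter (fun z => z.1 ∈ SS ∨ z.2 ∈ SS), 1 / ((z.1 : ℝ) * z.2) :=
        sum_nonneg fun z _ => hw z
      linarith
    have h2 : ∑ z ∈ (univ.biUnion fun r => badpp P P' (ph F (e r).1 (e r).2) a η ε n H),
        1 / ((z.1 : ℝ) * z.2) ≤ M * (8 / η ^ 2 * (WW P + WW P')) := by
      refine (sum_biUnion_le' _ _ _ hw).trans ?_
      calc ∑ r : Fin m, ∑ z ∈ badpp P P' (ph F (e r).1 (e r).2) a η ε n H,
            1 / ((z.1 : ℝ) * z.2) ≤ ∑ r : Fin m, 8 / η ^ 2 * (WW P + WW P') := by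
            apply sum_le_sum
            intro r _
            exact badpp_weight P P' hP hP' P₀ hP₀ hP₀' η ε hη hηε hη8 _ a (fun k => hF _ _) ha hmul
              n H hH (he r).2.2
        _ = m * (8 / η ^ 2 * (WW P + WW P')) := by simp
        _ ≤ _ := by
          apply mul_le_mul_of_nonneg_right (by linarith)
          positivity
    have h3 := weight_meet P P' SS hP hP'
    have h4 : (SS.card : ℝ) * (WW P + WW P') ≤ 2 * ((M : ℝ) * c₀) ^ 2 * (WW P + WW P') :=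
      mul_le_mul_of_nonneg_right hSScard (by positivity)
    calc _ ≤ M * (8 / η ^ 2 * (WW P + WW P')) + 2 * ((M : ℝ) * c₀) ^ 2 * (WW P + WW P') := by
          linarith
      _ = _ := by ring
  -- the inequality for one pair
  set c : ℕ × ℕ → ℝ := fun z => (cntJ F ld a A (newD D P P') M κ' (ε - 2 * η)
    (n / z.1 / z.2) (H / z.1 / z.2) : ℝ) with hc
  set k : ℕ × ℕ → ℝ := fun z => kb F a A ε₁ (n / z.1 / z.2) (H / z.1 / z.2) with hk
  set fr : Fin m → ℕ × ℕ → ℝ := fun r z =>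
    ∑ b : J, φ (((z.1 : ℝ) * z.2) * (((e r).2 : ℝ) * α r b)) with hfr
  have hfr0 : ∀ r z, 0 ≤ fr r z := fun r z => sum_nonneg fun b _ => hφ _
  have hpair : ∀ z ∈ P ×ˢ P', (m : ℝ) + k z ≤
      c z + ∑ r, fr r z + (if z ∈ bad then (M : ℝ) + 1 else 0) := by
    intro z hz
    have hz0 := hz
    rw [mem_product] at hz
    have hk1 : k z ≤ 1 := kb_le_one _ _ _ _ _ _
    have hc0 : 0 ≤ c z := Nat.cast_nonneg _
    have hf0 : 0 ≤ ∑ r, fr r z := sum_nonneg fun r _ => hfr0 r z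
    by_cases hzb : z ∈ bad
    · rw [if_pos hzb]; linarith
    rw [if_neg hzb, add_zero]
    rw [hbad, mem_union, not_or, mem_biUnion, mem_filter, not_and, not_or] at hzb
    obtain ⟨hb1, hb2⟩ := hzb
    have hb2 := hb2 hz0
    have hgood : ∀ r, (ε - 2 * η) * ((H / z.1 / z.2 : ℕ) : ℝ) ≤
        ws (fun k => ph F (e r).1 (e r).2 (z.1 * z.2 * k)) a (n / z.1 / z.2) (H / z.1 / z.2) := by
      intro r
      by_contra hcon
      apply hb1
      refine ⟨r, mem_univ _, ?_⟩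
      rw [badpp, mem_filter]
      exact ⟨hz0, hcon⟩
    have hco : ∀ r b, κ' ≤ nd (((z.1 : ℝ) * z.2) * (((e r).2 : ℝ) * ld (e r).1 b)) := by
      intro r b
      have h1 := hcoord (e r).1 (he r).1 _ (mem_newD (he r).2.1 hz.1 hz.2) b
      have h2 : (((e r).2 * (z.1 * z.2) : ℕ) : ℝ) * ld (e r).1 b =
          ((z.1 : ℝ) * z.2) * (((e r).2 : ℝ) * ld (e r).1 b) := by
        push_cast; ring
      rw [h2] at h1
      exact h1
    have hsp : ∀ r s, r ≠ s → SepJ κ' (fun b => ((z.1 : ℝ) * z.2) * (((e r).2 : ℝ) * ld (e r).1 b))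
        (fun b => ((z.1 : ℝ) * z.2) * (((e s).2 : ℝ) * ld (e s).1 b)) := by
      intro r s hrs
      refine ⟨hco r, hco s, hSsep r s hrs z.1 hz.1 z.2 hz.2 (fun h => hb2.1 ?_)
        (fun h => hb2.2 ?_)⟩
      · rw [hSS, mem_biUnion]; exact ⟨r, mem_univ _, mem_biUnion.mpr ⟨s, mem_univ _, h⟩⟩
      · rw [hSS, mem_biUnion]; exact ⟨r, mem_univ _, mem_biUnion.mpr ⟨s, mem_univ _, h⟩⟩
    obtain ⟨g1, g2⟩ := cntJ_child F ld a A (newD D P P') M κ' ε₁ (ε - 2 * η) (n / z.1 / z.2)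
      (H / z.1 / z.2) m z.1 z.2 hM e (fun r => (he r).1) (one_mem_newD _ _ _)
      (fun r => mem_newD (he r).2.1 hz.1 hz.2) hgood hsp hε₁
    have g1' : (m : ℝ) ≤ c z := by
      rw [hc]; beta_reduce; exact_mod_cast g1
    by_cases hkb : Kb F a A ε₁ (n / z.1 / z.2) (H / z.1 / z.2)
    · by_cases hfar : ∀ i ∈ A, ∀ r, SepJ κ' (ld i)
          (fun b => ((z.1 : ℝ) * z.2) * (((e r).2 : ℝ) * ld (e r).1 b))
      · have g2' : (m : ℝ) + 1 ≤ c z := by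
          have := g2 hfar hkb
          rw [hc]; beta_reduce; exact_mod_cast this
        linarith
      · push Not at hfar
        obtain ⟨i, hi, r, hr⟩ := hfar
        have h0 : ∃ b b', nd (ld i b - ((z.1 : ℝ) * z.2) * (((e r).2 : ℝ) * ld (e r).1 b')) < κ' := by
          by_contra hcon
          push Not at hcon
          refine hr ⟨fun b => ?_, hco r, hcon⟩
          have h1 := hcoord i hi 1 (one_mem_newD _ _ _) b
          rw [Nat.cast_one, one_mul] at h1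
          exact h1
        obtain ⟨b, b', hbb⟩ := h0
        have h1 : 1 ≤ φ (((z.1 : ℝ) * z.2) * (((e r).2 : ℝ) * α r b')) :=
          hnear i hi (e r).1 (he r).1 (e r).2 (he r).2.1 z.1 hz.1 z.2 hz.2
            (α r) (hαK r) (hαδ r) b b' hbb
        have h2 : φ (((z.1 : ℝ) * z.2) * (((e r).2 : ℝ) * α r b')) ≤ fr r z :=
          single_le_sum (f := fun b => φ (((z.1 : ℝ) * z.2) * (((e r).2 : ℝ) * α r b)))
            (fun b _ => hφ _) (mem_univ b')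
        have h3 : fr r z ≤ ∑ r, fr r z :=
          single_le_sum (f := fun r => fr r z) (fun r _ => hfr0 r z) (mem_univ r)
        linarith
    · have : k z = 0 := by rw [hk]; unfold kb; beta_reduce; rw [if_neg hkb]
      linarith
  -- average over the pairs
  have hWW : ∑ z ∈ P ×ˢ P', 1 / ((z.1 : ℝ) * z.2) = WW P * WW P' := by
    rw [sum_product, WW, WW, sum_mul_sum]
    exact sum_congr rfl fun p _ => sum_congr rfl fun q _ => by rw [one_div_mul_one_div]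
  have hfrs : ∀ r, ∑ z ∈ P ×ˢ P', 1 / ((z.1 : ℝ) * z.2) * fr r z ≤
      (c₀ * ρ) * (WW P * WW P') := by
    intro r
    calc ∑ z ∈ P ×ˢ P', 1 / ((z.1 : ℝ) * z.2) * fr r z =
        ∑ b : J, ∑ p ∈ P, ∑ p' ∈ P', 1 / ((p : ℝ) * p') *
          φ (((p : ℝ) * p') * (((e r).2 : ℝ) * α r b)) := by
          simp only [hfr, mul_sum]
          rw [sum_comm]
          refine sum_congr rfl fun b _ => ?_
          rw [sum_product]
      _ ≤ ∑ b : J, ρ * (WW P * WW P') :=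
          sum_le_sum fun b _ => hequi (α r) (hαK r) (e r).2 (he r).2.1 b
      _ = _ := by
          rw [sum_const, card_univ, nsmul_eq_mul, ← hc₀]
          ring
  have hsum : ∑ z ∈ P ×ˢ P', 1 / ((z.1 : ℝ) * z.2) * ((m : ℝ) + k z) ≤
      ∑ z ∈ P ×ˢ P', 1 / ((z.1 : ℝ) * z.2) *
        (c z + ∑ r, fr r z + (if z ∈ bad then (M : ℝ) + 1 else 0)) :=
    sum_le_sum fun z hz => mul_le_mul_of_nonneg_left (hpair z hz) (hw z)
  have e1 : ∑ z ∈ P ×ˢ P', 1 / ((z.1 : ℝ) * z.2) * ((m : ℝ) + k z) =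
      (WW P * WW P') * m + ∑ z ∈ P ×ˢ P', 1 / ((z.1 : ℝ) * z.2) * k z := by
    rw [← hWW, sum_mul, ← sum_add_distrib]
    exact sum_congr rfl fun z _ => by ring
  have e2 : ∑ z ∈ P ×ˢ P', 1 / ((z.1 : ℝ) * z.2) *
        (c z + ∑ r, fr r z + (if z ∈ bad then (M : ℝ) + 1 else 0)) =
      ∑ z ∈ P ×ˢ P', 1 / ((z.1 : ℝ) * z.2) * c z +
      ∑ r, ∑ z ∈ P ×ˢ P', 1 / ((z.1 : ℝ) * z.2) * fr r z +
      ∑ z ∈ P ×ˢ P', 1 / ((z.1 : ℝ) * z.2) * (if z ∈ bad then (M : ℝ) + 1 else 0) := by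
    rw [sum_comm, ← sum_add_distrib, ← sum_add_distrib]
    refine sum_congr rfl fun z _ => ?_
    rw [← mul_sum]; ring
  have e3 : ∑ z ∈ P ×ˢ P', 1 / ((z.1 : ℝ) * z.2) * (if z ∈ bad then (M : ℝ) + 1 else 0) ≤
      (M + 1) * ((8 * M / η ^ 2 + 2 * ((M : ℝ) * c₀) ^ 2) * (WW P + WW P')) := by
    calc _ = ∑ z ∈ P ×ˢ P', (if z ∈ bad then (M + 1) * (1 / ((z.1 : ℝ) * z.2)) else 0) := by
          refine sum_congr rfl fun z _ => ?_
          split_ifs <;> ring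
      _ = ∑ z ∈ (P ×ˢ P').filter (fun z => z ∈ bad), (M + 1) * (1 / ((z.1 : ℝ) * z.2)) := by
          rw [sum_filter]
      _ ≤ ∑ z ∈ bad, (M + 1) * (1 / ((z.1 : ℝ) * z.2)) := by
          apply sum_le_sum_of_subset_of_nonneg
          · intro z hz; exact (mem_filter.mp hz).2
          · intro z _ _
            exact mul_nonneg (by positivity) (hw z)
      _ = (M + 1) * ∑ z ∈ bad, 1 / ((z.1 : ℝ) * z.2) := by rw [mul_sum]
      _ ≤ _ := mul_le_mul_of_nonneg_left hbadw (by positivity)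
  have e4 : ∑ r, ∑ z ∈ P ×ˢ P', 1 / ((z.1 : ℝ) * z.2) * fr r z ≤
      (M : ℝ) * (c₀ * ρ) * (WW P * WW P') := by
    calc _ ≤ ∑ r : Fin m, (c₀ * ρ) * (WW P * WW P') := sum_le_sum fun r _ => hfrs r
      _ = m * ((c₀ * ρ) * (WW P * WW P')) := by simp
      _ ≤ M * ((c₀ * ρ) * (WW P * WW P')) := by
          apply mul_le_mul_of_nonneg_right (by linarith)
          positivity
      _ = _ := by ring
  rw [e1, e2] at hsum
  linarith

end Pool.Agent.Lib.MP_663568_nt.T3
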