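import Mathlib
import Pool.Agent.Lib.MP_663568_nul.Equi
import Pool.Agent.Lib.MP_663568_t3.MNear
import Pool.Agent.Lib.MP_663568_t3.MOneN

/-!
# Vector valued frequencies: one step of the increment
-/

set_option autoImplicit false
open Finset MeasureTheory

namespace Pool.Agent.Lib.MP_663568_nt.T3

open Katai Nul

variable {ι J : Type}

/-- The induction hypothesis: if undilated phases correlate with `a` at all scales between `H / R`
and `H`, then at one of these scales the mean size of the largest system is at least `s`. -/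
def HypJ (F : ι → ℕ → ℂ) (ld : ι → J → ℝ) (a : ℕ → ℂ) (K : Set (J → ℝ)) (M : ℕ)
    (d₀ ε₁ ε s : ℝ) : Prop :=
  ∃ (D : Finset ℕ) (κ : ℝ) (R : ℕ) (δ₀ : ℝ) (H₀ : ℕ), (∀ d ∈ D, 0 < d) ∧ 0 < κ ∧ 0 < R ∧ 0 < δ₀ ∧
    ∀ H : ℕ, H₀ ≤ H → ∃ B : ℝ, ∀ δ : ℝ, 0 < δ → δ ≤ δ₀ → ∀ N : ℕ, 1 ≤ N →
      (∀ H' : ℕ, H' ≤ H → H ≤ R * H' →
        d₀ * Real.log N ≤ ∑ n ∈ Icc 1 N, (1 / (n : ℝ)) * kb F a (AAJ ld K δ) ε₁ n H') →
      ∃ H' : ℕ, H' ≤ H ∧ H ≤ R * H' ∧ s * Real.log N - B ≤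
        ∑ n ∈ Icc 1 N, (1 / (n : ℝ)) * (cntJ F ld a (AAJ ld K δ) D M κ ε n H' : ℝ)

lemma hypJ_zero (F : ι → ℕ → ℂ) (ld : ι → J → ℝ) (a : ℕ → ℂ) (K : Set (J → ℝ)) (M : ℕ)
    (d₀ ε₁ ε : ℝ) : HypJ F ld a K M d₀ ε₁ ε 0 := by
  refine ⟨{1}, 1, 1, 1, 0, by simp, one_pos, one_pos, one_pos, fun H _ => ⟨0, ?_⟩⟩
  intro δ _ _ N _ _
  refine ⟨H, le_rfl, by omega, ?_⟩
  rw [zero_mul, sub_zero]
  exact sum_nonneg fun n _ => by positivity

/-- the dilates of the coordinates of a compact set stay away from the integers -/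
lemma exists_coord [Fintype J] (K : Set (J → ℝ)) (hK : IsCompact K)
    (hirr : ∀ α ∈ K, ∀ b, Irrational (α b)) (D : Finset ℕ) (hD : ∀ d ∈ D, 0 < d) :
    ∃ κ₁ : ℝ, 0 < κ₁ ∧ ∀ α ∈ K, ∀ d ∈ D, ∀ b, κ₁ ≤ nd ((d : ℝ) * α b) := by
  classical
  have h1 : ∀ z : ℕ × J, ∃ κ : ℝ, 0 < κ ∧ (z.1 ∈ D → ∀ α ∈ K, κ ≤ nd ((z.1 : ℝ) * α z.2)) := by
    intro z
    by_cases hz : z.1 ∈ D
    swap
    · exact ⟨1, one_pos, fun h => absurd h hz⟩
    rcases K.eq_empty_or_nonempty with h0 | h0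
    · exact ⟨1, one_pos, fun _ α hα => by rw [h0] at hα; exact absurd hα (Set.notMem_empty _)⟩
    have hc : Continuous fun α : J → ℝ => nd ((z.1 : ℝ) * α z.2) :=
      continuous_nd.comp (continuous_const.mul (continuous_apply z.2))
    obtain ⟨α₀, hα₀, hmin⟩ := hK.exists_isMinOn h0 hc.continuousOn
    exact ⟨_, nd_pos_of_irrational (hirr α₀ hα₀ z.2) (hD _ hz), fun _ α hα => hmin hα⟩
  choose κ hκ0 hκ using h1
  by_cases hne : (D ×ˢ (univ : Finset J)).Nonempty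
  · obtain ⟨z, _, hmin⟩ := (D ×ˢ (univ : Finset J)).exists_min_image κ hne
    refine ⟨κ z, hκ0 z, fun α hα d hd b => ?_⟩
    exact (hmin (d, b) (by simp [hd])).trans (hκ (d, b) hd α hα)
  · refine ⟨1, one_pos, fun α _ d hd b => ?_⟩
    exact absurd ⟨(d, b), by simp [hd]⟩ hne

theorem hypJ_step [Fintype J] (F : ι → ℕ → ℂ) (ld : ι → J → ℝ) (a : ℕ → ℂ)
    (hF : ∀ i n, ‖F i n‖ ≤ 1) (ha : ∀ n, ‖a n‖ ≤ 1) (hmul : Mult a) (K : Set (J → ℝ))
    (hK : IsCompact K) (hirr : ∀ α ∈ K, ∀ b, Irrational (α b)) (M : ℕ) (hM0 : 1 ≤ M) (ε₀ : ℝ)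
    (hε₀ : 0 < ε₀) (hcorr : CorrJ F ld (AAJ ld K 1) (ε₀ ^ 2 / 2)) (hM : 2 / ε₀ ^ 2 + 1 ≤ M)
    (d₀ ε₁ ε η s : ℝ) (hd₀ : 0 < d₀) (hη : 0 < η) (hε : ε₀ + 2 * η ≤ ε) (hε₁ : ε ≤ ε₁)
    (hvol : ((Fintype.card J : ℝ) + 1) * (volume ((fun x : ℝ => (x : UnitAddCircle)) ''
      (⋃ b, (fun α : J → ℝ => α b) '' K))).toReal < d₀ / (8 * M))
    (hyp : HypJ F ld a K M d₀ ε₁ ε s) :
    HypJ F ld a K M d₀ ε₁ (ε - 2 * η) (s + d₀ / 2) := by
  classical
  obtain ⟨D, κ, R, δ₀, H₀, hD, hκ, hR, hδ₀, hyp⟩ := hyp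
  have hMr : (1 : ℝ) ≤ M := by exact_mod_cast hM0
  set c₀ : ℝ := (Fintype.card J : ℝ) with hc₀
  have hc₀0 : 0 ≤ c₀ := Nat.cast_nonneg _
  set ρ : ℝ := d₀ / (8 * M) / (c₀ + 1) with hρ
  have hρ0 : 0 < ρ := by positivity
  set K' : Set ℝ := ⋃ b, (fun α : J → ℝ => α b) '' K with hK'
  have hK'c : IsCompact K' := isCompact_iUnion fun b => hK.image (continuous_apply b)
  have hK'i : ∀ x ∈ K', Irrational x := by
    intro x hx
    simp only [hK', Set.mem_iUnion, Set.mem_image] at hx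
    obtain ⟨b, α, hα, rfl⟩ := hx
    exact hirr α hα b
  have hmemK' : ∀ α ∈ K, ∀ b, α b ∈ K' := by
    intro α hα b
    simp only [hK', Set.mem_iUnion, Set.mem_image]
    exact ⟨b, α, hα, rfl⟩
  obtain ⟨φ, hφc, hφp, hφ0, hφi, r, hr0, hφr⟩ := near_circ K' hK'c ρ (by
    rw [hρ, lt_div_iff₀ (by positivity), mul_comm]
    exact hvol)
  -- the set of frequencies
  set B : Set ℝ := ⋃ d ∈ D, (fun x : ℝ => (d : ℝ) * x) '' K' with hB
  have hBc : IsCompact B := D.isCompact_biUnion fun d _ => hK'c.image (by fun_prop)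
  have hBi : ∀ x ∈ B, Irrational x := by
    intro x hx
    simp only [hB, Set.mem_iUnion, Set.mem_image] at hx
    obtain ⟨d, hd, α, hα, rfl⟩ := hx
    exact (hK'i α hα).natCast_mul (m := d) (hD d hd).ne'
  set P₀ : ℕ := 2 + ⌈8 / η⌉₊ with hP₀
  set b₀ : ℝ := (M + 1) * (8 * M / η ^ 2 + 2 * (M * c₀) ^ 2) with hb
  have hb0 : 0 < b₀ := by positivity
  set W₀ : ℝ := 8 * b₀ / d₀ + 1 with hW₀
  have hW₀1 : 1 ≤ W₀ := by
    have : 0 ≤ 8 * b₀ / d₀ := by positivity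
    linarith
  obtain ⟨P, P', hP, hP', hWP, hWP', heq⟩ := equi 1 le_rfl B hBc hBi φ hφc hφp ρ hρ0 P₀ W₀
  set W : ℝ := WW P * WW P' with hW
  have hWP1 : 1 ≤ WW P := hW₀1.trans hWP
  have hWP1' : 1 ≤ WW P' := hW₀1.trans hWP'
  have hW0 : 0 < W := by positivity
  have hPp : ∀ p ∈ P, p.Prime := fun p hp => (hP p hp).1
  have hPp' : ∀ p ∈ P', p.Prime := fun p hp => (hP' p hp).1
  -- size of the primes
  set R₂ : ℕ := (∑ p ∈ P, p) * ∑ p ∈ P', p with hR₂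
  have hR₂le : ∀ p ∈ P, ∀ p' ∈ P', p * p' ≤ R₂ := fun p hp p' hp' =>
    Nat.mul_le_mul (single_le_sum (f := fun p : ℕ => p) (fun _ _ => Nat.zero_le _) hp)
      (single_le_sum (f := fun p : ℕ => p) (fun _ _ => Nat.zero_le _) hp')
  set Dm : ℕ := ∑ d ∈ D, d with hDm
  have hDmle : ∀ d ∈ D, d ≤ Dm := fun d hd =>
    single_le_sum (f := fun d : ℕ => d) (fun _ _ => Nat.zero_le _) hd
  set Dn : ℕ := ∑ d ∈ newD D P P', d with hDn
  have hDnle : ∀ d ∈ newD D P P', d ≤ Dn := fun d hd =>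
    single_le_sum (f := fun d : ℕ => d) (fun _ _ => Nat.zero_le _) hd
  obtain ⟨κ₁, hκ₁0, hκ₁⟩ := exists_coord K hK hirr (newD D P P') (newD_pos hD hPp hPp')
  set κ' : ℝ := min κ (min (1 / (2 * ((R₂ : ℝ) ^ 2 + 1))) (min (r / 2) (κ₁ / 2))) with hκ'
  have hκ'0 : 0 < κ' := by
    rw [hκ']
    refine lt_min hκ (lt_min ?_ (lt_min ?_ ?_)) <;> positivity
  have hκ'κ : κ' ≤ κ := min_le_left _ _
  have hκ'r : κ' ≤ r / 2 :=
    (min_le_right _ _).trans ((min_le_right _ _).trans (min_le_left _ _))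
  have hκ'1 : κ' ≤ κ₁ / 2 :=
    (min_le_right _ _).trans ((min_le_right _ _).trans (min_le_right _ _))
  have hκ'R : 2 * κ' * (R₂ : ℝ) ^ 2 ≤ 1 := by
    have h1 : κ' ≤ 1 / (2 * ((R₂ : ℝ) ^ 2 + 1)) :=
      (min_le_right _ _).trans (min_le_left _ _)
    rw [le_div_iff₀ (by positivity)] at h1
    linarith only [h1, hκ'0]
  set E : ℝ := 1 + (R₂ : ℝ) * Dm with hE
  have hE0 : 0 < E := by positivity
  set δ' : ℝ := min (min 1 δ₀) (min (r / 2 / E) (κ₁ / 2 / (Dn + 1))) with hδ'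
  have hδ'0 : 0 < δ' := by
    rw [hδ']; refine lt_min (lt_min one_pos hδ₀) (lt_min ?_ ?_) <;> positivity
  obtain ⟨L₀, hL₀⟩ := sysJ_card F ld a hF ha ε₀ hε₀ (AAJ ld K 1) hcorr κ hκ Dm
  obtain ⟨HL, hHL⟩ := exists_longH P P' hPp η
  set Hm : ℕ := L₀ + HL + R₂ + 1 with hHm
  have hH'big : ∀ H H' : ℕ, R * Hm + H₀ ≤ H → H ≤ R * H' → Hm ≤ H' := by
    intro H H' h1 h2
    have : R * Hm ≤ R * H' := by omega
    exact Nat.le_of_mul_le_mul_left this hR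
  -- constants of the transfer of the averages
  have hcz : ∀ z : ℕ × ℕ, ∃ c : ℝ, z ∈ P ×ˢ P' → ∀ (g : ℕ → ℝ) (M : ℝ), (∀ n, 0 ≤ g n) →
      (∀ n, g n ≤ M) → ∀ N : ℕ, |∑ n ∈ Icc 1 N, (1 / (n : ℝ)) * g (n / z.1 / z.2) -
        ∑ m ∈ Icc 1 N, (1 / (m : ℝ)) * g m| ≤ c * M := by
    intro z
    by_cases hz : z ∈ P ×ˢ P'
    · rw [mem_product] at hz
      obtain ⟨c, hc⟩ := log_transfer (z.1 * z.2) (Nat.mul_pos (hPp _ hz.1).pos (hPp' _ hz.2).pos)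
      refine ⟨c, fun _ g M h1 h2 N => ?_⟩
      have := hc g M h1 h2 N
      simpa only [Nat.div_div_eq_div_mul] using this
    · exact ⟨0, fun h => absurd h hz⟩
  choose cz hcz using hcz
  set c : ℝ := ∑ z ∈ P ×ˢ P', |cz z| with hc
  have hcz' : ∀ z ∈ P ×ˢ P', cz z ≤ c := fun z hz =>
    (le_abs_self _).trans (single_le_sum (f := fun z => |cz z|) (fun _ _ => abs_nonneg _) hz)
  have hc0 : 0 ≤ c := sum_nonneg fun _ _ => abs_nonneg _
  refine ⟨newD D P P', κ', 2 * R * R₂, δ', R * Hm + H₀, newD_pos hD hPp hPp', hκ'0, ?_, hδ'0, ?_⟩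
  · obtain ⟨p, hp⟩ : P.Nonempty := by
      rw [nonempty_iff_ne_empty]; rintro h; rw [h] at hWP1; simp [WW] at hWP1; linarith
    obtain ⟨p', hp'⟩ : P'.Nonempty := by
      rw [nonempty_iff_ne_empty]; rintro h; rw [h] at hWP1'; simp [WW] at hWP1'; linarith
    have h1 := hR₂le p hp p' hp'
    have h2 := Nat.mul_pos (hPp p hp).pos (hPp' p' hp').pos
    have h3 : 0 < R₂ := by omega
    positivity
  intro H hH
  obtain ⟨B₁, hB₁⟩ := hyp H (by omega)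
  refine ⟨B₁ + c + d₀ / 2 + c * M, ?_⟩
  intro δ hδ0 hδ N hN hkb
  have hlogN : 0 ≤ Real.log N := Real.log_nonneg (by exact_mod_cast hN)
  have hδ1 : δ ≤ 1 := hδ.trans ((min_le_left _ _).trans (min_le_left _ _))
  have hδδ₀ : δ ≤ δ₀ := hδ.trans ((min_le_left _ _).trans (min_le_right _ _))
  have hδE : δ ≤ r / 2 / E := hδ.trans ((min_le_right _ _).trans (min_le_left _ _))
  have hδκ : δ ≤ κ₁ / 2 / (Dn + 1) := hδ.trans ((min_le_right _ _).trans (min_le_right _ _))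
  have hR₂0 : 0 < R₂ := by
    obtain ⟨p, hp⟩ : P.Nonempty := by
      rw [nonempty_iff_ne_empty]; rintro h; rw [h] at hWP1; simp [WW] at hWP1; linarith
    obtain ⟨p', hp'⟩ : P'.Nonempty := by
      rw [nonempty_iff_ne_empty]; rintro h; rw [h] at hWP1'; simp [WW] at hWP1'; linarith
    have h1 := hR₂le p hp p' hp'
    have h2 := Nat.mul_pos (hPp p hp).pos (hPp' p' hp').pos
    omega
  obtain ⟨H', hH'1, hH'2, hH's⟩ := hB₁ δ hδ0 hδδ₀ N hN (by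
    intro H' h1 h2
    refine hkb H' h1 (h2.trans ?_)
    have : R * 1 ≤ 2 * R * R₂ := Nat.mul_le_mul (by omega) hR₂0
    calc R * H' = (R * 1) * H' := by ring
      _ ≤ (2 * R * R₂) * H' := Nat.mul_le_mul_right _ this)
  have hbig := hH'big H H' hH hH'2
  -- the children are at admissible scales
  have hchild : ∀ z ∈ P ×ˢ P', H' / z.1 / z.2 ≤ H ∧ H ≤ 2 * R * R₂ * (H' / z.1 / z.2) := by
    intro z hz
    rw [mem_product] at hz
    rw [Nat.div_div_eq_div_mul]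
    have hz0 : 0 < z.1 * z.2 := Nat.mul_pos (hPp _ hz.1).pos (hPp' _ hz.2).pos
    have hz1 : z.1 * z.2 ≤ R₂ := hR₂le _ hz.1 _ hz.2
    refine ⟨(Nat.div_le_self _ _).trans hH'1, ?_⟩
    set x := H' / (z.1 * z.2) with hx
    have h1 : 1 ≤ x := by
      rw [hx, Nat.one_le_div_iff hz0]
      omega
    have h2 : H' < (x + 1) * (z.1 * z.2) := by
      rw [hx, add_mul, one_mul]
      exact Nat.lt_div_mul_add hz0 (a := H')
    have h3 : H' ≤ 2 * x * R₂ := by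
      calc H' ≤ (x + 1) * (z.1 * z.2) := h2.le
        _ ≤ (2 * x) * R₂ := Nat.mul_le_mul (by omega) hz1
    calc H ≤ R * H' := hH'2
      _ ≤ R * (2 * x * R₂) := Nat.mul_le_mul_left _ h3
      _ = _ := by ring
  -- the inequality for each `n`
  have hA : ∀ i ∈ AAJ ld K δ, ∃ α ∈ K, ∀ b, |ld i b - α b| < δ := fun i hi => hi
  have hA1 : AAJ ld K δ ⊆ AAJ ld K 1 := by
    intro i hi
    obtain ⟨α, hα, h⟩ := hi
    exact ⟨α, hα, fun b => (h b).trans_le hδ1⟩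
  have hγ : (M : ℝ) * (c₀ * (2 * ρ)) * W +
      (M + 1) * ((8 * M / η ^ 2 + 2 * (M * c₀) ^ 2) * (WW P + WW P')) ≤ d₀ / 2 * W := by
    have h1 : (M : ℝ) * (c₀ * (2 * ρ)) ≤ d₀ / 4 := by
      have h2 : (M : ℝ) * ((c₀ + 1) * (2 * ρ)) = d₀ / 4 := by rw [hρ]; field_simp; ring
      rw [← h2]
      have h3 : c₀ * (2 * ρ) ≤ (c₀ + 1) * (2 * ρ) :=
        mul_le_mul_of_nonneg_right (by linarith) (by positivity)
      exact mul_le_mul_of_nonneg_left h3 (by linarith)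
    have h1' : (M : ℝ) * (c₀ * (2 * ρ)) * W ≤ d₀ / 4 * W := mul_le_mul_of_nonneg_right h1 hW0.le
    have h2 : b₀ * (WW P + WW P') ≤ d₀ / 4 * W := by
      have h3 : 8 * b₀ / d₀ ≤ WW P := by linarith
      have h4 : 8 * b₀ / d₀ ≤ WW P' := by linarith
      rw [div_le_iff₀ hd₀] at h3 h4
      have h5 : 8 * b₀ * WW P' ≤ WW P * d₀ * WW P' := mul_le_mul_of_nonneg_right h3 (by linarith)
      have h6 : 8 * b₀ * WW P ≤ WW P' * d₀ * WW P := mul_le_mul_of_nonneg_right h4 (by linarith)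
      rw [hW]
      linarith only [h5, h6]
    have h3 : (M + 1) * ((8 * M / η ^ 2 + 2 * (M * c₀) ^ 2) * (WW P + WW P')) =
        b₀ * (WW P + WW P') := by
      rw [hb]; ring
    rw [h3]
    linarith
  have hone : ∀ n : ℕ, W * (cntJ F ld a (AAJ ld K δ) D M κ ε n H' : ℝ)
      + ∑ z ∈ P ×ˢ P', 1 / ((z.1 : ℝ) * z.2) *
          kb F a (AAJ ld K δ) ε₁ (n / z.1 / z.2) (H' / z.1 / z.2)
      ≤ ∑ z ∈ P ×ˢ P', 1 / ((z.1 : ℝ) * z.2) *
          (cntJ F ld a (AAJ ld K δ) (newD D P P') M κ' (ε - 2 * η)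
            (n / z.1 / z.2) (H' / z.1 / z.2) : ℝ)
        + d₀ / 2 * W := by
    intro n
    refine one_nJ F ld a hF ha hmul K δ (AAJ ld K δ) hA D P P' hPp hPp' P₀ R₂ M
      (fun p hp => (hP p hp).2) (fun p hp => (hP' p hp).2) hR₂le κ κ' η ε ε₁ hκ'0 hκ'κ
      hκ'R hη (by linarith) ?_ (by linarith) φ hφ0 (2 * ρ) (by positivity) ?_ ?_ ?_ (d₀ / 2) hγ n H'
      (hHL H' (by omega)) ?_
    · rw [hP₀]; push_cast
      have := Nat.le_ceil (8 / η)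
      linarith
    · intro α hα d hd b
      have h1 := heq ((d : ℝ) * α b) (by
        simp only [hB, Set.mem_iUnion, Set.mem_image]
        exact ⟨d, hd, α b, hmemK' α hα b, rfl⟩)
      simp only [pow_one] at h1
      have h2 : (∫ x in (0 : ℝ)..1, φ x) * W ≤ ρ * W := mul_le_mul_of_nonneg_right hφi hW0.le
      linarith
    · intro i hi d hd b
      obtain ⟨α, hα, hiα⟩ := hi
      have h1 := hκ₁ α hα d hd b
      have h2 := nd_le_add_abs ((d : ℝ) * α b) ((d : ℝ) * ld i b)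
      have h3 : |(d : ℝ) * α b - (d : ℝ) * ld i b| ≤ (Dn + 1) * δ := by
        rw [← mul_sub, abs_mul, abs_of_nonneg (Nat.cast_nonneg _), abs_sub_comm]
        have h4 : (d : ℝ) ≤ Dn := by exact_mod_cast hDnle d hd
        have h5 := (hiα b).le
        have h6 : (0 : ℝ) ≤ |ld i b - α b| := abs_nonneg _
        calc (d : ℝ) * |ld i b - α b| ≤ (Dn + 1) * |ld i b - α b| :=
              mul_le_mul_of_nonneg_right (by linarith) h6
          _ ≤ _ := mul_le_mul_of_nonneg_left h5 (by positivity)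
      have h4 : (Dn + 1) * δ ≤ κ₁ / 2 := by
        have h5 := hδκ
        rw [le_div_iff₀ (by positivity)] at h5
        linarith
      linarith
    · intro i hi i' hi' d hd p hp p' hp' α hα hiα b b' hnd
      obtain ⟨k, hk, hik⟩ := hi
      obtain ⟨z, hz⟩ := nd_exists (ld i b - ((p : ℝ) * p') * ((d : ℝ) * ld i' b'))
      rw [hz] at hnd
      set m : ℝ := ((p : ℝ) * p') * (d : ℝ) with hm
      have hm0 : 0 ≤ m := by positivity
      have hmE : m + 1 ≤ E := by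
        rw [hE, hm, add_comm]
        have h1 : (p : ℝ) * p' ≤ R₂ := by exact_mod_cast hR₂le p hp p' hp'
        have h2 : (d : ℝ) ≤ Dm := by exact_mod_cast hDmle d hd
        gcongr
      refine hφr _ (k b) (hmemK' k hk b) (-z) ?_
      have e1 : ((p : ℝ) * p') * ((d : ℝ) * α b') - (k b + ((-z : ℤ) : ℝ)) =
          m * (α b' - ld i' b') + (ld i b - k b) -
          ((ld i b - ((p : ℝ) * p') * ((d : ℝ) * ld i' b')) - z) := by
        rw [hm]; push_cast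
        ring
      rw [e1]
      have a1 : |m * (α b' - ld i' b')| ≤ m * δ := by
        rw [abs_mul, abs_of_nonneg hm0, abs_sub_comm]
        exact mul_le_mul_of_nonneg_left (hiα b').le hm0
      have a2 : |(ld i b - ((p : ℝ) * p') * ((d : ℝ) * ld i' b')) - z| ≤ r / 2 :=
        hnd.le.trans hκ'r
      have a3 : (m + 1) * δ ≤ r / 2 := by
        have h1 := hδE
        rw [le_div_iff₀ hE0] at h1
        have h2 : (m + 1) * δ ≤ E * δ := mul_le_mul_of_nonneg_right hmE hδ0.le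
        linarith only [h1, h2]
      calc _ ≤ |m * (α b' - ld i' b') + (ld i b - k b)| +
            |(ld i b - ((p : ℝ) * p') * ((d : ℝ) * ld i' b')) - z| :=
            abs_sub _ _
        _ ≤ (m * δ + δ) + r / 2 := by
            refine add_le_add ((abs_add_le _ _).trans (add_le_add a1 (hik b).le)) a2
        _ ≤ r := by linarith
    · have h1 := hL₀ (AAJ ld K δ) D ε n H' _ hA1 hDmle (by linarith) (by omega)
        (cntJ_sys F ld a (AAJ ld K δ) D M κ ε n H')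
      have h2 : ((cntJ F ld a (AAJ ld K δ) D M κ ε n H' : ℕ) : ℝ) + 1 ≤ M := by linarith
      exact_mod_cast h2
  -- average over `n`
  have hw : ∀ z : ℕ × ℕ, 0 ≤ 1 / ((z.1 : ℝ) * z.2) := fun z => by positivity
  have hWW : ∑ z ∈ P ×ˢ P', 1 / ((z.1 : ℝ) * z.2) = W := by
    rw [sum_product, hW, WW, WW, sum_mul_sum]
    exact sum_congr rfl fun p _ => sum_congr rfl fun q _ => by rw [one_div_mul_one_div]
  set cn : ℕ → ℝ := fun n => (cntJ F ld a (AAJ ld K δ) D M κ ε n H' : ℝ) with hcn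
  set kz : ℕ × ℕ → ℕ → ℝ := fun z n => kb F a (AAJ ld K δ) ε₁ n (H' / z.1 / z.2) with hkz
  set cz' : ℕ × ℕ → ℕ → ℝ := fun z n =>
    (cntJ F ld a (AAJ ld K δ) (newD D P P') M κ' (ε - 2 * η) n (H' / z.1 / z.2) : ℝ) with hcz''
  have hsum : ∑ n ∈ Icc 1 N, (1 / (n : ℝ)) * (W * cn n + ∑ z ∈ P ×ˢ P', 1 / ((z.1 : ℝ) * z.2) *
      kz z (n / z.1 / z.2)) ≤ ∑ n ∈ Icc 1 N, (1 / (n : ℝ)) *
      (∑ z ∈ P ×ˢ P', 1 / ((z.1 : ℝ) * z.2) * cz' z (n / z.1 / z.2) + d₀ / 2 * W) :=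
    sum_le_sum fun n _ => mul_le_mul_of_nonneg_left (hone n) (by positivity)
  have e1 : ∑ n ∈ Icc 1 N, (1 / (n : ℝ)) * (W * cn n + ∑ z ∈ P ×ˢ P', 1 / ((z.1 : ℝ) * z.2) *
      kz z (n / z.1 / z.2)) = W * ∑ n ∈ Icc 1 N, (1 / (n : ℝ)) * cn n +
      ∑ z ∈ P ×ˢ P', 1 / ((z.1 : ℝ) * z.2) *
        ∑ n ∈ Icc 1 N, (1 / (n : ℝ)) * kz z (n / z.1 / z.2) := by
    simp only [mul_add, sum_add_distrib, mul_sum]
    congr 1
    · exact sum_congr rfl fun n _ => by ring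
    · rw [sum_comm]
      exact sum_congr rfl fun z _ => sum_congr rfl fun n _ => by ring
  have e2 : ∑ n ∈ Icc 1 N, (1 / (n : ℝ)) *
      (∑ z ∈ P ×ˢ P', 1 / ((z.1 : ℝ) * z.2) * cz' z (n / z.1 / z.2) + d₀ / 2 * W) =
      ∑ z ∈ P ×ˢ P', 1 / ((z.1 : ℝ) * z.2) *
        ∑ n ∈ Icc 1 N, (1 / (n : ℝ)) * cz' z (n / z.1 / z.2) +
      d₀ / 2 * W * ∑ n ∈ Icc 1 N, (1 / (n : ℝ)) := by
    simp only [mul_add, sum_add_distrib, mul_sum]
    congr 1
    · rw [sum_comm]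
      exact sum_congr rfl fun z _ => sum_congr rfl fun n _ => by ring
    · exact sum_congr rfl fun n _ => by ring
  rw [e1, e2] at hsum
  have hlogs := sum_inv_le_log N
  -- the kernels
  have hk1 : ∀ z ∈ P ×ˢ P', d₀ * Real.log N - c ≤
      ∑ n ∈ Icc 1 N, (1 / (n : ℝ)) * kz z (n / z.1 / z.2) := by
    intro z hz
    have h1 := hkb (H' / z.1 / z.2) (hchild z hz).1 (hchild z hz).2
    have h2 := hcz z hz (kz z) 1 (fun n => kb_nonneg _ _ _ _ _ _) (fun n => kb_le_one _ _ _ _ _ _) N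
    rw [mul_one] at h2
    have h3 := (abs_le.mp h2).1
    have h4 := hcz' z hz
    change d₀ * Real.log N ≤ ∑ n ∈ Icc 1 N, (1 / (n : ℝ)) * kz z n at h1
    linarith
  have hc1 : ∀ z ∈ P ×ˢ P', ∑ n ∈ Icc 1 N, (1 / (n : ℝ)) * cz' z (n / z.1 / z.2) ≤
      ∑ n ∈ Icc 1 N, (1 / (n : ℝ)) * cz' z n + c * M := by
    intro z hz
    have h2 := hcz z hz (cz' z) M (fun n => Nat.cast_nonneg _)
      (fun n => by
        rw [hcz'']; beta_reduce
        exact_mod_cast cntJ_le F ld a (AAJ ld K δ) (newD D P P') M κ' (ε - 2 * η) n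
          (H' / z.1 / z.2)) N
    have h3 := (abs_le.mp h2).2
    have h4 : cz z * M ≤ c * M := mul_le_mul_of_nonneg_right (hcz' z hz) (by positivity)
    linarith
  -- one pair is good
  by_contra hcon
  push Not at hcon
  have hlt : ∀ z ∈ P ×ˢ P', ∑ n ∈ Icc 1 N, (1 / (n : ℝ)) * cz' z n <
      (s + d₀ / 2) * Real.log N - (B₁ + c + d₀ / 2 + c * M) := by
    intro z hz
    exact hcon (H' / z.1 / z.2) (hchild z hz).1 (hchild z hz).2
  have f1 : W * (s * Real.log N - B₁) ≤ W * ∑ n ∈ Icc 1 N, (1 / (n : ℝ)) * cn n :=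
    mul_le_mul_of_nonneg_left hH's hW0.le
  have f2 : W * (d₀ * Real.log N - c) ≤ ∑ z ∈ P ×ˢ P', 1 / ((z.1 : ℝ) * z.2) *
        ∑ n ∈ Icc 1 N, (1 / (n : ℝ)) * kz z (n / z.1 / z.2) := by
    rw [← hWW, sum_mul]
    exact sum_le_sum fun z hz => mul_le_mul_of_nonneg_left (hk1 z hz) (hw z)
  have f3 : ∑ z ∈ P ×ˢ P', 1 / ((z.1 : ℝ) * z.2) *
        ∑ n ∈ Icc 1 N, (1 / (n : ℝ)) * cz' z (n / z.1 / z.2) <
      W * ((s + d₀ / 2) * Real.log N - (B₁ + c + d₀ / 2 + c * M) + c * M) := by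
    rw [← hWW, sum_mul]
    apply sum_lt_sum_of_nonempty
    · rw [nonempty_iff_ne_empty]
      rintro h
      rw [h, sum_empty] at hWW
      linarith
    · intro z hz
      have hz' := mem_product.mp hz
      have h1 : 0 < 1 / ((z.1 : ℝ) * z.2) := by
        have := (hPp _ hz'.1).pos
        have := (hPp' _ hz'.2).pos
        positivity
      apply mul_lt_mul_of_pos_left _ h1
      have := hc1 z hz
      have := hlt z hz
      linarith
  have f4 : d₀ / 2 * W * ∑ n ∈ Icc 1 N, (1 / (n : ℝ)) ≤ d₀ / 2 * W * (1 + Real.log N) :=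
    mul_le_mul_of_nonneg_left hlogs (by positivity)
  have f5 : W * (s * Real.log N - B₁) + W * (d₀ * Real.log N - c) <
      W * ((s + d₀ / 2) * Real.log N - (B₁ + c + d₀ / 2 + c * M) + c * M) +
        d₀ / 2 * W * (1 + Real.log N) := by linarith
  have f6 : W * (s * Real.log N - B₁) + W * (d₀ * Real.log N - c) =
      W * ((s + d₀ / 2) * Real.log N - (B₁ + c + d₀ / 2 + c * M) + c * M) +
        d₀ / 2 * W * (1 + Real.log N) := by ring
  linarith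

end Pool.Agent.Lib.MP_663568_nt.T3
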