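import Mathlib
import Pool.Agent.Lib.MP_663568_nul.Scales
import Pool.Agent.Lib.MP_663568_t3.MDefs
import Pool.Agent.Lib.MP_663568_t3.MOneStep

/-!
# Vector valued frequencies: the uniform estimate
-/

set_option autoImplicit false
open Finset MeasureTheory

namespace Pool.Agent.Lib.MP_663568_nt.T3

open Katai Nul

variable {ι J : Type}

lemma GG_le_kbJ (F : ι → ℕ → ℂ) (ld : ι → J → ℝ) (a : ℕ → ℂ) (hF : ∀ i n, ‖F i n‖ ≤ 1)
    (ha : ∀ n, ‖a n‖ ≤ 1) (K : Set (J → ℝ)) (δ ε : ℝ) (hε : 0 ≤ ε) (H n : ℕ) :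
    GG (FAJ F ld K δ) a H n ≤ H * kb F a (AAJ ld K δ) ε n H + ε * H := by
  classical
  have hH : (0 : ℝ) ≤ H := Nat.cast_nonneg _
  unfold kb
  split_ifs with h
  · have := GG_le (FAJ F ld K δ) a (fun i n => hF _ _) ha H n
    have : 0 ≤ ε * H := by positivity
    linarith
  · rw [mul_zero, zero_add]
    refine Real.iSup_le (fun i => ?_) (by positivity)
    unfold Kb at h
    push Not at h
    exact (h i.1 i.2).le

lemma GG_monoJ (F : ι → ℕ → ℂ) (ld : ι → J → ℝ) (a : ℕ → ℂ) (hF : ∀ i n, ‖F i n‖ ≤ 1)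
    (ha : ∀ n, ‖a n‖ ≤ 1) (K : Set (J → ℝ)) (δ δ' : ℝ) (h : δ ≤ δ') (H n : ℕ) :
    GG (FAJ F ld K δ) a H n ≤ GG (FAJ F ld K δ') a H n := by
  refine Real.iSup_le (fun i => ?_) (GG_nonneg _ _ _ _)
  have hi : i.1 ∈ AAJ ld K δ' := by
    obtain ⟨α, hα, h1⟩ := i.2
    exact ⟨α, hα, fun b => (h1 b).trans_le h⟩
  exact le_GG (FAJ F ld K δ') a (fun i n => hF _ _) ha H n ⟨i.1, hi⟩

/-- **One scale.** -/
theorem one_scaleJ [Fintype J] (F : ι → ℕ → ℂ) (ld : ι → J → ℝ) (a : ℕ → ℂ)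
    (hF : ∀ i n, ‖F i n‖ ≤ 1) (ha : ∀ n, ‖a n‖ ≤ 1) (hmul : Mult a) (ε : ℝ) (hε : 0 < ε)
    (K : Set (J → ℝ)) (hK : IsCompact K) (hirr : ∀ α ∈ K, ∀ b, Irrational (α b))
    (hcorr : CorrJ F ld (AAJ ld K 1) ((ε / 16) ^ 2 / 2))
    (hvol : ((Fintype.card J : ℝ) + 1) * (volume ((fun x : ℝ => (x : UnitAddCircle)) ''
      (⋃ b, (fun α : J → ℝ => α b) '' K))).toReal < ε / 4 / (8 * (MM ε : ℕ))) :
    ∃ δ : ℝ, 0 < δ ∧ ∃ L : ℕ, 0 < L ∧ ∃ N₀ : ℕ, ∀ N : ℕ, N₀ ≤ N →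
      ∑ n ∈ Icc 1 N, (1 / (n : ℝ)) * GG (FAJ F ld K δ) a L n ≤ ε * L * Real.log N := by
  set M := MM ε with hM
  set ε₀ : ℝ := ε / 16 with hε₀
  set d₀ : ℝ := ε / 4 with hd₀
  have hε₀0 : 0 < ε₀ := by positivity
  have hd₀0 : 0 < d₀ := by positivity
  have hMge : 2 / ε₀ ^ 2 + 1 ≤ M := by
    rw [hM, MM]; push_cast
    have := Nat.le_ceil (2 / (ε / 16) ^ 2)
    linarith
  have hM1 : 1 ≤ M := by rw [hM, MM]; omega
  have hMr : (1 : ℝ) ≤ M := by exact_mod_cast hM1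
  set T₀ : ℕ := ⌈2 * ((M : ℝ) + 1) / d₀⌉₊ + 1 with hT₀
  have hT₀0 : (0 : ℝ) < T₀ := by rw [hT₀]; positivity
  have hT₀s : (M : ℝ) + 1 ≤ T₀ * (d₀ / 2) := by
    have h1 := Nat.le_ceil (2 * ((M : ℝ) + 1) / d₀)
    have h2 : 2 * ((M : ℝ) + 1) / d₀ ≤ T₀ := by
      rw [hT₀]; push_cast; linarith
    rw [div_le_iff₀ hd₀0] at h2
    linarith
  set η : ℝ := ε₀ / (2 * T₀) with hη
  have hη0 : 0 < η := by positivity
  have hiter : ∀ j : ℕ, j ≤ T₀ →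
      HypJ F ld a K M d₀ (ε / 8) (ε / 8 - 2 * η * j) (j * (d₀ / 2)) := by
    intro j
    induction j with
    | zero =>
      intro _
      simpa using hypJ_zero F ld a K M d₀ (ε / 8) (ε / 8)
    | succ j ih =>
      intro hj
      have hjr : (j : ℝ) + 1 ≤ T₀ := by exact_mod_cast hj
      have h2 : ε₀ + 2 * η ≤ ε / 8 - 2 * η * j := by
        have h3 : 2 * η * (j + 1) ≤ 2 * η * T₀ := mul_le_mul_of_nonneg_left hjr (by positivity)
        have h4 : 2 * η * T₀ = ε₀ := by rw [hη]; field_simp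
        have h5 : ε / 8 = 2 * ε₀ := by rw [hε₀]; ring
        rw [h5]
        linarith
      have h1 := hypJ_step F ld a hF ha hmul K hK hirr M hM1 ε₀ hε₀0 hcorr hMge d₀ (ε / 8)
        (ε / 8 - 2 * η * j) η (j * (d₀ / 2)) hd₀0 hη0 h2 (by
          have : 0 ≤ 2 * η * j := by positivity
          linarith) hvol (ih (by omega))
      have e1 : ε / 8 - 2 * η * j - 2 * η = ε / 8 - 2 * η * ((j + 1 : ℕ) : ℝ) := by
        push_cast; ring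
      have e2 : (j : ℝ) * (d₀ / 2) + d₀ / 2 = ((j + 1 : ℕ) : ℝ) * (d₀ / 2) := by
        push_cast; ring
      rw [e1, e2] at h1
      exact h1
  obtain ⟨D, κ, R, δ₀, H₀, hD, hκ, hR, hδ₀, hyp⟩ := hiter T₀ le_rfl
  obtain ⟨B, hB⟩ := hyp (H₀ + 1) (by omega)
  set H := H₀ + 1 with hH
  set T : ℕ := ⌈4 * (H : ℝ) / ε⌉₊ + 1 with hT
  have hTr : 4 * (H : ℝ) ≤ ε * T := by
    have h1 := Nat.le_ceil (4 * (H : ℝ) / ε)
    have h2 : 4 * (H : ℝ) / ε ≤ T := by rw [hT]; push_cast; linarith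
    rw [div_le_iff₀ hε] at h2
    linarith
  obtain ⟨N₁, hN₁⟩ := down_scale (GG (FAJ F ld K δ₀) a) (GG_nonneg _ _)
    (GG_le _ a (fun i n => hF _ _) ha)
    (fun H L n hL => GG_sub _ a (fun i n => hF _ _) ha H L n hL) ε hε T (by omega)
  obtain ⟨N₂, hN₂⟩ : ∃ N₂ : ℕ, ∀ N : ℕ, N₂ ≤ N → max 1 (B + M + 1) ≤ Real.log N := by
    have ht : Filter.Tendsto (fun N : ℕ => Real.log (N : ℝ)) Filter.atTop Filter.atTop :=
      Real.tendsto_log_atTop.comp tendsto_natCast_atTop_atTop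
    exact Filter.eventually_atTop.mp (ht.eventually_ge_atTop _)
  refine ⟨δ₀, hδ₀, T, by omega, N₁ + N₂ + 1, fun N hN => ?_⟩
  by_contra hcon
  push Not at hcon
  have hlog := hN₂ N (by omega)
  have hlog1 : 1 ≤ Real.log N := (le_max_left _ _).trans hlog
  have hlog2 : B + M + 1 ≤ Real.log N := (le_max_right _ _).trans hlog
  have hdown := hN₁ N (by omega) hcon
  have hlogs := sum_inv_le_log N
  obtain ⟨H', hH'1, hH'2, hH's⟩ := hB δ₀ hδ₀ le_rfl N (by omega) (by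
    intro H' h1 h2
    have hH'0 : 0 < H' := by
      rcases Nat.eq_zero_or_pos H' with h | h
      · rw [h, mul_zero] at h2; omega
      · exact h
    have hH'r : (0 : ℝ) < H' := by exact_mod_cast hH'0
    have h3 := hdown H' hH'0 (by
      have : (H' : ℝ) ≤ H := by exact_mod_cast h1
      linarith)
    have h4 : ∑ n ∈ Icc 1 N, (1 / (n : ℝ)) * GG (FAJ F ld K δ₀) a H' n ≤
        H' * ∑ n ∈ Icc 1 N, (1 / (n : ℝ)) * kb F a (AAJ ld K δ₀) (ε / 8) n H' +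
          ε / 8 * H' * ∑ n ∈ Icc 1 N, (1 / (n : ℝ)) := by
      rw [mul_sum, mul_sum, ← sum_add_distrib]
      refine sum_le_sum fun n _ => ?_
      have := GG_le_kbJ F ld a hF ha K δ₀ (ε / 8) (by positivity) H' n
      calc (1 / (n : ℝ)) * GG (FAJ F ld K δ₀) a H' n
          ≤ (1 / (n : ℝ)) * (H' * kb F a (AAJ ld K δ₀) (ε / 8) n H' + ε / 8 * H') :=
            mul_le_mul_of_nonneg_left this (by positivity)
        _ = _ := by ring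
    have h5 : ε / 8 * H' * ∑ n ∈ Icc 1 N, (1 / (n : ℝ)) ≤ ε / 8 * H' * (1 + Real.log N) :=
      mul_le_mul_of_nonneg_left hlogs (by positivity)
    have h6 : (H' : ℝ) * (d₀ * Real.log N) ≤
        H' * ∑ n ∈ Icc 1 N, (1 / (n : ℝ)) * kb F a (AAJ ld K δ₀) (ε / 8) n H' := by
      have h7 : (H' : ℝ) * (ε / 8) ≤ H' * (ε / 8) * Real.log N :=
        le_mul_of_one_le_right (by positivity) hlog1
      rw [hd₀]
      linarith
    exact le_of_mul_le_mul_left h6 hH'r)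
  have h8 : ∑ n ∈ Icc 1 N, (1 / (n : ℝ)) *
      (cntJ F ld a (AAJ ld K δ₀) D M κ (ε / 8 - 2 * η * T₀) n H' : ℝ) ≤
        M * (1 + Real.log N) := by
    calc _ ≤ ∑ n ∈ Icc 1 N, (1 / (n : ℝ)) * M := by
          refine sum_le_sum fun n _ => mul_le_mul_of_nonneg_left ?_ (by positivity)
          exact_mod_cast cntJ_le F ld a (AAJ ld K δ₀) D M κ (ε / 8 - 2 * η * T₀) n H'
      _ = M * ∑ n ∈ Icc 1 N, (1 / (n : ℝ)) := by rw [← sum_mul, mul_comm]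
      _ ≤ _ := mul_le_mul_of_nonneg_left hlogs (by positivity)
  have h9 : ((M : ℝ) + 1) * Real.log N ≤ T₀ * (d₀ / 2) * Real.log N :=
    mul_le_mul_of_nonneg_right hT₀s (by linarith)
  linarith

/-- **Task M.** -/
theorem scales_vec [Fintype J] (F : ι → ℕ → ℂ) (ld : ι → J → ℝ) (a : ℕ → ℂ)
    (hF : ∀ i n, ‖F i n‖ ≤ 1) (ha : ∀ n, ‖a n‖ ≤ 1) (hmul : Mult a) (ε : ℝ) (hε : 0 < ε)
    (K : Set (J → ℝ)) (hK : IsCompact K) (hirr : ∀ α ∈ K, ∀ b, Irrational (α b))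
    (hvol : ((Fintype.card J : ℝ) + 1) * (volume ((fun x : ℝ => (x : UnitAddCircle)) ''
      (⋃ b, (fun α : J → ℝ => α b) '' K))).toReal < ε / 10 / 4 / (8 * (MM (ε / 10) : ℕ)))
    (hcorr : CorrJ F ld (AAJ ld K 1) ((ε / 10 / 16) ^ 2 / 2))
    (hsingle : ∃ δ : ℝ, 0 < δ ∧ ∃ H₁ : ℕ, ∀ i ∈ AAJ ld K δ, ∀ H n : ℕ, H₁ ≤ H → n ≤ H →
      ws (F i) a n H ≤ ε / 10 * H) :
    ∃ δ : ℝ, 0 < δ ∧ ∃ H₀ : ℕ, ∀ N H : ℕ, H₀ ≤ H → H ≤ N →
      ∑ n ∈ Icc 1 N, (1 / (n : ℝ)) * GG (FAJ F ld K δ) a H n ≤ ε * H * Real.log N := by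
  have hε' : 0 < ε / 10 := by positivity
  obtain ⟨δ₁, hδ₁, L, hL, N₀, h1⟩ := one_scaleJ F ld a hF ha hmul (ε / 10) hε' K hK hirr hcorr hvol
  obtain ⟨δ₂, hδ₂, H₁, h2⟩ := hsingle
  set δ := min δ₁ δ₂ with hδ
  have hδ0 : 0 < δ := lt_min hδ₁ hδ₂
  obtain ⟨H₀, h3⟩ := up_scale (GG (FAJ F ld K δ) a) (GG_nonneg _ _)
    (GG_le _ a (fun i n => hF _ _) ha)
    (fun H L n hL => GG_sub _ a (fun i n => hF _ _) ha H L n hL) (ε / 10) hε' L hL N₀ (by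
      intro N hN
      refine le_trans (sum_le_sum fun n _ => ?_) (h1 N hN)
      exact mul_le_mul_of_nonneg_left (GG_monoJ F ld a hF ha K δ δ₁ (min_le_left _ _) L n)
        (by positivity)) H₁ (by
      intro H n hH hn
      refine Real.iSup_le (fun i => ?_) (by positivity)
      obtain ⟨α, hα, h⟩ := i.2
      exact h2 i.1 ⟨α, hα, fun b => (h b).trans_le (min_le_right _ _)⟩ H n hH hn)
  refine ⟨δ, hδ0, H₀, fun N H h4 h5 => (h3 N H h4 h5).trans (le_of_eq ?_)⟩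
  ring

end Pool.Agent.Lib.MP_663568_nt.T3
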