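import Mathlib
import Pool.Agent.Lib.MP_663568_nt_h86.FLev
import Pool.Agent.Lib.MP_663568_nt_h86.Approx

/-!
# Nilpotent groups with coordinates: definitions
-/

set_option autoImplicit false
open Finset

namespace Pool.Agent.Lib.MP_663568_nt.T3

open Katai Tw Fib

/-- There is no integer relation with coefficients at most `K` between `1` and the `θ j`. -/
def NR {β : Type} [Fintype β] (K : ℕ) (θ : β → ℝ) : Prop :=
  ∀ k : β → ℤ, k ≠ 0 → (∀ j, |k j| ≤ (K : ℤ)) → ∀ z : ℤ, ∑ j, (k j : ℝ) * θ j ≠ z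

/-- A filtered nilpotent group `A 0 = A 1 ≥ A 2 ≥ …` with a subgroup `Γ` and coordinates:
`π s` is a homomorphism from `A s` to `ℝ ^ (β s)` with kernel `A (s + 1)`, with integral values on
`Γ`, and the `e s j` are one-parameter subgroups of `A s` with `e s j 1 ∈ Γ`, mapped by `π s` to
the coordinate axes. -/
structure NS {G : Type} [Group G] [TopologicalSpace G] (A : ℕ → Subgroup G) (Γ : Subgroup G)
    {β : ℕ → Type} [∀ s, Fintype (β s)] [∀ s, DecidableEq (β s)]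
    (π : (s : ℕ) → G → β s → ℝ) (e : (s : ℕ) → β s → ℝ → G) : Prop where
  anti : Antitone A
  comm : ∀ i j, ⁅A i, A j⁆ ≤ A (i + j)
  A0 : A 0 = ⊤
  A1 : A 1 = ⊤
  low : ∀ s, 1 ≤ s → A (s + 1) ≤ ⁅(⊤ : Subgroup G), A s⁆
  coc : Coc A Γ
  pi_mul : ∀ s, 1 ≤ s → ∀ x ∈ A s, ∀ y ∈ A s, π s (x * y) = π s x + π s y
  pi_cont : ∀ s, 1 ≤ s → ContinuousOn (π s) (A s)
  pi_int : ∀ s, 1 ≤ s → ∀ γ ∈ Γ, γ ∈ A s → ∀ j, ∃ z : ℤ, π s γ j = z
  pi_ker : ∀ s, 1 ≤ s → ∀ x ∈ A s, π s x = 0 ↔ x ∈ A (s + 1)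
  e_onep : ∀ s, 1 ≤ s → ∀ j, IsOneP (e s j) ∧ e s j 1 ∈ Γ ∧ ∀ r, e s j r ∈ A s
  e_pi : ∀ s, 1 ≤ s → ∀ j r, π s (e s j r) = Pi.single j r

section

variable {G : Type} [Group G] [TopologicalSpace G]

/-- functions of level `s` -/
def LevN (A : ℕ → Subgroup G) (Γ : Subgroup G) {β : ℕ → Type} (e : (s : ℕ) → β s → ℝ → G)
    (s : ℕ) (F : G → ℂ) : Prop :=
  Reg Γ F ∧ Inv (A (s + 1)) F ∧ ∀ j, ∃ m : ℤ, Freq (e s j) m F

/-- a nonzero vertical frequency -/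
def GoodN {G : Type} [Group G] {β : ℕ → Type} (e : (s : ℕ) → β s → ℝ → G) (s : ℕ) (F : G → ℂ) :
    Prop := ∃ j, ∃ m : ℤ, m ≠ 0 ∧ Freq (e s j) m F

end

/-- **Quantitative equidistribution for functions of level `s`.**  The bound `K` for the relations
depends on the function and on `ε` only. -/
def EquiAt (s : ℕ) : Prop :=
  ∀ (G : Type) [Group G] [TopologicalSpace G] [IsTopologicalGroup G]
    (A : ℕ → Subgroup G) (Γ : Subgroup G)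
    (β : ℕ → Type) [∀ s, Fintype (β s)] [∀ s, DecidableEq (β s)]
    (π : (s : ℕ) → G → β s → ℝ) (e : (s : ℕ) → β s → ℝ → G), NS A Γ π e →
    ∀ F : G → ℂ, LevN A Γ e s F → GoodN e s F → ∀ ε : ℝ, 0 < ε →
    ∃ K : ℕ, ∀ θ : β 1 → ℝ, NR K θ → ∃ ρ : ℝ, 0 < ρ ∧ ∃ L₀ : ℕ, ∀ L : ℕ, L₀ ≤ L →
      ∀ g x : G, (∀ j, |π 1 g j - θ j| < ρ) →
        ‖∑ l ∈ Icc 1 L, F (g ^ l * x)‖ ≤ ε * L

end Pool.Agent.Lib.MP_663568_nt.T3
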