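import Mathlib
import Pool.Agent.Lib.MP_663568_t3.TDefs

/-!
# Lifting of coordinates
-/

set_option autoImplicit false
open Finset

namespace Pool.Agent.Lib.MP_663568_nt.T3

open Katai Tw Fib

/-- the product of the `e j (v j)` -/
noncomputable def up {G : Type} [Group G] {β : Type} [Fintype β] (e : β → ℝ → G) (v : β → ℝ) : G :=
  ((univ : Finset β).toList.map fun j => e j (v j)).prod

variable {G : Type} [Group G] [TopologicalSpace G] {A : ℕ → Subgroup G} {Γ : Subgroup G}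
  {β : ℕ → Type} [∀ s, Fintype (β s)] [∀ s, DecidableEq (β s)]
  {π : (s : ℕ) → G → β s → ℝ} {e : (s : ℕ) → β s → ℝ → G}

theorem oneP_zero {f : ℝ → G} (h : IsOneP f) : f 0 = 1 := by
  have h1 := h.2 0 0
  rw [add_zero] at h1
  exact (mul_eq_left.1 h1.symm)

theorem oneP_nat {f : ℝ → G} (h : IsOneP f) (n : ℕ) : f n = f 1 ^ n := by
  induction n with
  | zero => rw [Nat.cast_zero, oneP_zero h, pow_zero]
  | succ n ih => rw [Nat.cast_succ, h.2, ih, pow_succ]

theorem oneP_neg {f : ℝ → G} (h : IsOneP f) (r : ℝ) : f (-r) = (f r)⁻¹ := by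
  have h1 := h.2 (-r) r
  rw [neg_add_cancel, oneP_zero h] at h1
  exact eq_inv_of_mul_eq_one_left h1.symm

theorem oneP_int {f : ℝ → G} (h : IsOneP f) (z : ℤ) : f z = f 1 ^ z := by
  obtain ⟨n, rfl | rfl⟩ := z.eq_nat_or_neg
  · rw [Int.cast_natCast, oneP_nat h, zpow_natCast]
  · rw [Int.cast_neg, Int.cast_natCast, oneP_neg h, oneP_nat h, zpow_neg, zpow_natCast]

theorem pi_one (hN : NS A Γ π e) {s : ℕ} (hs : 1 ≤ s) : π s 1 = 0 :=
  (hN.pi_ker s hs 1 (A s).one_mem).2 (A (s + 1)).one_mem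

theorem pi_list (hN : NS A Γ π e) {s : ℕ} (hs : 1 ≤ s) (v : β s → ℝ) (l : List (β s)) :
    (l.map fun j => e s j (v j)).prod ∈ A s ∧
      π s (l.map fun j => e s j (v j)).prod = (l.map fun j => Pi.single j (v j)).sum := by
  induction l with
  | nil => exact ⟨(A s).one_mem, pi_one hN hs⟩
  | cons a l ih =>
    have h1 := (hN.e_onep s hs a).2.2 (v a)
    rw [List.map_cons, List.prod_cons, List.map_cons, List.sum_cons]
    refine ⟨(A s).mul_mem h1 ih.1, ?_⟩
    rw [hN.pi_mul s hs _ h1 _ ih.1, ih.2, hN.e_pi s hs]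

/-- **Task L.** -/
theorem up_mem (hN : NS A Γ π e) {s : ℕ} (hs : 1 ≤ s) (v : β s → ℝ) : up (e s) v ∈ A s :=
  (pi_list hN hs v _).1

theorem up_pi (hN : NS A Γ π e) {s : ℕ} (hs : 1 ≤ s) (v : β s → ℝ) : π s (up (e s) v) = v := by
  have h := (pi_list hN hs v (univ : Finset (β s)).toList).2
  rw [Finset.sum_map_toList, Finset.univ_sum_single] at h
  exact h

theorem up_int (hN : NS A Γ π e) {s : ℕ} (hs : 1 ≤ s) (v : β s → ℝ)
    (hv : ∀ j, ∃ z : ℤ, v j = z) : up (e s) v ∈ Γ := by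
  refine Subgroup.list_prod_mem _ ?_
  intro x hx
  obtain ⟨j, -, rfl⟩ := List.mem_map.1 hx
  obtain ⟨z, hz⟩ := hv j
  rw [hz, oneP_int (hN.e_onep s hs j).1]
  exact Γ.zpow_mem (hN.e_onep s hs j).2.1 z

theorem up_cont [IsTopologicalGroup G] (hN : NS A Γ π e) {s : ℕ} (hs : 1 ≤ s) :
    Continuous (up (e s)) := by
  unfold up
  refine continuous_list_prod _ ?_
  intro j _
  exact (hN.e_onep s hs j).1.1.comp (continuous_apply j)

/-- coordinates of an inverse -/
theorem pi_inv (hN : NS A Γ π e) {s : ℕ} (hs : 1 ≤ s) {x : G} (hx : x ∈ A s) :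
    π s x⁻¹ = - π s x := by
  have h := hN.pi_mul s hs x⁻¹ ((A s).inv_mem hx) x hx
  rw [inv_mul_cancel, pi_one hN hs] at h
  exact eq_neg_of_add_eq_zero_left h.symm

/-- coordinates of a power -/
theorem pi_pow (hN : NS A Γ π e) (x : G) (n : ℕ) : π 1 (x ^ n) = fun j => (n : ℝ) * π 1 x j := by
  have hA : ∀ y : G, y ∈ A 1 := fun y => by rw [hN.A1]; trivial
  induction n with
  | zero =>
    rw [pow_zero, pi_one hN le_rfl]
    funext j
    simp
  | succ n ih =>
    rw [pow_succ, hN.pi_mul 1 le_rfl _ (hA _) _ (hA _), ih]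
    funext j
    rw [Pi.add_apply]
    push_cast
    ring

theorem up_dec (hN : NS A Γ π e) {s : ℕ} (hs : 1 ≤ s) {x : G} (hx : x ∈ A s) :
    ∃ w ∈ A (s + 1), x = up (e s) (π s x) * w := by
  have h1 := up_mem hN hs (π s x)
  refine ⟨(up (e s) (π s x))⁻¹ * x, ?_, by group⟩
  rw [← hN.pi_ker s hs _ ((A s).mul_mem ((A s).inv_mem h1) hx),
    hN.pi_mul s hs _ ((A s).inv_mem h1) _ hx, pi_inv hN hs h1, up_pi hN hs, neg_add_cancel]

/-- generation by the circles -/
theorem gen_of (hN : NS A Γ π e) {s : ℕ} (hs : 1 ≤ s) :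
    A s ≤ Subgroup.closure {x | ∃ j r, x = e s j r} ⊔ A (s + 1) := by
  intro x hx
  obtain ⟨w, hw, h⟩ := up_dec hN hs hx
  rw [h]
  refine Subgroup.mul_mem _ (Subgroup.mem_sup_left ?_) (Subgroup.mem_sup_right hw)
  refine Subgroup.list_prod_mem _ ?_
  intro y hy
  obtain ⟨j, -, rfl⟩ := List.mem_map.1 hy
  exact Subgroup.subset_closure ⟨j, _, rfl⟩

theorem act_list {s : ℕ} {F : G → ℂ}
    (m : β s → ℤ) (hm : ∀ j, Freq (e s j) (m j) F) (v : β s → ℝ) (l : List (β s)) (y : G) :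
    F ((l.map fun j => e s j (v j)).prod * y) =
      ee ((l.map fun j => (m j : ℝ) * v j).sum) * F y := by
  induction l with
  | nil =>
    have h0 : ee 0 = 1 := by simpa using ee_int 0
    simp [h0]
  | cons a l ih =>
    rw [List.map_cons, List.prod_cons, List.map_cons, List.sum_cons, mul_assoc, hm a, ih, ee_add]
    ring

/-- `A s` acts on functions of level `s` by a character -/
theorem lev_act (hN : NS A Γ π e) {s : ℕ} (hs : 1 ≤ s) {F : G → ℂ} (hinv : Inv (A (s + 1)) F)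
    (m : β s → ℤ) (hm : ∀ j, Freq (e s j) (m j) F) {x : G} (hx : x ∈ A s) (y : G) :
    F (x * y) = ee (∑ j, (m j : ℝ) * π s x j) * F y := by
  obtain ⟨w, hw, h⟩ := up_dec hN hs hx
  conv_lhs => rw [h]
  have h1 := act_list m hm (π s x) (univ : Finset (β s)).toList (w * y)
  rw [Finset.sum_map_toList] at h1
  rw [mul_assoc]
  exact h1.trans (by rw [hinv w hw])

end Pool.Agent.Lib.MP_663568_nt.T3
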