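import Mathlib
import Pool.Agent.Lib.MP_663568_t3.TLift
import Pool.Agent.Lib.MP_663568_nul.Base

/-!
# Functions of level one
-/

set_option autoImplicit false
open Finset

namespace Pool.Agent.Lib.MP_663568_nt.T3

open Katai Tw Fib Nul

/-- **Task B1.** -/
theorem equi_one : EquiAt 1 := by
  intro G _ _ _ A Γ β _ _ π e hN F hF hgood ε hε
  obtain ⟨hreg, hinv, hfreq⟩ := hF
  obtain ⟨j₀, m₀, hm₀, hfr₀⟩ := hgood
  choose m' hm' using hfreq
  let m : β 1 → ℤ := Function.update m' j₀ m₀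
  have hm : ∀ j, Freq (e 1 j) (m j) F := by
    intro j
    by_cases hj : j = j₀
    · subst hj
      simp only [m, Function.update_self]
      exact hfr₀
    · simp only [m, Function.update_of_ne hj]
      exact hm' j
  have hm0 : m ≠ 0 := by
    intro h
    have : m j₀ = 0 := by rw [h]; rfl
    simp only [m, Function.update_self] at this
    exact hm₀ this
  have hco : Cocompact' Γ := by
    obtain ⟨C, hC, _, h2⟩ := hN.coc 0
    refine ⟨C, hC, fun x => h2 x ?_⟩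
    rw [hN.A0]
    exact Subgroup.mem_top x
  obtain ⟨B, hB0, hB⟩ := reg_bdd hco hreg
  obtain ⟨K, hK⟩ : ∃ K : ℕ, ∀ j, |m j| ≤ (K : ℤ) := by
    refine ⟨∑ j, (m j).natAbs, fun j => ?_⟩
    rw [Int.abs_eq_natAbs]
    exact_mod_cast Finset.single_le_sum (f := fun j => (m j).natAbs) (fun _ _ => Nat.zero_le _)
      (mem_univ j)
  refine ⟨K, fun θ hθ => ?_⟩
  set τ₀ : ℝ := ∑ j, (m j : ℝ) * θ j with hτ₀
  have hnd : 0 < nd τ₀ := by
    obtain ⟨z, hz⟩ := nd_exists τ₀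
    rw [hz, abs_pos, sub_ne_zero]
    exact hθ m hm0 hK z
  set S : ℝ := ∑ j, |(m j : ℝ)| + 1 with hS
  have hS0 : 0 < S := by
    have : 0 ≤ ∑ j, |(m j : ℝ)| := Finset.sum_nonneg fun _ _ => abs_nonneg _
    linarith
  refine ⟨nd τ₀ / (2 * S), by positivity, ?_⟩
  obtain ⟨L₀, hL₀⟩ := exists_nat_gt (B / (nd τ₀ * ε))
  refine ⟨L₀, fun L hL g x hg => ?_⟩
  set τ : ℝ := ∑ j, (m j : ℝ) * π 1 g j with hτ
  have hτd : |τ - τ₀| ≤ nd τ₀ / 2 := by
    have h1 : τ - τ₀ = ∑ j, (m j : ℝ) * (π 1 g j - θ j) := by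
      rw [hτ, hτ₀, ← Finset.sum_sub_distrib]
      exact Finset.sum_congr rfl fun j _ => by ring
    rw [h1]
    calc |∑ j, (m j : ℝ) * (π 1 g j - θ j)| ≤ ∑ j, |(m j : ℝ) * (π 1 g j - θ j)| :=
          abs_sum_le_sum_abs _ _
      _ ≤ ∑ j, |(m j : ℝ)| * (nd τ₀ / (2 * S)) := by
          refine Finset.sum_le_sum fun j _ => ?_
          rw [abs_mul]
          exact mul_le_mul_of_nonneg_left (hg j).le (abs_nonneg _)
      _ = (∑ j, |(m j : ℝ)|) * (nd τ₀ / (2 * S)) := by rw [Finset.sum_mul]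
      _ ≤ S * (nd τ₀ / (2 * S)) := by
          refine mul_le_mul_of_nonneg_right ?_ (by positivity)
          rw [hS]; linarith
      _ = nd τ₀ / 2 := by field_simp
  have hndτ : nd τ₀ / 2 ≤ nd τ := by
    have h1 := nd_le_add_abs τ₀ τ
    rw [abs_sub_comm] at h1
    linarith
  have hF1 : ∀ l : ℕ, F (g ^ l * x) = ee (τ * l + 0) * F x := by
    intro l
    have hgl : g ^ l ∈ A 1 := by rw [hN.A1]; exact Subgroup.mem_top _
    rw [lev_act hN le_rfl hinv m hm hgl x, pi_pow hN]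
    congr 2
    rw [hτ, add_zero, Finset.sum_mul]
    exact Finset.sum_congr rfl fun j _ => by ring
  have hsum : ∑ l ∈ Icc 1 L, F (g ^ l * x) = (∑ l ∈ Icc 1 L, ee (τ * l + 0)) * F x := by
    rw [Finset.sum_mul]
    exact Finset.sum_congr rfl fun l _ => hF1 l
  have hgeo := geom_bound τ 0 L
  have h4 := nd_le_norm_one_sub_ee τ
  have hN1 : nd τ₀ * ‖∑ l ∈ Icc 1 L, ee (τ * l + 0)‖ ≤ 1 := by
    have h5 : 2 * nd τ₀ ≤ ‖1 - ee τ‖ := by linarith
    have h6 : 2 * nd τ₀ * ‖∑ l ∈ Icc 1 L, ee (τ * l + 0)‖ ≤ 2 :=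
      (mul_le_mul_of_nonneg_right h5 (norm_nonneg _)).trans hgeo
    linarith
  rw [hsum, norm_mul]
  have hLr : (L₀ : ℝ) ≤ L := by exact_mod_cast hL
  have h7 : B < nd τ₀ * ε * L := by
    have h8 : B / (nd τ₀ * ε) < L := hL₀.trans_le hLr
    rw [div_lt_iff₀ (by positivity)] at h8
    linarith
  have h9 : ‖∑ l ∈ Icc 1 L, ee (τ * l + 0)‖ ≤ 1 / nd τ₀ := by
    rw [le_div_iff₀ hnd]
    linarith
  calc ‖∑ l ∈ Icc 1 L, ee (τ * l + 0)‖ * ‖F x‖ ≤ 1 / nd τ₀ * B :=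
        mul_le_mul h9 (hB x) (norm_nonneg _) (by positivity)
    _ ≤ ε * L := by
        rw [one_div, inv_mul_le_iff₀ hnd]
        linarith

end Pool.Agent.Lib.MP_663568_nt.T3
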