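import Mathlib
import Pool.Agent.Lib.MP_663568_t3.TLift

/-!
# The commutator form
-/

set_option autoImplicit false
open Finset

namespace Pool.Agent.Lib.MP_663568_nt.T3

open Katai Tw Fib

/-- An additive function of a product. -/
lemma list_prod_add {G V : Type} [Group G] [AddCommGroup V] (f : G → V)
    (hf : ∀ x y, f (x * y) = f x + f y) (l : List G) : f l.prod = (l.map f).sum := by
  have h1 : f 1 = 0 := by
    have := hf 1 1
    rw [mul_one] at this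
    exact left_eq_add.1 this
  induction l with
  | nil => simpa using h1
  | cons a l ih => rw [List.prod_cons, hf, ih, List.map_cons, List.sum_cons]

lemma up_add {G V : Type} [Group G] [AddCommGroup V] (f : G → V)
    (hf : ∀ x y, f (x * y) = f x + f y) {β : Type} [Fintype β] (e : β → ℝ → G) (v : β → ℝ) :
    f (up e v) = ∑ j, f (e j (v j)) := by
  unfold up
  rw [list_prod_add f hf, List.map_map]
  exact Finset.sum_map_toList univ fun j => f (e j (v j))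

variable {G : Type} [Group G] [TopologicalSpace G] [IsTopologicalGroup G] {A : ℕ → Subgroup G}
  {Γ : Subgroup G}
  {β : ℕ → Type} [∀ s, Fintype (β s)] [∀ s, DecidableEq (β s)]
  {π : (s : ℕ) → G → β s → ℝ} {e : (s : ℕ) → β s → ℝ → G}

omit [IsTopologicalGroup G] in
lemma cm_mem (hN : NS A Γ π e) (x y : G) : x * y * x⁻¹ * y⁻¹ ∈ A 2 := by
  have h := hN.comm 1 1
  rw [hN.A1] at h
  exact h (Subgroup.commutator_mem_commutator (Subgroup.mem_top x) (Subgroup.mem_top y))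

omit [IsTopologicalGroup G] in
lemma cm_mem3 (hN : NS A Γ π e) (x : G) {z : G} (hz : z ∈ A 2) : x * z * x⁻¹ * z⁻¹ ∈ A 3 := by
  have h := hN.comm 1 2
  rw [hN.A1] at h
  exact h (Subgroup.commutator_mem_commutator (Subgroup.mem_top x) hz)

omit [IsTopologicalGroup G] in
lemma A3_le (hN : NS A Γ π e) : A 3 ≤ A 2 := hN.anti (by norm_num)

omit [IsTopologicalGroup G] in
lemma pi2_conj (hN : NS A Γ π e) (x : G) {z : G} (hz : z ∈ A 2) :
    π 2 (x * z * x⁻¹) = π 2 z := by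
  have h1 := cm_mem3 hN x hz
  have h2 : x * z * x⁻¹ = (x * z * x⁻¹ * z⁻¹) * z := by group
  rw [h2, hN.pi_mul 2 (by norm_num) _ (A3_le hN h1) _ hz,
    (hN.pi_ker 2 (by norm_num) _ (A3_le hN h1)).2 h1, zero_add]

omit [IsTopologicalGroup G] in
lemma cm_left (hN : NS A Γ π e) (x x' y : G) :
    π 2 ((x * x') * y * (x * x')⁻¹ * y⁻¹) =
      π 2 (x * y * x⁻¹ * y⁻¹) + π 2 (x' * y * x'⁻¹ * y⁻¹) := by
  have h2 : (x * x') * y * (x * x')⁻¹ * y⁻¹ =
      (x * (x' * y * x'⁻¹ * y⁻¹) * x⁻¹) * (x * y * x⁻¹ * y⁻¹) := by group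
  have h3 : x * (x' * y * x'⁻¹ * y⁻¹) * x⁻¹ ∈ A 2 := by
    have h4 := A3_le hN (cm_mem3 hN x (cm_mem hN x' y))
    have h5 := (A 2).mul_mem h4 (cm_mem hN x' y)
    have h6 : x * (x' * y * x'⁻¹ * y⁻¹) * x⁻¹ = (x * (x' * y * x'⁻¹ * y⁻¹) * x⁻¹ *
      (x' * y * x'⁻¹ * y⁻¹)⁻¹) * (x' * y * x'⁻¹ * y⁻¹) := by group
    rw [h6]
    exact h5
  rw [h2, hN.pi_mul 2 (by norm_num) _ h3 _ (cm_mem hN x y), pi2_conj hN x (cm_mem hN x' y),
    add_comm]

omit [IsTopologicalGroup G] in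
lemma cm_right (hN : NS A Γ π e) (x y y' : G) :
    π 2 (x * (y * y') * x⁻¹ * (y * y')⁻¹) =
      π 2 (x * y * x⁻¹ * y⁻¹) + π 2 (x * y' * x⁻¹ * y'⁻¹) := by
  have h2 : x * (y * y') * x⁻¹ * (y * y')⁻¹ =
      (x * y * x⁻¹ * y⁻¹) * (y * (x * y' * x⁻¹ * y'⁻¹) * y⁻¹) := by group
  have h3 : y * (x * y' * x⁻¹ * y'⁻¹) * y⁻¹ ∈ A 2 := by
    have h4 := A3_le hN (cm_mem3 hN y (cm_mem hN x y'))
    have h5 := (A 2).mul_mem h4 (cm_mem hN x y')
    have h6 : y * (x * y' * x⁻¹ * y'⁻¹) * y⁻¹ = (y * (x * y' * x⁻¹ * y'⁻¹) * y⁻¹ *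
      (x * y' * x⁻¹ * y'⁻¹)⁻¹) * (x * y' * x⁻¹ * y'⁻¹) := by group
    rw [h6]
    exact h5
  rw [h2, hN.pi_mul 2 (by norm_num) _ (cm_mem hN x y) _ h3, pi2_conj hN y (cm_mem hN x y')]

omit [IsTopologicalGroup G] in
lemma cm_zero_left (hN : NS A Γ π e) {x : G} (hx : x ∈ A 2) (y : G) :
    π 2 (x * y * x⁻¹ * y⁻¹) = 0 := by
  have h1 : x * y * x⁻¹ * y⁻¹ ∈ A 3 := by
    have h := (A 3).inv_mem (cm_mem3 hN y hx)
    have h2 : (y * x * y⁻¹ * x⁻¹)⁻¹ = x * y * x⁻¹ * y⁻¹ := by group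
    rwa [h2] at h
  exact (hN.pi_ker 2 (by norm_num) _ (A3_le hN h1)).2 h1

omit [IsTopologicalGroup G] in
lemma cm_zero_right (hN : NS A Γ π e) (x : G) {y : G} (hy : y ∈ A 2) :
    π 2 (x * y * x⁻¹ * y⁻¹) = 0 := by
  have h1 := cm_mem3 hN x hy
  exact (hN.pi_ker 2 (by norm_num) _ (A3_le hN h1)).2 h1

/-- A continuous additive function on the line is linear. -/
lemma add_lin (f : ℝ → ℝ) (hf : Continuous f) (hadd : ∀ a b, f (a + b) = f a + f b) (r : ℝ) :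
    f r = r * f 1 := by
  have h0 : f 0 = 0 := by
    have := hadd 0 0
    rw [add_zero] at this
    exact left_eq_add.1 this
  let g : ℝ →+ ℝ := { toFun := f, map_zero' := h0, map_add' := hadd }
  have h := map_real_smul g hf r 1
  rw [smul_eq_mul, mul_one, smul_eq_mul] at h
  exact h

lemma cm_circ (hN : NS A Γ π e) (j i : β 1) (k : β 2) (r r' : ℝ) :
    π 2 (e 1 j r * e 1 i r' * (e 1 j r)⁻¹ * (e 1 i r')⁻¹) k =
      r * r' * π 2 (e 1 j 1 * e 1 i 1 * (e 1 j 1)⁻¹ * (e 1 i 1)⁻¹) k := by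
  obtain ⟨⟨hjc, hja⟩, _, _⟩ := hN.e_onep 1 le_rfl j
  obtain ⟨⟨hic, hia⟩, _, _⟩ := hN.e_onep 1 le_rfl i
  have hcont : ∀ u : ℝ → G, (∀ r, u r ∈ A 2) → Continuous u →
      Continuous (fun r => π 2 (u r) k) := by
    intro u hu huc
    exact (continuous_apply k).comp ((hN.pi_cont 2 (by norm_num)).comp_continuous huc hu)
  have h1 : π 2 (e 1 j r * e 1 i r' * (e 1 j r)⁻¹ * (e 1 i r')⁻¹) k =
      r * π 2 (e 1 j 1 * e 1 i r' * (e 1 j 1)⁻¹ * (e 1 i r')⁻¹) k := by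
    refine add_lin (fun r => π 2 (e 1 j r * e 1 i r' * (e 1 j r)⁻¹ * (e 1 i r')⁻¹) k) ?_ ?_ r
    · exact hcont (fun r => e 1 j r * e 1 i r' * (e 1 j r)⁻¹ * (e 1 i r')⁻¹)
        (fun r => cm_mem hN _ _) (by fun_prop)
    · intro a b
      simp only [hja a b]
      exact congrFun (cm_left hN (e 1 j a) (e 1 j b) (e 1 i r')) k
  have h2 : π 2 (e 1 j 1 * e 1 i r' * (e 1 j 1)⁻¹ * (e 1 i r')⁻¹) k =
      r' * π 2 (e 1 j 1 * e 1 i 1 * (e 1 j 1)⁻¹ * (e 1 i 1)⁻¹) k := by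
    refine add_lin (fun r' => π 2 (e 1 j 1 * e 1 i r' * (e 1 j 1)⁻¹ * (e 1 i r')⁻¹) k) ?_ ?_ r'
    · exact hcont (fun r' => e 1 j 1 * e 1 i r' * (e 1 j 1)⁻¹ * (e 1 i r')⁻¹)
        (fun r => cm_mem hN _ _) (by fun_prop)
    · intro a b
      simp only [hia a b]
      exact congrFun (cm_right hN (e 1 j 1) (e 1 i a) (e 1 i b)) k
  rw [h1, h2]
  ring

/-- **Task G1.** -/
theorem comm_form (hN : NS A Γ π e) : ∃ b : β 2 → β 1 → β 1 → ℤ,
    (∀ x y k, π 2 (x * y * x⁻¹ * y⁻¹) k = ∑ j, ∑ i, (b k j i : ℝ) * π 1 x j * π 1 y i) ∧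
    ∀ w : β 2 → ℤ, w ≠ 0 → ∃ j i, ∑ k, w k * b k j i ≠ 0 := by
  have hint : ∀ (k : β 2) (j i : β 1), ∃ z : ℤ,
      π 2 (e 1 j 1 * e 1 i 1 * (e 1 j 1)⁻¹ * (e 1 i 1)⁻¹) k = z := by
    intro k j i
    obtain ⟨_, hj, _⟩ := hN.e_onep 1 le_rfl j
    obtain ⟨_, hi, _⟩ := hN.e_onep 1 le_rfl i
    exact hN.pi_int 2 (by norm_num) _ (Γ.mul_mem (Γ.mul_mem (Γ.mul_mem hj hi) (Γ.inv_mem hj))
      (Γ.inv_mem hi)) (cm_mem hN _ _) k
  choose b hb using hint
  have hform : ∀ x y k, π 2 (x * y * x⁻¹ * y⁻¹) k =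
      ∑ j, ∑ i, (b k j i : ℝ) * π 1 x j * π 1 y i := by
    intro x y k
    have hx : x ∈ A 1 := by rw [hN.A1]; exact Subgroup.mem_top x
    have hy : y ∈ A 1 := by rw [hN.A1]; exact Subgroup.mem_top y
    obtain ⟨w, hw, hxw⟩ := up_dec hN le_rfl hx
    obtain ⟨w', hw', hyw⟩ := up_dec hN le_rfl hy
    have h1 : π 2 (x * y * x⁻¹ * y⁻¹) =
        ∑ j, π 2 (e 1 j (π 1 x j) * y * (e 1 j (π 1 x j))⁻¹ * y⁻¹) := by
      conv_lhs => rw [hxw]
      rw [cm_left hN, cm_zero_left hN hw, add_zero]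
      exact up_add (fun x => π 2 (x * y * x⁻¹ * y⁻¹)) (fun a b => cm_left hN a b y) (e 1) (π 1 x)
    have h2 : ∀ z : G, π 2 (z * y * z⁻¹ * y⁻¹) =
        ∑ i, π 2 (z * e 1 i (π 1 y i) * z⁻¹ * (e 1 i (π 1 y i))⁻¹) := by
      intro z
      conv_lhs => rw [hyw]
      rw [cm_right hN, cm_zero_right hN z hw', add_zero]
      exact up_add (fun y => π 2 (z * y * z⁻¹ * y⁻¹)) (fun a b => cm_right hN z a b) (e 1) (π 1 y)
    rw [h1, Finset.sum_apply]
    refine Finset.sum_congr rfl fun j _ => ?_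
    rw [h2, Finset.sum_apply]
    refine Finset.sum_congr rfl fun i _ => ?_
    rw [cm_circ hN, hb]
    ring
  refine ⟨b, hform, ?_⟩
  intro w hw
  by_contra hcon
  push Not at hcon
  obtain ⟨κ, hκ⟩ : ∃ κ, w κ ≠ 0 := by
    by_contra h
    push Not at h
    exact hw (funext h)
  let H : Subgroup G :=
    { carrier := {x | x ∈ A 2 ∧ ∑ k, (w k : ℝ) * π 2 x k = 0}
      mul_mem' := by
        rintro x y ⟨hx, hx'⟩ ⟨hy, hy'⟩
        refine ⟨(A 2).mul_mem hx hy, ?_⟩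
        rw [hN.pi_mul 2 (by norm_num) x hx y hy]
        simp only [Pi.add_apply, mul_add, Finset.sum_add_distrib, hx', hy', add_zero]
      one_mem' := by
        refine ⟨(A 2).one_mem, ?_⟩
        rw [(hN.pi_ker 2 (by norm_num) 1 (A 2).one_mem).2 (A 3).one_mem]
        simp
      inv_mem' := by
        rintro x ⟨hx, hx'⟩
        refine ⟨(A 2).inv_mem hx, ?_⟩
        rw [pi_inv hN (by norm_num) hx]
        simp only [Pi.neg_apply, mul_neg, Finset.sum_neg_distrib, hx', neg_zero] }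
  have hle : ⁅(⊤ : Subgroup G), A 1⁆ ≤ H := by
    rw [Subgroup.commutator_le]
    intro x _ y _
    refine ⟨cm_mem hN x y, ?_⟩
    rw [commutatorElement_def]
    simp only [hform x y]
    calc ∑ k, (w k : ℝ) * ∑ j, ∑ i, (b k j i : ℝ) * π 1 x j * π 1 y i
        = ∑ j, ∑ i, ((∑ k, w k * b k j i : ℤ) : ℝ) * (π 1 x j * π 1 y i) := by
          simp only [Finset.mul_sum]
          rw [Finset.sum_comm]
          refine Finset.sum_congr rfl fun j _ => ?_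
          rw [Finset.sum_comm]
          refine Finset.sum_congr rfl fun i _ => ?_
          push_cast
          rw [Finset.sum_mul]
          exact Finset.sum_congr rfl fun k _ => by ring
      _ = 0 := by
          refine Finset.sum_eq_zero fun j _ => Finset.sum_eq_zero fun i _ => ?_
          rw [hcon j i]
          simp
  have hmem : e 2 κ 1 ∈ A 2 := (hN.e_onep 2 (by norm_num) κ).2.2 1
  have h3 : e 2 κ 1 ∈ H := hle (hN.low 1 le_rfl hmem)
  have h4 := h3.2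
  rw [hN.e_pi 2 (by norm_num)] at h4
  rw [Finset.sum_eq_single κ] at h4
  · rw [Pi.single_eq_same, mul_one] at h4
    exact hκ (by exact_mod_cast h4)
  · intro k _ hk
    rw [Pi.single_eq_of_ne hk, mul_zero]
  · intro h
    exact absurd (mem_univ κ) h

end Pool.Agent.Lib.MP_663568_nt.T3
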