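import Mathlib
import Pool.Agent.Lib.MP_663568_t3.TDefs
import Pool.Agent.Lib.MP_663568_nul.FrostAux

/-!
# Visits of an orbit on the torus to a small cube
-/

set_option autoImplicit false
open Finset

namespace Pool.Agent.Lib.MP_663568_nt.T3

open Katai Nul

/-- The product of the majorants is a square of one exponential sum. -/
lemma prod_majorant {β : Type} [Fintype β] [DecidableEq β] (K : ℕ) (x : β → ℝ) :
    ∏ j : β, ‖∑ i ∈ range K, ee ((i : ℝ) * x j)‖ =
      ‖∑ f ∈ Fintype.piFinset (fun _ : β => range K), ee (∑ j, (f j : ℝ) * x j)‖ := by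
  rw [← norm_prod, Finset.prod_univ_sum]
  congr 1
  refine sum_congr rfl fun f _ => ?_
  have h : ∀ s : Finset β, ∏ j ∈ s, ee ((f j : ℝ) * x j) = ee (∑ j ∈ s, (f j : ℝ) * x j) := by
    intro s
    induction s using Finset.induction_on with
    | empty =>
      rw [prod_empty, sum_empty]
      have := ee_int 0
      simpa using this.symm
    | insert a s ha ih => rw [prod_insert ha, sum_insert ha, ee_add, ih]
  exact h univ

open Classical in
/-- **Task V1.** The number of visits of `(r θ)` to a cube of side `1 / (4 K)`. -/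
theorem visits {β : Type} [Fintype β] (K : ℕ) (hK : 0 < K) (θ : β → ℝ) (h : NR K θ)
    (δ : ℝ) (hδ : 0 < δ) : ∃ R₀ : ℕ, ∀ R : ℕ, R₀ ≤ R → ∀ a : β → ℝ,
      (((Icc 1 R).filter (fun r : ℕ => ∀ j, nd ((r : ℝ) * θ j - a j) ≤ 1 / (8 * K))).card : ℝ) ≤
        ((4 / (K : ℝ)) ^ (Fintype.card β) + δ) * R := by
  have hKr : (0 : ℝ) < K := by exact_mod_cast hK
  set d := Fintype.card β with hd
  set P : Finset (β → ℕ) := Fintype.piFinset (fun _ : β => range K) with hP
  have hPcard : (P.card : ℝ) = (K : ℝ) ^ d := by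
    rw [hP, Fintype.card_piFinset]
    simp [hd]
  -- the constant
  set α : (β → ℕ) → (β → ℕ) → ℝ := fun f g => ∑ j, ((f j : ℝ) - g j) * θ j with hα
  set E : ℝ := ∑ f ∈ P, ∑ g ∈ P, 2 / ‖1 - ee (α f g)‖ with hE
  have hE0 : 0 ≤ E := sum_nonneg fun f _ => sum_nonneg fun g _ => by positivity
  set c : ℝ := (4 / (K : ℝ) ^ 2) ^ d with hc
  have hc0 : 0 < c := by positivity
  refine ⟨⌈c * E / δ⌉₊, fun R hR a => ?_⟩
  have hRr : c * E ≤ δ * R := by
    have h1 : c * E / δ ≤ R := (Nat.le_ceil _).trans (by exact_mod_cast hR)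
    rw [div_le_iff₀ hδ] at h1
    linarith
  set χ : (β → ℕ) → ℕ → ℂ := fun f r => ee (∑ j, (f j : ℝ) * ((r : ℝ) * θ j - a j)) with hχ
  -- the majorant
  have hmaj : (((Icc 1 R).filter (fun r : ℕ =>
      ∀ j, nd ((r : ℝ) * θ j - a j) ≤ 1 / (8 * K))).card : ℝ) ≤
      ∑ r ∈ Icc 1 R, c * ‖∑ f ∈ P, χ f r‖ ^ 2 := by
    rw [card_eq_sum_ones, Nat.cast_sum, sum_filter]
    refine sum_le_sum fun r _ => ?_
    split_ifs with hr
    · have h1 : ∀ j, 1 ≤ 4 / (K : ℝ) ^ 2 *
          ‖∑ i ∈ range K, ee ((i : ℝ) * ((r : ℝ) * θ j - a j))‖ ^ 2 := fun j =>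
        FrostAux.majorant hK (by field_simp; norm_num) (hr j)
      have h2 : (1 : ℝ) ≤ ∏ j : β, (4 / (K : ℝ) ^ 2 *
          ‖∑ i ∈ range K, ee ((i : ℝ) * ((r : ℝ) * θ j - a j))‖ ^ 2) := by
        calc (1 : ℝ) = ∏ j : β, (1 : ℝ) := by simp
          _ ≤ _ := prod_le_prod (fun _ _ => zero_le_one) (fun j _ => h1 j)
      rw [prod_mul_distrib, prod_const, card_univ, prod_pow, prod_majorant] at h2
      push_cast
      exact h2
    · push_cast
      positivity
  refine hmaj.trans ?_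
  -- the expansion
  have hpair : ∀ f ∈ P, ∀ g ∈ P, ‖∑ r ∈ Icc 1 R, χ f r * (starRingEnd ℂ) (χ g r)‖ ≤
      (if f = g then (R : ℝ) else 0) + 2 / ‖1 - ee (α f g)‖ := by
    intro f hf g hg
    by_cases hfg : f = g
    · subst hfg
      rw [if_pos rfl]
      have h1 : ‖∑ r ∈ Icc 1 R, χ f r * (starRingEnd ℂ) (χ f r)‖ ≤ R := by
        refine (norm_sum_le _ _).trans ?_
        calc ∑ r ∈ Icc 1 R, ‖χ f r * (starRingEnd ℂ) (χ f r)‖ = ∑ r ∈ Icc 1 R, (1 : ℝ) := by
              refine sum_congr rfl fun r _ => ?_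
              rw [norm_mul, RCLike.norm_conj, hχ]
              simp only [norm_ee, mul_one]
          _ ≤ R := by simp
      have h2 : 0 ≤ 2 / ‖1 - ee (α f f)‖ := by positivity
      linarith
    · rw [if_neg hfg, zero_add]
      have hne : ee (α f g) ≠ 1 := by
        intro h1
        obtain ⟨z, hz⟩ := (ee_eq_one_iff _).1 h1
        refine h (fun j => (f j : ℤ) - g j) ?_ ?_ z ?_
        · intro h2
          apply hfg
          funext j
          have h3 := congrFun h2 j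
          simp only [Pi.zero_apply] at h3
          omega
        · intro j
          have h3 := Fintype.mem_piFinset.1 hf j
          have h4 := Fintype.mem_piFinset.1 hg j
          rw [mem_range] at h3 h4
          rw [abs_le]
          constructor <;> omega
        · rw [← hz, hα]
          push_cast
          rfl
      have hpos : 0 < ‖1 - ee (α f g)‖ := by
        rw [norm_pos_iff, sub_ne_zero]
        exact fun h1 => hne h1.symm
      have h2 := geom_bound (α f g) (-∑ j, ((f j : ℝ) - g j) * a j) R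
      rw [le_div_iff₀ hpos, mul_comm]
      refine le_trans (le_of_eq ?_) h2
      congr 2
      refine sum_congr rfl fun r _ => ?_
      rw [hχ]
      simp only
      rw [← ee_sub]
      congr 1
      rw [hα, ← sum_sub_distrib]
      simp only [sum_mul]
      rw [← sub_eq_add_neg, ← sum_sub_distrib]
      refine sum_congr rfl fun j _ => ?_
      ring
  have hsum : ∑ r ∈ Icc 1 R, ‖∑ f ∈ P, χ f r‖ ^ 2 ≤ (K : ℝ) ^ d * R + E := by
    have h1 : ((∑ r ∈ Icc 1 R, ‖∑ f ∈ P, χ f r‖ ^ 2 : ℝ) : ℂ) =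
        ∑ f ∈ P, ∑ g ∈ P, ∑ r ∈ Icc 1 R, χ f r * (starRingEnd ℂ) (χ g r) := by
      push_cast
      calc ∑ r ∈ Icc 1 R, ((‖∑ f ∈ P, χ f r‖ : ℝ) : ℂ) ^ 2
          = ∑ r ∈ Icc 1 R, ∑ f ∈ P, ∑ g ∈ P, χ f r * (starRingEnd ℂ) (χ g r) := by
            refine sum_congr rfl fun r _ => ?_
            rw [← Complex.mul_conj', map_sum, sum_mul_sum]
        _ = _ := by
            rw [sum_comm]
            refine sum_congr rfl fun f _ => ?_
            rw [sum_comm]
    have h0 : 0 ≤ ∑ r ∈ Icc 1 R, ‖∑ f ∈ P, χ f r‖ ^ 2 := sum_nonneg fun _ _ => by positivity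
    calc ∑ r ∈ Icc 1 R, ‖∑ f ∈ P, χ f r‖ ^ 2
        = ‖((∑ r ∈ Icc 1 R, ‖∑ f ∈ P, χ f r‖ ^ 2 : ℝ) : ℂ)‖ := by
          rw [Complex.norm_real, Real.norm_eq_abs, abs_of_nonneg h0]
      _ ≤ ∑ f ∈ P, ∑ g ∈ P, ‖∑ r ∈ Icc 1 R, χ f r * (starRingEnd ℂ) (χ g r)‖ := by
          rw [h1]
          exact (norm_sum_le _ _).trans (sum_le_sum fun f _ => norm_sum_le _ _)
      _ ≤ ∑ f ∈ P, ∑ g ∈ P, ((if f = g then (R : ℝ) else 0) + 2 / ‖1 - ee (α f g)‖) :=
          sum_le_sum fun f hf => sum_le_sum fun g hg => hpair f hf g hg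
      _ = (K : ℝ) ^ d * R + E := by
          simp only [sum_add_distrib]
          congr 1
          rw [← hPcard]
          have h2 : ∀ f ∈ P, ∑ g ∈ P, (if f = g then (R : ℝ) else 0) = R := by
            intro f hf
            rw [sum_ite_eq, if_pos hf]
          rw [sum_congr rfl h2]
          simp
  calc ∑ r ∈ Icc 1 R, c * ‖∑ f ∈ P, χ f r‖ ^ 2
      = c * ∑ r ∈ Icc 1 R, ‖∑ f ∈ P, χ f r‖ ^ 2 := by rw [mul_sum]
    _ ≤ c * ((K : ℝ) ^ d * R + E) := by gcongr
    _ = (4 / (K : ℝ)) ^ d * R + c * E := by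
        have h1 : c * (K : ℝ) ^ d = (4 / (K : ℝ)) ^ d := by
          rw [hc, ← mul_pow]
          congr 1
          field_simp
        rw [mul_add, ← mul_assoc, h1]
    _ ≤ ((4 / (K : ℝ)) ^ d + δ) * R := by
        rw [add_mul]
        linarith

end Pool.Agent.Lib.MP_663568_nt.T3
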