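import Mathlib
import Pool.Agent.Lib.MP_663568_t3.TVisit

/-!
# Visits of an orbit on the torus to hyperplanes
-/

set_option autoImplicit false
open Finset

namespace Pool.Agent.Lib.MP_663568_nt.T3

open Katai Nul

/-- If `n * x` has integer part `a`, then `x` is within `1 / n` of `a / n`. -/
lemma floor_close {n : ℕ} (hn : 0 < n) (x : ℝ) : |x - (⌊(n : ℝ) * x⌋ : ℝ) / n| ≤ 1 / n := by
  have hn' : (0 : ℝ) < n := by exact_mod_cast hn
  have h1 := Int.floor_le ((n : ℝ) * x)
  have h2 := Int.lt_floor_add_one ((n : ℝ) * x)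
  have h3 : x - (⌊(n : ℝ) * x⌋ : ℝ) / n = ((n : ℝ) * x - ⌊(n : ℝ) * x⌋) / n := by
    rw [sub_div, mul_div_cancel_left₀ _ hn'.ne']
  rw [h3, abs_div, abs_of_pos hn']
  refine div_le_div_of_nonneg_right ?_ hn'.le
  rw [abs_of_nonneg (by linarith)]
  linarith

open Classical in
/-- **Task V2.** The fractional parts of `s θ` are rarely on one of the parallel hyperplanes
`c + v · y ∈ ℤ`. -/
theorem hyper {β : Type} [Fintype β] (V : ℝ) (hV : 0 ≤ V) (δ : ℝ) (hδ : 0 < δ) :
    ∃ K : ℕ, ∀ θ : β → ℝ, NR K θ → ∃ R₀ : ℕ, ∀ R : ℕ, R₀ ≤ R → ∀ (c : ℝ) (v : β → ℝ),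
      (∀ j, |v j| ≤ V) → v ≠ 0 →
      (((Icc 1 R).filter (fun s : ℕ => ∃ z : ℤ, c + ∑ j, v j * Int.fract ((s : ℝ) * θ j) = z)).card
        : ℝ) ≤ δ * R := by
  set d : ℕ := Fintype.card β with hd
  set A : ℝ := (2 * d * V + 2) * (2 * d + 1) with hA
  have hA0 : 0 < A := by positivity
  obtain ⟨K, hK⟩ := exists_nat_gt (2 * (A * 8 ^ (d - 1) * 4 ^ d) / δ)
  have hKr : (0 : ℝ) < K := lt_of_le_of_lt (by positivity) hK
  have hK0 : 0 < K := by exact_mod_cast hKr
  refine ⟨K, fun θ hθ => ?_⟩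
  have hB0 : 0 < A * (8 * K : ℝ) ^ (d - 1) := by positivity
  obtain ⟨R₀, hR₀⟩ := visits K hK0 θ hθ (δ / 2 / (A * (8 * K : ℝ) ^ (d - 1))) (by positivity)
  refine ⟨R₀, fun R hR c v hv hv0 => ?_⟩
  have hne : Nonempty β := by
    by_contra hcon
    exact hv0 (funext fun j => (hcon ⟨j⟩).elim)
  have hd1 : 1 ≤ d := Fintype.card_pos
  obtain ⟨j₁, hj₁⟩ := Finite.exists_max (fun j => |v j|)
  have hvj : v j₁ ≠ 0 := by
    intro h0
    apply hv0
    funext j
    have := hj₁ j
    rw [h0, abs_zero] at this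
    exact abs_eq_zero.1 (le_antisymm this (abs_nonneg _))
  have hn : 0 < 8 * K := by omega
  set n : ℕ := 8 * K with hnK
  have hnr : (0 : ℝ) < n := by exact_mod_cast hn
  -- the centres
  let ctr : ℤ × ℤ × (β → ℤ) → β → ℝ := fun p j =>
    if j = j₁ then ((p.1 : ℝ) - c - ∑ i ∈ univ.erase j₁, v i * ((p.2.2 i : ℝ) / n)) / v j₁ +
      (p.2.1 : ℝ) / n else (p.2.2 j : ℝ) / n
  let I : Finset (ℤ × ℤ × (β → ℤ)) := (Icc ⌈c - d * V⌉ ⌊c + d * V⌋) ×ˢ (Icc (-(d : ℤ)) d) ×ˢ
    Fintype.piFinset (fun j => if j = j₁ then {(0 : ℤ)} else Icc 0 ((n : ℤ) - 1))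
  have hcover : (Icc 1 R).filter (fun s : ℕ => ∃ z : ℤ,
      c + ∑ j, v j * Int.fract ((s : ℝ) * θ j) = z) ⊆
      I.biUnion (fun p => (Icc 1 R).filter (fun r : ℕ =>
        ∀ j, nd ((r : ℝ) * θ j - ctr p j) ≤ 1 / (8 * K))) := by
    intro s hs
    rw [mem_filter] at hs
    obtain ⟨hsR, z, hz⟩ := hs
    set x : β → ℝ := fun j => Int.fract ((s : ℝ) * θ j) with hx
    have hx0 : ∀ j, 0 ≤ x j := fun j => Int.fract_nonneg _
    have hx1 : ∀ j, x j < 1 := fun j => Int.fract_lt_one _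
    have hz' : c + ∑ j, v j * x j = z := hz
    set a : β → ℤ := fun j => if j = j₁ then 0 else ⌊(n : ℝ) * x j⌋ with ha
    set b : ℝ := ((z : ℝ) - c - ∑ i ∈ univ.erase j₁, v i * ((a i : ℝ) / n)) / v j₁ with hb
    set i₀ : ℤ := ⌊(n : ℝ) * (x j₁ - b)⌋ with hi₀
    have hclose : ∀ j, j ≠ j₁ → |x j - (a j : ℝ) / n| ≤ 1 / n := by
      intro j hj
      have := floor_close hn (x j)
      simpa [ha, hj] using this
    have hsplit : ∑ j, v j * x j = v j₁ * x j₁ + ∑ i ∈ univ.erase j₁, v i * x i :=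
      (Finset.add_sum_erase univ _ (mem_univ j₁)).symm
    have hxb : |x j₁ - b| ≤ d / n := by
      have h1 : x j₁ - b = -(∑ i ∈ univ.erase j₁, v i * (x i - (a i : ℝ) / n)) / v j₁ := by
        rw [hb, eq_div_iff hvj, sub_mul, div_mul_cancel₀ _ hvj]
        simp only [mul_sub, Finset.sum_sub_distrib]
        linarith
      rw [h1, abs_div, abs_neg, div_le_iff₀ (abs_pos.2 hvj)]
      calc |∑ i ∈ univ.erase j₁, v i * (x i - (a i : ℝ) / n)|
          ≤ ∑ i ∈ univ.erase j₁, |v i * (x i - (a i : ℝ) / n)| := abs_sum_le_sum_abs _ _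
        _ ≤ ∑ i ∈ univ.erase j₁, |v j₁| * (1 / n) := by
            refine Finset.sum_le_sum fun i hi => ?_
            rw [abs_mul]
            exact mul_le_mul (hj₁ i) (hclose i (ne_of_mem_erase hi)) (abs_nonneg _) (abs_nonneg _)
        _ ≤ (d : ℝ) / n * |v j₁| := by
            rw [Finset.sum_const, nsmul_eq_mul]
            have h2 : ((univ.erase j₁).card : ℝ) ≤ d := by
              exact_mod_cast (Finset.card_erase_le).trans_eq (Finset.card_univ)
            have h3 : 0 ≤ |v j₁| * (1 / (n : ℝ)) := by positivity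
            calc ((univ.erase j₁).card : ℝ) * (|v j₁| * (1 / n))
                ≤ d * (|v j₁| * (1 / n)) := mul_le_mul_of_nonneg_right h2 h3
              _ = (d : ℝ) / n * |v j₁| := by ring
    rw [mem_biUnion]
    refine ⟨(z, i₀, a), ?_, ?_⟩
    · simp only [I, mem_product, mem_Icc, Fintype.mem_piFinset]
      have hzc : |(z : ℝ) - c| ≤ d * V := by
        have h1 : (z : ℝ) - c = ∑ j, v j * x j := by linarith
        rw [h1]
        calc |∑ j, v j * x j| ≤ ∑ j, |v j * x j| := abs_sum_le_sum_abs _ _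
          _ ≤ ∑ _j : β, V := by
              refine Finset.sum_le_sum fun j _ => ?_
              rw [abs_mul, abs_of_nonneg (hx0 j)]
              calc |v j| * x j ≤ |v j| * 1 := mul_le_mul_of_nonneg_left (hx1 j).le (abs_nonneg _)
                _ ≤ V := by rw [mul_one]; exact hv j
          _ = d * V := by rw [Finset.sum_const, nsmul_eq_mul, Finset.card_univ]
      rw [abs_le] at hzc
      refine ⟨⟨Int.ceil_le.2 (by linarith), Int.le_floor.2 (by linarith)⟩, ⟨?_, ?_⟩, ?_⟩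
      · rw [hi₀, Int.le_floor]
        have := (abs_le.1 hxb).1
        have h2 : -(d : ℝ) ≤ (n : ℝ) * (x j₁ - b) := by
          have h3 : (n : ℝ) * (-((d : ℝ) / n)) ≤ (n : ℝ) * (x j₁ - b) :=
            mul_le_mul_of_nonneg_left this hnr.le
          have h4 : (n : ℝ) * (-((d : ℝ) / n)) = -d := by field_simp
          linarith
        push_cast
        exact h2
      · have := (abs_le.1 hxb).2
        have h2 : (n : ℝ) * (x j₁ - b) ≤ d := by
          have h3 : (n : ℝ) * (x j₁ - b) ≤ (n : ℝ) * ((d : ℝ) / n) :=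
            mul_le_mul_of_nonneg_left this hnr.le
          have h4 : (n : ℝ) * ((d : ℝ) / n) = d := by field_simp
          linarith
        have h5 : (i₀ : ℝ) ≤ d := (Int.floor_le _).trans h2
        exact_mod_cast h5
      · intro j
        by_cases hj : j = j₁
        · simp [ha, hj]
        · simp only [ha, if_neg hj, mem_Icc]
          constructor
          · exact Int.floor_nonneg.2 (mul_nonneg hnr.le (hx0 j))
          · have h1 : (n : ℝ) * x j < n := by
              calc (n : ℝ) * x j < n * 1 := mul_lt_mul_of_pos_left (hx1 j) hnr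
                _ = n := mul_one _
            have h2 : ⌊(n : ℝ) * x j⌋ < (n : ℤ) := Int.floor_lt.2 (by exact_mod_cast h1)
            omega
    · rw [mem_filter]
      refine ⟨hsR, fun j => ?_⟩
      have hn8 : (1 : ℝ) / (8 * K) = 1 / n := by
        rw [hnK]
        push_cast
        ring
      rw [hn8]
      by_cases hj : j = j₁
      · subst hj
        have h1 : ctr (z, i₀, a) j = b + (i₀ : ℝ) / n := by
          simp only [ctr, if_true, hb]
        rw [h1]
        have h2 := nd_le ((s : ℝ) * θ j - (b + (i₀ : ℝ) / n)) ⌊(s : ℝ) * θ j⌋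
        refine h2.trans ?_
        have h3 : (s : ℝ) * θ j - (b + (i₀ : ℝ) / n) - (⌊(s : ℝ) * θ j⌋ : ℝ) =
            (x j - b) - (i₀ : ℝ) / n := by
          have : x j = (s : ℝ) * θ j - ⌊(s : ℝ) * θ j⌋ := rfl
          rw [this]
          ring
        rw [h3]
        exact floor_close hn _
      · have h1 : ctr (z, i₀, a) j = (a j : ℝ) / n := by
          simp only [ctr, if_neg hj]
        rw [h1]
        have h2 := nd_le ((s : ℝ) * θ j - (a j : ℝ) / n) ⌊(s : ℝ) * θ j⌋
        refine h2.trans ?_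
        have h3 : (s : ℝ) * θ j - (a j : ℝ) / n - (⌊(s : ℝ) * θ j⌋ : ℝ) = x j - (a j : ℝ) / n := by
          have : x j = (s : ℝ) * θ j - ⌊(s : ℝ) * θ j⌋ := rfl
          rw [this]
          ring
        rw [h3]
        exact hclose j hj
  have hIcard : (I.card : ℝ) ≤ A * (8 * K : ℝ) ^ (d - 1) := by
    have h1 : I.card = (Icc ⌈c - d * V⌉ ⌊c + d * V⌋).card * ((Icc (-(d : ℤ)) d).card *
        (Fintype.piFinset (fun j => if j = j₁ then {(0 : ℤ)} else Icc 0 ((n : ℤ) - 1))).card) := by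
      simp only [I, card_product]
    have h2 : ((Icc ⌈c - d * V⌉ ⌊c + d * V⌋).card : ℝ) ≤ 2 * d * V + 2 := by
      rw [Int.card_Icc]
      have hh1 := Int.floor_le (c + d * V)
      have hh2 := Int.le_ceil (c - d * V)
      have hdV : 0 ≤ (d : ℝ) * V := by positivity
      rcases le_total 0 (⌊c + d * V⌋ + 1 - ⌈c - d * V⌉) with h | h
      · have : (((⌊c + d * V⌋ + 1 - ⌈c - d * V⌉).toNat : ℤ) : ℝ) =
            ((⌊c + d * V⌋ + 1 - ⌈c - d * V⌉ : ℤ) : ℝ) := by rw [Int.toNat_of_nonneg h]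
        rw [Int.cast_natCast] at this
        rw [this]
        push_cast
        linarith
      · rw [Int.toNat_of_nonpos h]
        push_cast
        linarith
    have h3 : ((Icc (-(d : ℤ)) d).card : ℝ) = 2 * d + 1 := by
      rw [Int.card_Icc]
      have : ((d : ℤ) + 1 - -(d : ℤ)).toNat = 2 * d + 1 := by omega
      rw [this]
      push_cast
      ring
    have h4 : ((Fintype.piFinset (fun j => if j = j₁ then {(0 : ℤ)} else
        Icc 0 ((n : ℤ) - 1))).card : ℝ) = (8 * K : ℝ) ^ (d - 1) := by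
      rw [Fintype.card_piFinset]
      have h5 : ∏ j : β, (if j = j₁ then {(0 : ℤ)} else Icc 0 ((n : ℤ) - 1)).card =
          n ^ (d - 1) := by
        rw [← Finset.mul_prod_erase univ _ (mem_univ j₁)]
        rw [Finset.prod_congr rfl (g := fun _ => n)]
        · rw [Finset.prod_const, Finset.card_erase_of_mem (mem_univ _), Finset.card_univ]
          simp [hd]
        · intro j hj
          rw [if_neg (ne_of_mem_erase hj), Int.card_Icc]
          omega
      rw [h5, hnK]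
      push_cast
      ring
    rw [h1]
    push_cast
    rw [h3, h4, hA, ← mul_assoc]
    exact mul_le_mul_of_nonneg_right (mul_le_mul_of_nonneg_right h2 (by positivity))
      (by positivity)
  have hdK : (4 / (K : ℝ)) ^ d * (A * (8 * K : ℝ) ^ (d - 1)) ≤ δ / 2 := by
    obtain ⟨e, he⟩ : ∃ e, d = e + 1 := ⟨d - 1, by omega⟩
    rw [he] at hK ⊢
    simp only [Nat.add_sub_cancel] at hK ⊢
    have h1 : (4 / (K : ℝ)) ^ (e + 1) * (A * (8 * K : ℝ) ^ e) =
        (A * 8 ^ e * 4 ^ (e + 1)) / K := by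
      rw [div_pow, mul_pow, pow_succ (K : ℝ)]
      field_simp
    rw [h1, div_le_iff₀ hKr]
    rw [div_lt_iff₀ hδ] at hK
    linarith
  calc (((Icc 1 R).filter (fun s : ℕ => ∃ z : ℤ,
        c + ∑ j, v j * Int.fract ((s : ℝ) * θ j) = z)).card : ℝ)
      ≤ ((I.biUnion (fun p => (Icc 1 R).filter (fun r : ℕ =>
        ∀ j, nd ((r : ℝ) * θ j - ctr p j) ≤ 1 / (8 * K)))).card : ℝ) := by
        exact_mod_cast card_le_card hcover
    _ ≤ ((∑ p ∈ I, ((Icc 1 R).filter (fun r : ℕ =>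
        ∀ j, nd ((r : ℝ) * θ j - ctr p j) ≤ 1 / (8 * K))).card : ℕ) : ℝ) := by
        exact_mod_cast card_biUnion_le
    _ = ∑ p ∈ I, (((Icc 1 R).filter (fun r : ℕ =>
        ∀ j, nd ((r : ℝ) * θ j - ctr p j) ≤ 1 / (8 * K))).card : ℝ) := by
        push_cast
        rfl
    _ ≤ ∑ _p ∈ I, ((4 / (K : ℝ)) ^ d + δ / 2 / (A * (8 * K : ℝ) ^ (d - 1))) * R :=
        Finset.sum_le_sum fun p _ => hR₀ R hR (ctr p)
    _ = I.card * (((4 / (K : ℝ)) ^ d + δ / 2 / (A * (8 * K : ℝ) ^ (d - 1))) * R) := by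
        rw [Finset.sum_const, nsmul_eq_mul]
    _ ≤ (A * (8 * K : ℝ) ^ (d - 1)) *
        (((4 / (K : ℝ)) ^ d + δ / 2 / (A * (8 * K : ℝ) ^ (d - 1))) * R) :=
        mul_le_mul_of_nonneg_right hIcard (by positivity)
    _ = ((4 / (K : ℝ)) ^ d * (A * (8 * K : ℝ) ^ (d - 1)) + δ / 2) * R := by
        field_simp
    _ ≤ δ * R := by
        refine mul_le_mul_of_nonneg_right ?_ (by positivity)
        linarith

end Pool.Agent.Lib.MP_663568_nt.T3
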