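import Mathlib
import Pool.Agent.Lib.MP_663568_t3.TBracket

/-!
# The horizontal part of the square has no small relations for most shifts
-/

set_option autoImplicit false
open Finset

namespace Pool.Agent.Lib.MP_663568_nt.T3

open Katai Nul

lemma NR.mono' {β : Type} [Fintype β] {K K' : ℕ} (hK : K ≤ K') {θ : β → ℝ} (h : NR K' θ) :
    NR K θ := fun k hk hkK z => h k hk (fun j => (hkK j).trans (by exact_mod_cast hK)) z

open Classical in
/-- One relation. -/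
lemma rel_good {β β₂ : Type} [Fintype β] [Fintype β₂] (b : β₂ → β → β → ℤ)
    (hb : ∀ w : β₂ → ℤ, w ≠ 0 → ∃ j i, ∑ k, w k * b k j i ≠ 0) (K' : ℕ)
    (q : β ⊕ β₂ → ℤ) (hq : q ≠ 0) (hqK : ∀ j, |q j| ≤ (K' : ℤ)) (δ : ℝ) (hδ : 0 < δ) :
    ∃ K : ℕ, ∀ θ : β → ℝ, NR K θ → ∃ R₀ : ℕ, ∀ R : ℕ, R₀ ≤ R →
      (((Icc 1 R).filter (fun r : ℕ => ∃ z : ℤ, ∑ s, (q s : ℝ) * (Sum.elim θ
        (fun k => ∑ j, ∑ i, (b k j i : ℝ) * (⌊(r : ℝ) * θ j⌋ : ℝ) * θ i)) s = z)).card : ℝ) ≤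
        δ * R := by
  by_cases hw : (fun k => q (Sum.inr k)) = 0
  · refine ⟨K', fun θ hθ => ⟨0, fun R _ => ?_⟩⟩
    rw [filter_eq_empty_iff.2]
    · simp only [card_empty, Nat.cast_zero]
      positivity
    · rintro r _ ⟨z, hz⟩
      have hw' : ∀ k, q (Sum.inr k) = 0 := fun k => congrFun hw k
      rw [Fintype.sum_sum_type] at hz
      simp only [Sum.elim_inl, Sum.elim_inr, hw', Int.cast_zero, zero_mul, sum_const_zero,
        add_zero] at hz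
      refine hθ (fun j => q (Sum.inl j)) ?_ (fun j => hqK _) z hz
      intro h0
      apply hq
      funext s
      rcases s with j | k
      · exact congrFun h0 j
      · exact hw' k
  · obtain ⟨j₀, i₀, hM⟩ := hb _ hw
    set M : β → β → ℤ := fun j i => ∑ k, q (Sum.inr k) * b k j i with hMdef
    set M₀ : ℕ := ∑ j, ∑ i, (M j i).natAbs with hM₀
    have hMle : ∀ j i, (M j i).natAbs ≤ M₀ := by
      intro j i
      calc (M j i).natAbs ≤ ∑ i, (M j i).natAbs :=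
            single_le_sum (f := fun i => (M j i).natAbs) (fun _ _ => Nat.zero_le _) (mem_univ i)
        _ ≤ M₀ := single_le_sum (f := fun j => ∑ i, (M j i).natAbs)
            (fun _ _ => Nat.zero_le _) (mem_univ j)
    have hrow : ∀ j, ∑ i, (M j i).natAbs ≤ M₀ := fun j =>
      single_le_sum (f := fun j => ∑ i, (M j i).natAbs) (fun _ _ => Nat.zero_le _) (mem_univ j)
    obtain ⟨K₂, hK₂⟩ := bracket_count (β := β) (M₀ : ℝ) (Nat.cast_nonneg _) δ hδ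
    refine ⟨K₂ * (M₀ + 1), fun θ hθ => ?_⟩
    set ζ : β → ℝ := fun j => ∑ i, (M j i : ℝ) * Int.fract (θ i) with hζ
    obtain ⟨R₀, hR₀⟩ := hK₂ θ (hθ.mono' (Nat.le_mul_of_pos_right _ (Nat.succ_pos _)))
      (∑ j, ζ j * θ j) (∑ j, (q (Sum.inl j) : ℝ) * θ j) (fun j => -ζ j) (by
        intro j
        rw [abs_neg]
        calc |ζ j| ≤ ∑ i, |(M j i : ℝ) * Int.fract (θ i)| := abs_sum_le_sum_abs _ _
          _ ≤ ∑ i, ((M j i).natAbs : ℝ) := by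
              refine sum_le_sum fun i _ => ?_
              rw [abs_mul, abs_of_nonneg (Int.fract_nonneg (θ i))]
              have h1 : |(M j i : ℝ)| = ((M j i).natAbs : ℝ) := by
                rw [Nat.cast_natAbs, Int.cast_abs]
              rw [h1]
              exact mul_le_of_le_one_right (Nat.cast_nonneg _) (Int.fract_lt_one _).le
          _ ≤ M₀ := by exact_mod_cast hrow j) ⟨j₀, by
        intro m hm1 hmK z hz
        refine hθ (fun i => (m : ℤ) * M j₀ i) ?_ ?_ (-z + ∑ i, (m : ℤ) * M j₀ i * ⌊θ i⌋) ?_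
        · intro h0
          have h1 := congrFun h0 i₀
          simp only [Pi.zero_apply, mul_eq_zero] at h1
          rcases h1 with h1 | h1
          · omega
          · exact hM h1
        · intro i
          rw [abs_mul, Nat.abs_cast]
          have h1 : |M j₀ i| ≤ (M₀ : ℤ) := by
            rw [Int.abs_eq_natAbs]
            exact_mod_cast hMle j₀ i
          push_cast
          have h2 : |M j₀ i| ≤ (M₀ : ℤ) + 1 := by omega
          exact mul_le_mul (by exact_mod_cast hmK) h2 (abs_nonneg _) (by positivity)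
        · push_cast
          have h1 : ∑ i, (m : ℝ) * (M j₀ i : ℝ) * θ i =
              (m : ℝ) * ζ j₀ + ∑ i, (m : ℝ) * (M j₀ i : ℝ) * (⌊θ i⌋ : ℝ) := by
            rw [hζ, mul_sum, ← sum_add_distrib]
            refine sum_congr rfl fun i _ => ?_
            have h2 := Int.floor_add_fract (θ i)
            calc (m : ℝ) * (M j₀ i : ℝ) * θ i
                = (m : ℝ) * (M j₀ i : ℝ) * ((⌊θ i⌋ : ℝ) + Int.fract (θ i)) := by rw [h2]
              _ = _ := by ring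
          rw [h1]
          linarith⟩
    refine ⟨R₀, fun R hR => le_trans ?_ (hR₀ R hR)⟩
    rw [Nat.cast_le]
    refine card_le_card fun r hr => ?_
    rw [mem_filter] at hr ⊢
    refine ⟨hr.1, ?_⟩
    obtain ⟨z, hz⟩ := hr.2
    refine ⟨z - ∑ j, ∑ i, M j i * ⌊(r : ℝ) * θ j⌋ * ⌊θ i⌋, ?_⟩
    rw [Fintype.sum_sum_type] at hz
    simp only [Sum.elim_inl, Sum.elim_inr] at hz
    have h1 : ∑ k, (q (Sum.inr k) : ℝ) * ∑ j, ∑ i, (b k j i : ℝ) * (⌊(r : ℝ) * θ j⌋ : ℝ) * θ i =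
        ∑ j, ∑ i, (M j i : ℝ) * (⌊(r : ℝ) * θ j⌋ : ℝ) * θ i := by
      simp only [mul_sum, hMdef]
      rw [sum_comm]
      refine sum_congr rfl fun j _ => ?_
      rw [sum_comm]
      refine sum_congr rfl fun i _ => ?_
      push_cast
      rw [sum_mul, sum_mul]
      refine sum_congr rfl fun k _ => ?_
      ring
    rw [h1] at hz
    have h2 : ∀ j, ∑ i, (M j i : ℝ) * (⌊(r : ℝ) * θ j⌋ : ℝ) * θ i =
        ζ j * θ j * r - ζ j * Int.fract ((r : ℝ) * θ j) +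
          ∑ i, (M j i : ℝ) * (⌊(r : ℝ) * θ j⌋ : ℝ) * (⌊θ i⌋ : ℝ) := by
      intro j
      have h3 := Int.floor_add_fract ((r : ℝ) * θ j)
      have h4 : ζ j * θ j * r - ζ j * Int.fract ((r : ℝ) * θ j) =
          ζ j * (⌊(r : ℝ) * θ j⌋ : ℝ) := by
        have h5 : (⌊(r : ℝ) * θ j⌋ : ℝ) = r * θ j - Int.fract ((r : ℝ) * θ j) := by linarith
        rw [h5]
        ring
      rw [h4, hζ, sum_mul, ← sum_add_distrib]
      refine sum_congr rfl fun i _ => ?_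
      have h2 := Int.floor_add_fract (θ i)
      calc (M j i : ℝ) * (⌊(r : ℝ) * θ j⌋ : ℝ) * θ i
          = (M j i : ℝ) * (⌊(r : ℝ) * θ j⌋ : ℝ) * ((⌊θ i⌋ : ℝ) + Int.fract (θ i)) := by rw [h2]
        _ = _ := by ring
    rw [sum_congr rfl fun j _ => h2 j, sum_add_distrib, sum_sub_distrib, ← sum_mul] at hz
    push_cast
    have h6 : ∑ j, -ζ j * Int.fract ((r : ℝ) * θ j) = -∑ j, ζ j * Int.fract ((r : ℝ) * θ j) := by
      rw [← sum_neg_distrib]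
      refine sum_congr rfl fun j _ => ?_
      ring
    rw [h6]
    linarith

open Classical in
/-- **Task V4.** -/
theorem bracket_good {β β₂ : Type} [Fintype β] [Fintype β₂] (b : β₂ → β → β → ℤ)
    (hb : ∀ w : β₂ → ℤ, w ≠ 0 → ∃ j i, ∑ k, w k * b k j i ≠ 0) (K' : ℕ) (δ : ℝ) (hδ : 0 < δ) :
    ∃ K : ℕ, ∀ θ : β → ℝ, NR K θ → ∃ R₀ : ℕ, ∀ R : ℕ, R₀ ≤ R →
      (((Icc 1 R).filter (fun r : ℕ => ¬ NR K' (Sum.elim θ
        (fun k => ∑ j, ∑ i, (b k j i : ℝ) * (⌊(r : ℝ) * θ j⌋ : ℝ) * θ i)))).card : ℝ) ≤ δ * R := by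
  set W : Finset (β ⊕ β₂ → ℤ) :=
    (Fintype.piFinset fun _ : β ⊕ β₂ => Icc (-(K' : ℤ)) (K' : ℤ)).filter (· ≠ 0) with hW
  have hWmem : ∀ q, q ∈ W ↔ q ≠ 0 ∧ ∀ s, |q s| ≤ (K' : ℤ) := by
    intro q
    rw [hW, mem_filter, Fintype.mem_piFinset, and_comm]
    simp only [mem_Icc, abs_le]
  set δ' : ℝ := δ / (W.card + 1) with hδ'
  have hδ'0 : 0 < δ' := by positivity
  have hex : ∀ q : β ⊕ β₂ → ℤ, ∃ K : ℕ, q ∈ W → ∀ θ : β → ℝ, NR K θ → ∃ R₀ : ℕ, ∀ R : ℕ, R₀ ≤ R →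
      (((Icc 1 R).filter (fun r : ℕ => ∃ z : ℤ, ∑ s, (q s : ℝ) * (Sum.elim θ
        (fun k => ∑ j, ∑ i, (b k j i : ℝ) * (⌊(r : ℝ) * θ j⌋ : ℝ) * θ i)) s = z)).card : ℝ) ≤
        δ' * R := by
    intro q
    by_cases hq : q ∈ W
    · obtain ⟨h1, h2⟩ := (hWmem q).1 hq
      obtain ⟨K, hK⟩ := rel_good b hb K' q h1 h2 δ' hδ'0
      exact ⟨K, fun _ => hK⟩
    · exact ⟨0, fun h => absurd h hq⟩
  choose Kf hKf using hex
  refine ⟨W.sup Kf, fun θ hθ => ?_⟩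
  have hex2 : ∀ q : β ⊕ β₂ → ℤ, ∃ R₀ : ℕ, q ∈ W → ∀ R : ℕ, R₀ ≤ R →
      (((Icc 1 R).filter (fun r : ℕ => ∃ z : ℤ, ∑ s, (q s : ℝ) * (Sum.elim θ
        (fun k => ∑ j, ∑ i, (b k j i : ℝ) * (⌊(r : ℝ) * θ j⌋ : ℝ) * θ i)) s = z)).card : ℝ) ≤
        δ' * R := by
    intro q
    by_cases hq : q ∈ W
    · obtain ⟨R₀, hR₀⟩ := hKf q hq θ (hθ.mono' (Finset.le_sup hq))
      exact ⟨R₀, fun _ => hR₀⟩
    · exact ⟨0, fun h => absurd h hq⟩
  choose Rf hRf using hex2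
  refine ⟨W.sup Rf, fun R hR => ?_⟩
  have hsub : (Icc 1 R).filter (fun r : ℕ => ¬ NR K' (Sum.elim θ
        (fun k => ∑ j, ∑ i, (b k j i : ℝ) * (⌊(r : ℝ) * θ j⌋ : ℝ) * θ i))) ⊆
      W.biUnion fun q => (Icc 1 R).filter (fun r : ℕ => ∃ z : ℤ, ∑ s, (q s : ℝ) * (Sum.elim θ
        (fun k => ∑ j, ∑ i, (b k j i : ℝ) * (⌊(r : ℝ) * θ j⌋ : ℝ) * θ i)) s = z) := by
    intro r hr
    rw [mem_filter] at hr
    obtain ⟨hr1, hr2⟩ := hr
    unfold NR at hr2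
    push Not at hr2
    obtain ⟨q, hq0, hqK, z, hz⟩ := hr2
    rw [mem_biUnion]
    exact ⟨q, (hWmem q).2 ⟨hq0, hqK⟩, mem_filter.2 ⟨hr1, z, hz⟩⟩
  calc _ ≤ ((W.biUnion fun q => (Icc 1 R).filter (fun r : ℕ => ∃ z : ℤ, ∑ s, (q s : ℝ) * (Sum.elim θ
        (fun k => ∑ j, ∑ i, (b k j i : ℝ) * (⌊(r : ℝ) * θ j⌋ : ℝ) * θ i)) s = z)).card : ℝ) := by
        exact_mod_cast card_le_card hsub
    _ ≤ ∑ q ∈ W, (((Icc 1 R).filter (fun r : ℕ => ∃ z : ℤ, ∑ s, (q s : ℝ) * (Sum.elim θ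
        (fun k => ∑ j, ∑ i, (b k j i : ℝ) * (⌊(r : ℝ) * θ j⌋ : ℝ) * θ i)) s = z)).card : ℝ) := by
        exact_mod_cast card_biUnion_le
    _ ≤ ∑ q ∈ W, δ' * R := sum_le_sum fun q hq => hRf q hq R ((Finset.le_sup hq).trans hR)
    _ = W.card * δ' * R := by rw [sum_const, nsmul_eq_mul, mul_assoc]
    _ ≤ δ * R := by
        gcongr
        rw [hδ', mul_div_assoc', div_le_iff₀ (by positivity)]
        nlinarith [hδ.le]

end Pool.Agent.Lib.MP_663568_nt.T3
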