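import Mathlib
import Pool.Agent.Lib.MP_663568_t3.TDefs
import Pool.Agent.Lib.MP_663568_nt_h86.FSquare

/-!
# The relative square: definitions
-/

set_option autoImplicit false
open Finset

namespace Pool.Agent.Lib.MP_663568_nt.T3

open Katai Tw Fib

variable {G : Type} [Group G]

/-- the group of the pairs which agree modulo `A 2` -/
abbrev SqG (A : ℕ → Subgroup G) (hanti : Antitone A) (hcomm : ∀ i j, ⁅A i, A j⁆ ≤ A (i + j))
    (h0 : A 0 = ⊤) : Type := ↥(sq A hanti hcomm h0 1)

variable (A : ℕ → Subgroup G) (hanti : Antitone A) (hcomm : ∀ i j, ⁅A i, A j⁆ ≤ A (i + j))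
    (h0 : A 0 = ⊤)

/-- the filtration of the square -/
def sqA : ℕ → Subgroup (SqG A hanti hcomm h0) :=
  fun i => (sq A hanti hcomm h0 i).subgroupOf (sq A hanti hcomm h0 1)

/-- the lattice of the square -/
def sqΓ (Γ : Subgroup G) : Subgroup (SqG A hanti hcomm h0) :=
  (Γ.prod Γ).subgroupOf (sq A hanti hcomm h0 1)

/-- the index types of the coordinates of the square -/
abbrev sqβ (β : ℕ → Type) : ℕ → Type := fun s => β s ⊕ β (s + 1)

instance (β : ℕ → Type) [∀ s, Fintype (β s)] (s : ℕ) : Fintype (sqβ β s) :=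
  inferInstanceAs (Fintype (β s ⊕ β (s + 1)))

instance (β : ℕ → Type) [∀ s, DecidableEq (β s)] (s : ℕ) : DecidableEq (sqβ β s) :=
  inferInstanceAs (DecidableEq (β s ⊕ β (s + 1)))

/-- the coordinates of the square -/
def sqπ {β : ℕ → Type} (π : (s : ℕ) → G → β s → ℝ) :
    (s : ℕ) → SqG A hanti hcomm h0 → sqβ β s → ℝ :=
  fun s x => Sum.elim (π s x.1.2) (π (s + 1) (x.1.1 * x.1.2⁻¹))

open Classical in
/-- a pair as an element of the square, `1` if it is not in the square -/
noncomputable def toSq (x : G × G) : SqG A hanti hcomm h0 :=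
  if h : x ∈ sq A hanti hcomm h0 1 then ⟨x, h⟩ else 1

/-- the circles of the square -/
noncomputable def sqe {β : ℕ → Type} (e : (s : ℕ) → β s → ℝ → G) :
    (s : ℕ) → sqβ β s → ℝ → SqG A hanti hcomm h0 :=
  fun s j r => Sum.elim (fun j => toSq A hanti hcomm h0 (e s j r, e s j r))
    (fun j => toSq A hanti hcomm h0 (e (s + 1) j r, 1)) j

end Pool.Agent.Lib.MP_663568_nt.T3
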