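import Mathlib
import Pool.Agent.Lib.MP_663568_t3.TSqDef
import Pool.Agent.Lib.MP_663568_t3.TLift

/-!
# The relative square has coordinates
-/

set_option autoImplicit false
open Finset

namespace Pool.Agent.Lib.MP_663568_nt.T3

open Katai Tw Fib
open scoped commutatorElement

section grp

variable {G : Type} [Group G] {A : ℕ → Subgroup G} (hanti : Antitone A)
  (hcomm : ∀ i j, ⁅A i, A j⁆ ≤ A (i + j)) (h0 : A 0 = ⊤) (h1 : A 1 = ⊤)

include h1 in
theorem mem_sqA (s : ℕ) (x : SqG A hanti hcomm h0) :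
    x ∈ sqA A hanti hcomm h0 s ↔
      x.1.1 ∈ A s ∧ x.1.2 ∈ A s ∧ x.1.1 * x.1.2⁻¹ ∈ A (s + 1) := by
  rw [sqA, Subgroup.mem_subgroupOf, mem_sq A hanti hcomm h0 h1]

theorem mem_sqΓ (Γ : Subgroup G) (x : SqG A hanti hcomm h0) :
    x ∈ sqΓ A hanti hcomm h0 Γ ↔ x.1.1 ∈ Γ ∧ x.1.2 ∈ Γ := by
  rw [sqΓ, Subgroup.mem_subgroupOf, Subgroup.mem_prod]

theorem mem_S (x : G × G) (h2 : x.1 * x.2⁻¹ ∈ A 2) (h1 : A 1 = ⊤) :
    x ∈ sq A hanti hcomm h0 1 := by
  rw [mem_sq A hanti hcomm h0 h1, h1]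
  exact ⟨trivial, trivial, h2⟩

theorem toSq_eq (x : G × G) (h : x ∈ sq A hanti hcomm h0 1) :
    toSq A hanti hcomm h0 x = ⟨x, h⟩ := by
  rw [toSq, dif_pos h]

include h1 in
theorem sq_low (hlow : ∀ s, 1 ≤ s → A (s + 1) ≤ ⁅(⊤ : Subgroup G), A s⁆) {s : ℕ} (hs : 1 ≤ s) :
    sqA A hanti hcomm h0 (s + 1) ≤
      ⁅(⊤ : Subgroup (SqG A hanti hcomm h0)), sqA A hanti hcomm h0 s⁆ := by
  set N := ⁅(⊤ : Subgroup (SqG A hanti hcomm h0)), sqA A hanti hcomm h0 s⁆ with hN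
  have hmem1 : ∀ w ∈ A 2, (w, (1 : G)) ∈ sq A hanti hcomm h0 1 := fun w hw =>
    mem_S hanti hcomm h0 _ (by simpa using hw) h1
  have hmem2 : ∀ w : G, (w, w) ∈ sq A hanti hcomm h0 1 := fun w =>
    mem_S hanti hcomm h0 _ (by simp) h1
  let T1 : Subgroup G :=
    { carrier := {c | ∃ h : (c, (1 : G)) ∈ sq A hanti hcomm h0 1,
        (⟨(c, 1), h⟩ : SqG A hanti hcomm h0) ∈ N}
      mul_mem' := by
        rintro a b ⟨ha, ha'⟩ ⟨hb, hb'⟩
        have h := N.mul_mem ha' hb'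
        have e : (⟨(a, 1), ha⟩ * ⟨(b, 1), hb⟩ : SqG A hanti hcomm h0) =
          ⟨(a * b, 1), by simpa using (sq A hanti hcomm h0 1).mul_mem ha hb⟩ := by
          apply Subtype.ext
          simp
        rw [e] at h
        exact ⟨_, h⟩
      one_mem' := ⟨(sq A hanti hcomm h0 1).one_mem, N.one_mem⟩
      inv_mem' := by
        rintro a ⟨ha, ha'⟩
        have h := N.inv_mem ha'
        have e : (⟨(a, 1), ha⟩⁻¹ : SqG A hanti hcomm h0) =
          ⟨(a⁻¹, 1), by simpa using (sq A hanti hcomm h0 1).inv_mem ha⟩ := by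
          apply Subtype.ext
          simp
        rw [e] at h
        exact ⟨_, h⟩ }
  let T2 : Subgroup G :=
    { carrier := {c | (⟨(c, c), hmem2 c⟩ : SqG A hanti hcomm h0) ∈ N}
      mul_mem' := by
        intro a b ha hb
        exact N.mul_mem ha hb
      one_mem' := N.one_mem
      inv_mem' := by
        intro a ha
        exact N.inv_mem ha }
  have hT1 : ⁅(⊤ : Subgroup G), A (s + 1)⁆ ≤ T1 := by
    rw [Subgroup.commutator_le]
    intro g _ w hw
    have hw2 : w ∈ A 2 := hanti (by omega) hw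
    have h2 : (⟨(w, 1), hmem1 w hw2⟩ : SqG A hanti hcomm h0) ∈ sqA A hanti hcomm h0 s := by
      rw [mem_sqA hanti hcomm h0 h1]
      refine ⟨hanti (Nat.le_succ s) hw, (A s).one_mem, ?_⟩
      simpa using hw
    have h3 : ⁅(⟨(g, g), hmem2 g⟩ : SqG A hanti hcomm h0),
      (⟨(w, 1), hmem1 w hw2⟩ : SqG A hanti hcomm h0)⁆ ∈ N :=
      Subgroup.commutator_mem_commutator (Subgroup.mem_top _) h2
    have h4 : (⁅g, w⁆, (1 : G)) ∈ sq A hanti hcomm h0 1 := by
      refine mem_S hanti hcomm h0 _ ?_ h1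
      have h5 := hcomm 1 1 (Subgroup.commutator_mem_commutator
        (show g ∈ A 1 by rw [h1]; trivial) (hanti (by omega) hw2 : w ∈ A 1))
      simpa using h5
    refine ⟨h4, ?_⟩
    have e : ⁅(⟨(g, g), hmem2 g⟩ : SqG A hanti hcomm h0),
      (⟨(w, 1), hmem1 w hw2⟩ : SqG A hanti hcomm h0)⁆ =
        ⟨(⁅g, w⁆, 1), h4⟩ := by
      apply Subtype.ext
      apply Prod.ext
      · rfl
      · show g * 1 * g⁻¹ * 1⁻¹ = 1
        simp
    rwa [e] at h3
  have hT2 : ⁅(⊤ : Subgroup G), A s⁆ ≤ T2 := by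
    rw [Subgroup.commutator_le]
    intro g _ w hw
    have h2 : (⟨(w, w), hmem2 w⟩ : SqG A hanti hcomm h0) ∈ sqA A hanti hcomm h0 s := by
      rw [mem_sqA hanti hcomm h0 h1]
      refine ⟨hw, hw, ?_⟩
      simp
    have h3 : ⁅(⟨(g, g), hmem2 g⟩ : SqG A hanti hcomm h0),
      (⟨(w, w), hmem2 w⟩ : SqG A hanti hcomm h0)⁆ ∈ N :=
      Subgroup.commutator_mem_commutator (Subgroup.mem_top _) h2
    exact h3
  intro x hx
  rw [mem_sqA hanti hcomm h0 h1] at hx
  obtain ⟨⟨a, b⟩, hab⟩ := x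
  obtain ⟨ha, hb, hw⟩ := hx
  simp only at ha hb hw
  obtain ⟨h2, h3⟩ := hT1 (hlow (s + 1) (by omega) hw)
  have h4 := hT2 (hlow s hs hb)
  have h5 := N.mul_mem h3 h4
  have e : (⟨(a * b⁻¹, 1), h2⟩ * ⟨(b, b), hmem2 b⟩ : SqG A hanti hcomm h0) = ⟨(a, b), hab⟩ := by
    apply Subtype.ext
    apply Prod.ext
    · show a * b⁻¹ * b = a
      group
    · show 1 * b = b
      group
  rwa [e] at h5

end grp

variable {G : Type} [Group G] [TopologicalSpace G] [IsTopologicalGroup G] {A : ℕ → Subgroup G}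
  {Γ : Subgroup G}
  {β : ℕ → Type} [∀ s, Fintype (β s)] [∀ s, DecidableEq (β s)]
  {π : (s : ℕ) → G → β s → ℝ} {e : (s : ℕ) → β s → ℝ → G}

theorem coc_sq (hN : NS A Γ π e) :
    Coc (sqA A hN.anti hN.comm hN.A0) (sqΓ A hN.anti hN.comm hN.A0 Γ) := by
  have key : ∀ i, 1 ≤ i → ∃ C : Set (SqG A hN.anti hN.comm hN.A0), IsCompact C ∧
      (∀ c ∈ C, c ∈ sqA A hN.anti hN.comm hN.A0 i) ∧
      ∀ x ∈ sqA A hN.anti hN.comm hN.A0 i, ∃ c ∈ C, ∃ g ∈ sqΓ A hN.anti hN.comm hN.A0 Γ,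
        x = c * g := by
    intro i hi
    obtain ⟨C, hC1, hC2, hC3⟩ := sq_coc A hN.anti hN.comm hN.A0 hN.A1 Γ hN.coc i
    have hsub : sq A hN.anti hN.comm hN.A0 i ≤ sq A hN.anti hN.comm hN.A0 1 :=
      sq_anti A hN.anti hN.comm hN.A0 hi
    refine ⟨Subtype.val ⁻¹' C, ?_, ?_, ?_⟩
    · refine Topology.IsInducing.subtypeVal.isCompact_preimage' hC1 ?_
      intro c hc
      exact ⟨⟨c, hsub (hC2 c hc)⟩, rfl⟩
    · intro c hc
      rw [sqA, Subgroup.mem_subgroupOf]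
      exact hC2 _ hc
    · intro x hx
      rw [sqA, Subgroup.mem_subgroupOf] at hx
      obtain ⟨c, hc, g, hg, h⟩ := hC3 _ hx
      have hcS : c ∈ sq A hN.anti hN.comm hN.A0 1 := hsub (hC2 c hc)
      have hgS : g ∈ sq A hN.anti hN.comm hN.A0 1 := by
        have : g = c⁻¹ * (x : G × G) := by rw [h]; group
        rw [this]
        exact Subgroup.mul_mem _ (Subgroup.inv_mem _ hcS) x.2
      refine ⟨⟨c, hcS⟩, hc, ⟨g, hgS⟩, ?_, Subtype.ext h⟩
      rw [sqΓ, Subgroup.mem_subgroupOf]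
      exact hg
  intro i
  rcases Nat.eq_zero_or_pos i with rfl | hi
  · obtain ⟨C, hC1, hC2, hC3⟩ := key 1 le_rfl
    have e0 : sqA A hN.anti hN.comm hN.A0 0 = sqA A hN.anti hN.comm hN.A0 1 := by
      ext x
      rw [mem_sqA hN.anti hN.comm hN.A0 hN.A1, mem_sqA hN.anti hN.comm hN.A0 hN.A1, hN.A0, hN.A1]
      have h2 := (mem_sq A hN.anti hN.comm hN.A0 hN.A1 1 x.1).1 x.2
      simp only [Subgroup.mem_top, true_and]
      exact ⟨fun _ => h2.2.2, fun _ => trivial⟩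
    refine ⟨C, hC1, ?_, ?_⟩
    · rw [e0]; exact hC2
    · rw [e0]; exact hC3
  · exact key i hi

theorem pi_conj (hN : NS A Γ π e) {s : ℕ} (hs : 1 ≤ s) (g : G) {w : G} (hw : w ∈ A s) :
    π s (g * w * g⁻¹) = π s w := by
  have h1 : g * w * g⁻¹ * w⁻¹ ∈ A (s + 1) := comm_left A hN.comm hN.A1 g hw
  have h2 : g * w * g⁻¹ = g * w * g⁻¹ * w⁻¹ * w := by group
  rw [h2, hN.pi_mul s hs _ (hN.anti (Nat.le_succ s) h1) _ hw,
    (hN.pi_ker s hs _ (hN.anti (Nat.le_succ s) h1)).2 h1, zero_add]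

/-- **Task G3.** -/
theorem ns_sq (hN : NS A Γ π e) :
    NS (sqA A hN.anti hN.comm hN.A0) (sqΓ A hN.anti hN.comm hN.A0 Γ)
      (sqπ A hN.anti hN.comm hN.A0 π) (sqe A hN.anti hN.comm hN.A0 e) := by
  have hm := mem_sqA hN.anti hN.comm hN.A0 hN.A1
  have hmem1 : ∀ w ∈ A 2, (w, (1 : G)) ∈ sq A hN.anti hN.comm hN.A0 1 := fun w hw =>
    mem_S hN.anti hN.comm hN.A0 _ (by simpa using hw) hN.A1
  have hmem2 : ∀ w : G, (w, w) ∈ sq A hN.anti hN.comm hN.A0 1 := fun w =>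
    mem_S hN.anti hN.comm hN.A0 _ (by simp) hN.A1
  have he1 : ∀ s, 1 ≤ s → ∀ j : β s, sqe A hN.anti hN.comm hN.A0 e s (Sum.inl j) =
      fun r => ⟨(e s j r, e s j r), hmem2 _⟩ := by
    intro s hs j
    funext r
    exact toSq_eq _ _ _ _ _
  have hA2 : ∀ s, 1 ≤ s → ∀ (j : β (s + 1)) (r : ℝ), e (s + 1) j r ∈ A 2 := by
    intro s hs j r
    exact hN.anti (by omega) ((hN.e_onep (s + 1) (by omega) j).2.2 r)
  have he2 : ∀ s, ∀ hs : 1 ≤ s, ∀ j : β (s + 1), sqe A hN.anti hN.comm hN.A0 e s (Sum.inr j) =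
      fun r => ⟨(e (s + 1) j r, 1), hmem1 _ (hA2 s hs j r)⟩ := by
    intro s hs j
    funext r
    exact toSq_eq _ _ _ _ _
  refine ⟨?_, ?_, ?_, ?_, ?_, ?_, ?_, ?_, ?_, ?_, ?_, ?_⟩
  · intro i j hij x hx
    rw [sqA, Subgroup.mem_subgroupOf] at hx ⊢
    exact sq_anti A hN.anti hN.comm hN.A0 hij hx
  · intro i j
    rw [Subgroup.commutator_le]
    intro x hx y hy
    rw [sqA, Subgroup.mem_subgroupOf] at hx hy ⊢
    exact sq_comm A hN.anti hN.comm hN.A0 hN.A1 i j (Subgroup.commutator_mem_commutator hx hy)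
  · rw [eq_top_iff]
    intro x _
    rw [sqA, Subgroup.mem_subgroupOf]
    trivial
  · rw [eq_top_iff]
    intro x _
    rw [sqA, Subgroup.mem_subgroupOf]
    exact x.2
  · intro s hs
    exact sq_low hN.anti hN.comm hN.A0 hN.A1 hN.low hs
  · exact coc_sq hN
  · intro s hs x hx y hy
    rw [hm] at hx hy
    funext j
    rcases j with j | j
    · show π s (x.1.2 * y.1.2) j = _
      rw [hN.pi_mul s hs _ hx.2.1 _ hy.2.1]
      rfl
    · show π (s + 1) (x.1.1 * y.1.1 * (x.1.2 * y.1.2)⁻¹) j = _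
      have e1 : x.1.1 * y.1.1 * (x.1.2 * y.1.2)⁻¹ =
        (x.1.1 * (y.1.1 * y.1.2⁻¹) * x.1.1⁻¹) * (x.1.1 * x.1.2⁻¹) := by group
      rw [e1, hN.pi_mul (s + 1) (by omega) _
        (conj_mem' A hN.comm hN.A1 hN.anti x.1.1 hy.2.2) _ hx.2.2,
        pi_conj hN (by omega) x.1.1 hy.2.2, add_comm]
      rfl
  · intro s hs
    rw [continuousOn_pi]
    rintro (j | j)
    · have h1 : ContinuousOn (fun x : SqG A hN.anti hN.comm hN.A0 => π s x.1.2)
          (sqA A hN.anti hN.comm hN.A0 s) := by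
        refine (hN.pi_cont s hs).comp (t := (A s : Set G)) (by fun_prop) ?_
        intro x hx
        exact ((hm s x).1 hx).2.1
      exact (continuousOn_pi.1 h1) j
    · have h1 : ContinuousOn (fun x : SqG A hN.anti hN.comm hN.A0 =>
          π (s + 1) (x.1.1 * x.1.2⁻¹)) (sqA A hN.anti hN.comm hN.A0 s) := by
        refine (hN.pi_cont (s + 1) (by omega)).comp (t := (A (s + 1) : Set G)) (by fun_prop) ?_
        intro x hx
        exact ((hm s x).1 hx).2.2
      exact (continuousOn_pi.1 h1) j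
  · intro s hs γ hγ hγs j
    rw [mem_sqΓ] at hγ
    rw [hm] at hγs
    rcases j with j | j
    · exact hN.pi_int s hs _ hγ.2 hγs.2.1 j
    · exact hN.pi_int (s + 1) (by omega) _ (Γ.mul_mem hγ.1 (Γ.inv_mem hγ.2)) hγs.2.2 j
  · intro s hs x hx
    rw [hm] at hx
    rw [hm]
    constructor
    · intro h
      have h1 : π s x.1.2 = 0 := by
        funext j
        exact congrFun h (Sum.inl j)
      have h2 : π (s + 1) (x.1.1 * x.1.2⁻¹) = 0 := by
        funext j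
        exact congrFun h (Sum.inr j)
      have h3 := (hN.pi_ker s hs _ hx.2.1).1 h1
      have h4 := (hN.pi_ker (s + 1) (by omega) _ hx.2.2).1 h2
      refine ⟨?_, h3, h4⟩
      have h5 := (A (s + 1)).mul_mem (hN.anti (Nat.le_succ _) h4) h3
      simpa using h5
    · rintro ⟨-, h3, h4⟩
      have h1 := (hN.pi_ker s hs _ hx.2.1).2 h3
      have h2 := (hN.pi_ker (s + 1) (by omega) _ hx.2.2).2 h4
      funext j
      rcases j with j | j
      · exact congrFun h1 j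
      · exact congrFun h2 j
  · intro s hs j
    rcases j with j | j
    · rw [he1 s hs j]
      obtain ⟨h1, h2, h3⟩ := hN.e_onep s hs j
      refine ⟨⟨?_, ?_⟩, ?_, ?_⟩
      · exact Continuous.subtype_mk (h1.1.prodMk h1.1) _
      · intro a b
        apply Subtype.ext
        apply Prod.ext
        · exact h1.2 a b
        · exact h1.2 a b
      · rw [mem_sqΓ]
        exact ⟨h2, h2⟩
      · intro r
        rw [hm]
        refine ⟨h3 r, h3 r, ?_⟩
        simp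
    · rw [he2 s hs j]
      obtain ⟨h1, h2, h3⟩ := hN.e_onep (s + 1) (by omega) j
      refine ⟨⟨?_, ?_⟩, ?_, ?_⟩
      · exact Continuous.subtype_mk (h1.1.prodMk continuous_const) _
      · intro a b
        apply Subtype.ext
        apply Prod.ext
        · exact h1.2 a b
        · exact (mul_one (1 : G)).symm
      · rw [mem_sqΓ]
        exact ⟨h2, Γ.one_mem⟩
      · intro r
        rw [hm]
        refine ⟨hN.anti (Nat.le_succ s) (h3 r), (A s).one_mem, ?_⟩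
        simpa using h3 r
  · intro s hs j r
    rcases j with j | j
    · rw [he1 s hs j]
      have h1 := hN.e_pi s hs j r
      funext i
      rcases i with i | i
      · show π s (e s j r) i = _
        rw [h1]
        simp [Pi.single_apply]
      · show π (s + 1) (e s j r * (e s j r)⁻¹) i = _
        rw [mul_inv_cancel, pi_one hN (by omega)]
        simp [Pi.single_apply]
    · rw [he2 s hs j]
      have h1 := hN.e_pi (s + 1) (by omega) j r
      funext i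
      rcases i with i | i
      · show π s (1 : G) i = _
        rw [pi_one hN hs]
        simp [Pi.single_apply]
      · show π (s + 1) (e (s + 1) j r * 1⁻¹) i = _
        rw [inv_one, mul_one, h1]
        simp [Pi.single_apply]

end Pool.Agent.Lib.MP_663568_nt.T3
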