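import Mathlib
import Pool.Agent.Lib.MP_663568_t3.TSqDef
import Pool.Agent.Lib.MP_663568_t3.TLift
import Pool.Agent.Lib.MP_663568_t3.TSq
import Pool.Agent.Lib.MP_663568_nt_h86.FFourier
import Pool.Agent.Lib.MP_663568_nt_h86.FDecomp

/-!
# The functions on the relative square
-/

set_option autoImplicit false
open Finset

namespace Pool.Agent.Lib.MP_663568_nt.T3

open Katai Tw Fib

namespace Net

/-- the product of the translates as a function on the square -/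
noncomputable def prodF {G : Type} [Group G] (A : ℕ → Subgroup G) (hanti : Antitone A)
    (hcomm : ∀ i j, ⁅A i, A j⁆ ≤ A (i + j)) (h0 : A 0 = ⊤) (F : G → ℂ) (y y' : G)
    (p : SqG A hanti hcomm h0) : ℂ :=
  F (y * p.1.1) * (starRingEnd ℂ) (F (y' * p.1.2))

lemma ee_conj (a : ℝ) : ee a * (starRingEnd ℂ) (ee a) = 1 := by
  rw [Complex.mul_conj, Complex.normSq_eq_norm_sq, norm_ee]
  norm_num

lemma freq_comm_Pop {G : Type} [Group G] {F : G → ℂ} {e e' : ℝ → G} {m' : ℤ}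
    (h : Freq e' m' F) (hc : ∀ r r' x, F (e r * (e' r' * x)) = F (e' r' * (e r * x))) (m : ℤ) :
    Freq e' m' (Pop e m F) := by
  intro r x
  simp only [Pop]
  rw [← intervalIntegral.integral_const_mul]
  congr 1
  funext s
  rw [hc s r x, h r]
  ring

section

variable {G : Type} [Group G] [TopologicalSpace G] [IsTopologicalGroup G] {A : ℕ → Subgroup G}
  {Γ : Subgroup G}
  {β : ℕ → Type} [∀ s, Fintype (β s)] [∀ s, DecidableEq (β s)]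
  {π : (s : ℕ) → G → β s → ℝ} {e : (s : ℕ) → β s → ℝ → G}

lemma reg_prodF (hN : NS A Γ π e) {F : G → ℂ} (hF : Reg Γ F) (y y' : G) :
    Reg (sqΓ A hN.anti hN.comm hN.A0 Γ) (prodF A hN.anti hN.comm hN.A0 F y y') := by
  obtain ⟨hc, hinv⟩ := hF
  constructor
  · unfold prodF
    have h1 : Continuous fun p : SqG A hN.anti hN.comm hN.A0 => F (y * p.1.1) := by
      fun_prop
    have h2 : Continuous fun p : SqG A hN.anti hN.comm hN.A0 => F (y' * p.1.2) := by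
      fun_prop
    exact h1.mul (Complex.continuous_conj.comp h2)
  · intro p γ hγ
    have hγ' : γ.1 ∈ Γ.prod Γ := hγ
    rw [Subgroup.mem_prod] at hγ'
    show F (y * (p.1.1 * γ.1.1)) * (starRingEnd ℂ) (F (y' * (p.1.2 * γ.1.2))) = _
    rw [← mul_assoc, ← mul_assoc, hinv _ _ hγ'.1, hinv _ _ hγ'.2]
    rfl

lemma inv_prodF (hN : NS A Γ π e) {s : ℕ} {F : G → ℂ} (hinv : Inv (A (s + 2)) F)
    (m : β (s + 1) → ℤ) (hm : ∀ j, Freq (e (s + 1) j) (m j) F) (y y' : G) :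
    Inv (sqA A hN.anti hN.comm hN.A0 (s + 1)) (prodF A hN.anti hN.comm hN.A0 F y y') := by
  intro z hz p
  have hz' : z.1 ∈ sq A hN.anti hN.comm hN.A0 (s + 1) := hz
  rw [mem_sq_succ] at hz'
  obtain ⟨h1, h2, h3⟩ := hz'
  show F (y * (z.1.1 * p.1.1)) * (starRingEnd ℂ) (F (y' * (z.1.2 * p.1.2))) = _
  rw [shift_eq A hN.comm hN.A1 hinv h1 y, shift_eq A hN.comm hN.A1 hinv h2 y']
  have h4 : F (z.1.1 * (y * p.1.1)) = F (z.1.2 * (y * p.1.1)) := by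
    have := hinv _ h3 (z.1.2 * (y * p.1.1))
    rw [← this]
    congr 1
    group
  rw [h4, lev_act hN (by omega) hinv m hm h2, lev_act hN (by omega) hinv m hm h2, map_mul]
  have := ee_conj (∑ j, (m j : ℝ) * π (s + 1) z.1.2 j)
  calc _ = (ee (∑ j, (m j : ℝ) * π (s + 1) z.1.2 j) *
        (starRingEnd ℂ) (ee (∑ j, (m j : ℝ) * π (s + 1) z.1.2 j))) *
        (F (y * p.1.1) * (starRingEnd ℂ) (F (y' * p.1.2))) := by ring
    _ = _ := by rw [this, one_mul]; rfl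

lemma freq_prodF (hN : NS A Γ π e) {s : ℕ} (hs : 1 ≤ s) {F : G → ℂ} (hinv : Inv (A (s + 2)) F)
    {j : β (s + 1)} {m : ℤ} (hm : Freq (e (s + 1) j) m F) (y y' : G) :
    Freq (sqe A hN.anti hN.comm hN.A0 e s (Sum.inr j)) m
      (prodF A hN.anti hN.comm hN.A0 F y y') := by
  intro r p
  have he : e (s + 1) j r ∈ A (s + 1) := (hN.e_onep (s + 1) (by omega) j).2.2 r
  have hmem : ((e (s + 1) j r, 1) : G × G) ∈ sq A hN.anti hN.comm hN.A0 1 := by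
    rw [mem_sq_succ]
    refine ⟨by rw [zero_add, hN.A1]; trivial, by rw [zero_add, hN.A1]; trivial, ?_⟩
    simp only [inv_one, mul_one]
    exact hN.anti (by omega) he
  have hsq : sqe A hN.anti hN.comm hN.A0 e s (Sum.inr j) r = ⟨(e (s + 1) j r, 1), hmem⟩ := by
    simp only [sqe, Sum.elim_inr, toSq]
    rw [dif_pos hmem]
  rw [hsq]
  show F (y * (e (s + 1) j r * p.1.1)) * (starRingEnd ℂ) (F (y' * (1 * p.1.2))) = _
  rw [shift_eq A hN.comm hN.A1 hinv he y, hm r, one_mul, mul_assoc]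
  rfl

end

end Net

variable {G : Type} [Group G] [TopologicalSpace G] [IsTopologicalGroup G] {A : ℕ → Subgroup G}
  {Γ : Subgroup G}
  {β : ℕ → Type} [∀ s, Fintype (β s)] [∀ s, DecidableEq (β s)]
  {π : (s : ℕ) → G → β s → ℝ} {e : (s : ℕ) → β s → ℝ → G}

/-- **Task N1.** One translate. -/
theorem one_decomp (hN : NS A Γ π e) (s : ℕ) (hs : 1 ≤ s) (F : G → ℂ)
    (hF : LevN A Γ e (s + 1) F) (hG : GoodN e (s + 1) F) (y y' : G) (ε : ℝ) (hε : 0 < ε) :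
    ∃ (ι : Type) (_ : Fintype ι) (Ψ : ι → SqG A hN.anti hN.comm hN.A0 → ℂ),
      (∀ i, LevN (sqA A hN.anti hN.comm hN.A0) (sqΓ A hN.anti hN.comm hN.A0 Γ)
        (sqe A hN.anti hN.comm hN.A0 e) s (Ψ i) ∧ GoodN (sqe A hN.anti hN.comm hN.A0 e) s (Ψ i)) ∧
      ∀ p : SqG A hN.anti hN.comm hN.A0,
        ‖F (y * p.1.1) * (starRingEnd ℂ) (F (y' * p.1.2)) - ∑ i, Ψ i p‖ ≤ ε := by
  obtain ⟨j₀, m₀, hm₀, hfr⟩ := hG
  obtain ⟨hreg, hinv, hm⟩ := hF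
  choose m hm using hm
  have hS := ns_sq hN
  have hC : Cocompact' (sqΓ A hN.anti hN.comm hN.A0 Γ) := by
    obtain ⟨C, hC1, _, hC2⟩ := hS.coc 0
    exact ⟨C, hC1, fun x => hC2 x (by rw [hS.A0]; trivial)⟩
  obtain ⟨ι, hι, Ψ, hΨ, happ⟩ := fourier_list (sqΓ A hN.anti hN.comm hN.A0 Γ) hC
    ((univ : Finset (sqβ β s)).toList.map (sqe A hN.anti hN.comm hN.A0 e s))
    (by
      intro c hc
      obtain ⟨j, _, rfl⟩ := List.mem_map.1 hc
      exact (hS.e_onep s hs j).1)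
    (fun Ψ => Reg (sqΓ A hN.anti hN.comm hN.A0 Γ) Ψ ∧
      Inv (sqA A hN.anti hN.comm hN.A0 (s + 1)) Ψ ∧
      Freq (sqe A hN.anti hN.comm hN.A0 e s (Sum.inr j₀)) m₀ Ψ)
    (fun Ψ h => h.1)
    (by
      intro Ψ h c hc x
      obtain ⟨j, _, rfl⟩ := List.mem_map.1 hc
      exact gamma_act _ hS.comm hS.A1 h.1 h.2.1 (hS.e_onep s hs j).2.1
        ((hS.e_onep s hs j).2.2 1) x)
    (by
      intro Ψ h c hc c' hc' r r' x
      obtain ⟨j, _, rfl⟩ := List.mem_map.1 hc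
      obtain ⟨j', _, rfl⟩ := List.mem_map.1 hc'
      exact swap_eq _ hS.comm hS.anti hs h.2.1 ((hS.e_onep s hs j).2.2 r)
        ((hS.e_onep s hs j').2.2 r') x)
    (by
      intro Ψ h c hc m'
      obtain ⟨j, _, rfl⟩ := List.mem_map.1 hc
      refine ⟨reg_Pop _ Ψ h.1 _ (hS.e_onep s hs j).1.1 m',
        FDec.inv_Pop _ hS.anti hS.comm hS.A1 h.2.1 _ m', Net.freq_comm_Pop h.2.2 ?_ m'⟩
      intro r r' x
      exact swap_eq _ hS.comm hS.anti hs h.2.1 ((hS.e_onep s hs j).2.2 r)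
        ((hS.e_onep s hs _).2.2 r') x)
    (fun Ψ h c => ⟨reg_const_mul h.1 c, fun z hz x => by
        show c * Ψ (z * x) = c * Ψ x
        rw [h.2.1 z hz x], h.2.2.mul_const c⟩)
    (Net.prodF A hN.anti hN.comm hN.A0 F y y')
    ⟨Net.reg_prodF hN hreg y y', Net.inv_prodF hN hinv m hm y y',
      Net.freq_prodF hN hs hinv hfr y y'⟩ ε hε
  refine ⟨ι, hι, Ψ, fun i => ⟨⟨(hΨ i).1.1, (hΨ i).1.2.1, fun j => ?_⟩,
    ⟨Sum.inr j₀, m₀, hm₀, (hΨ i).1.2.2⟩⟩, happ⟩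
  exact (hΨ i).2 _ (List.mem_map.2 ⟨j, by simp, rfl⟩)

/-- **Task N2.** A compact set of translates. -/
theorem net_decomp (hN : NS A Γ π e) (s : ℕ) (hs : 1 ≤ s) (F : G → ℂ)
    (hF : LevN A Γ e (s + 1) F) (hG : GoodN e (s + 1) F) (X : Set G) (hX : IsCompact X)
    (ε : ℝ) (hε : 0 < ε) :
    ∃ (N : Type) (_ : Fintype N) (ι : N → Type) (_ : ∀ ν, Fintype (ι ν))
      (Ψ : (ν : N) → ι ν → SqG A hN.anti hN.comm hN.A0 → ℂ),
      (∀ ν i, LevN (sqA A hN.anti hN.comm hN.A0) (sqΓ A hN.anti hN.comm hN.A0 Γ)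
        (sqe A hN.anti hN.comm hN.A0 e) s (Ψ ν i) ∧
        GoodN (sqe A hN.anti hN.comm hN.A0 e) s (Ψ ν i)) ∧
      ∀ y ∈ X, ∀ y' ∈ X, ∃ ν, ∀ p : SqG A hN.anti hN.comm hN.A0,
        ‖F (y * p.1.1) * (starRingEnd ℂ) (F (y' * p.1.2)) - ∑ i, Ψ ν i p‖ ≤ ε := by
  have hC : Cocompact' Γ := by
    obtain ⟨C, hC1, _, hC2⟩ := hN.coc 0
    exact ⟨C, hC1, fun x => hC2 x (by rw [hN.A0]; trivial)⟩
  obtain ⟨B, hB0, hB⟩ := reg_bdd hC hF.1
  set η := ε / (4 * B) with hη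
  have hηpos : 0 < η := by positivity
  have hV := reg_unif Γ hC F hF.1 η hηpos
  have hcov : ∀ y₀ ∈ X, {y : G | ∀ x, ‖F ((y * y₀⁻¹) * x) - F x‖ ≤ η} ∈ nhds y₀ := by
    intro y₀ _
    have hc : Filter.Tendsto (fun y : G => y * y₀⁻¹) (nhds y₀) (nhds 1) := by
      have : Continuous fun y : G => y * y₀⁻¹ := by fun_prop
      have h := this.tendsto y₀
      rwa [mul_inv_cancel] at h
    exact hc.eventually hV
  obtain ⟨t, _, htX⟩ := hX.elim_nhds_subcover _ hcov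
  have h1 : ∀ ν : {x // x ∈ t} × {x // x ∈ t}, ∃ (ι : Type) (_ : Fintype ι)
      (Ψ : ι → SqG A hN.anti hN.comm hN.A0 → ℂ),
      (∀ i, LevN (sqA A hN.anti hN.comm hN.A0) (sqΓ A hN.anti hN.comm hN.A0 Γ)
        (sqe A hN.anti hN.comm hN.A0 e) s (Ψ i) ∧ GoodN (sqe A hN.anti hN.comm hN.A0 e) s (Ψ i)) ∧
      ∀ p : SqG A hN.anti hN.comm hN.A0,
        ‖F (ν.1.1 * p.1.1) * (starRingEnd ℂ) (F (ν.2.1 * p.1.2)) - ∑ i, Ψ i p‖ ≤ ε / 2 :=
    fun ν => one_decomp hN s hs F hF hG ν.1.1 ν.2.1 (ε / 2) (by positivity)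
  choose ι hι Ψ hΨ happ using h1
  refine ⟨{x // x ∈ t} × {x // x ∈ t}, inferInstance, ι, hι, Ψ, hΨ, fun y hy y' hy' => ?_⟩
  have h2 := htX hy
  have h3 := htX hy'
  simp only [Set.mem_iUnion, Set.mem_ofPred_eq, exists_prop] at h2 h3
  obtain ⟨y₀, hy₀, h2⟩ := h2
  obtain ⟨y₀', hy₀', h3⟩ := h3
  refine ⟨(⟨y₀, hy₀⟩, ⟨y₀', hy₀'⟩), fun p => ?_⟩
  have h4 := happ (⟨y₀, hy₀⟩, ⟨y₀', hy₀'⟩) p
  have h5 : ‖F (y * p.1.1) - F (y₀ * p.1.1)‖ ≤ η := by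
    have := h2 (y₀ * p.1.1)
    rwa [show y * y₀⁻¹ * (y₀ * p.1.1) = y * p.1.1 by group] at this
  have h6 : ‖F (y' * p.1.2) - F (y₀' * p.1.2)‖ ≤ η := by
    have := h3 (y₀' * p.1.2)
    rwa [show y' * y₀'⁻¹ * (y₀' * p.1.2) = y' * p.1.2 by group] at this
  have h7 : ‖F (y * p.1.1) * (starRingEnd ℂ) (F (y' * p.1.2)) -
      F (y₀ * p.1.1) * (starRingEnd ℂ) (F (y₀' * p.1.2))‖ ≤ ε / 2 := by
    have e1 : F (y * p.1.1) * (starRingEnd ℂ) (F (y' * p.1.2)) -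
        F (y₀ * p.1.1) * (starRingEnd ℂ) (F (y₀' * p.1.2)) =
        (F (y * p.1.1) - F (y₀ * p.1.1)) * (starRingEnd ℂ) (F (y' * p.1.2)) +
        F (y₀ * p.1.1) * (starRingEnd ℂ) (F (y' * p.1.2) - F (y₀' * p.1.2)) := by
      rw [map_sub]; ring
    rw [e1]
    refine (norm_add_le _ _).trans ?_
    rw [norm_mul, norm_mul, RCLike.norm_conj, RCLike.norm_conj]
    have h8 : ‖F (y * p.1.1) - F (y₀ * p.1.1)‖ * ‖F (y' * p.1.2)‖ ≤ η * B :=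
      mul_le_mul h5 (hB _) (norm_nonneg _) hηpos.le
    have h9 : ‖F (y₀ * p.1.1)‖ * ‖F (y' * p.1.2) - F (y₀' * p.1.2)‖ ≤ B * η :=
      mul_le_mul (hB _) h6 (norm_nonneg _) hB0.le
    have h10 : η * B = ε / 4 := by
      rw [hη]; field_simp
    nlinarith
  calc _ = ‖(F (y * p.1.1) * (starRingEnd ℂ) (F (y' * p.1.2)) -
      F (y₀ * p.1.1) * (starRingEnd ℂ) (F (y₀' * p.1.2))) +
      (F (y₀ * p.1.1) * (starRingEnd ℂ) (F (y₀' * p.1.2)) -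
        ∑ i, Ψ (⟨y₀, hy₀⟩, ⟨y₀', hy₀'⟩) i p)‖ := by
        congr 1; ring
    _ ≤ ε / 2 + ε / 2 := (norm_add_le _ _).trans (add_le_add h7 h4)
    _ = ε := by ring

end Pool.Agent.Lib.MP_663568_nt.T3
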