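import Mathlib
import Pool.Agent.Lib.MP_663568_t3.TGood
import Pool.Agent.Lib.MP_663568_t3.TForm
import Pool.Agent.Lib.MP_663568_t3.TNet
import Pool.Agent.Lib.MP_663568_t3.TVdc
import Pool.Agent.Lib.MP_663568_t3.TBase

/-!
# The induction on the level
-/

set_option autoImplicit false
open Finset

namespace Pool.Agent.Lib.MP_663568_nt.T3

open Katai Tw Fib Nul

lemma NR.mono {β : Type} [Fintype β] {K K' : ℕ} (h : K ≤ K') {θ : β → ℝ} (hN : NR K' θ) :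
    NR K θ := fun k hk hk' => hN k hk fun j => (hk' j).trans (by exact_mod_cast h)

section

variable {G : Type} [Group G] [TopologicalSpace G] {A : ℕ → Subgroup G}
  {Γ : Subgroup G}
  {β : ℕ → Type} [∀ s, Fintype (β s)] [∀ s, DecidableEq (β s)]
  {π : (s : ℕ) → G → β s → ℝ} {e : (s : ℕ) → β s → ℝ → G}

lemma pi_one_mul (hN : NS A Γ π e) (x y : G) : π 1 (x * y) = π 1 x + π 1 y :=
  hN.pi_mul 1 le_rfl x (by rw [hN.A1]; trivial) y (by rw [hN.A1]; trivial)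

lemma pi_one_inv (hN : NS A Γ π e) (x : G) : π 1 x⁻¹ = - π 1 x :=
  pi_inv hN le_rfl (by rw [hN.A1]; trivial)

lemma pi_one_cont (hN : NS A Γ π e) : Continuous (π 1) := by
  have := hN.pi_cont 1 le_rfl
  rw [hN.A1] at this
  simpa [continuousOn_univ] using this

lemma pi_one_conj (hN : NS A Γ π e) (x y : G) : π 1 (x⁻¹ * y * x) = π 1 y := by
  rw [pi_one_mul hN, pi_one_mul hN, pi_one_inv hN]
  abel

/-- a bound for the horizontal coordinates on a compact set -/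
lemma exists_bound (hN : NS A Γ π e) (X : Set G) (hX : IsCompact X) :
    ∃ T : ℕ, ∀ x ∈ X, ∀ j, |π 1 x j| ≤ T := by
  have h1 : ∀ j, ∃ T : ℕ, ∀ x ∈ X, |π 1 x j| ≤ T := by
    intro j
    have hc : Continuous fun x => |π 1 x j| :=
      continuous_abs.comp ((continuous_apply j).comp (pi_one_cont hN))
    obtain ⟨B, hB⟩ := (hX.image hc).bddAbove
    obtain ⟨T, hT⟩ := exists_nat_ge B
    exact ⟨T, fun x hx => (hB ⟨x, hx, rfl⟩).trans hT⟩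
  choose T hT using h1
  refine ⟨∑ j, T j, fun x hx j => (hT j x hx).trans ?_⟩
  exact_mod_cast single_le_sum (f := T) (fun _ _ => Nat.zero_le _) (mem_univ j)

end

section

variable {G : Type} [Group G] [TopologicalSpace G] [IsTopologicalGroup G] {A : ℕ → Subgroup G}
  {Γ : Subgroup G}
  {β : ℕ → Type} [∀ s, Fintype (β s)] [∀ s, DecidableEq (β s)]
  {π : (s : ℕ) → G → β s → ℝ} {e : (s : ℕ) → β s → ℝ → G}

/-- the compact set of translations -/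
lemma exists_trans (hN : NS A Γ π e) : ∃ X : Set G, IsCompact X ∧
    ∃ X₀ : Set G, IsCompact X₀ ∧ X₀ ⊆ X ∧ (∀ x : G, ∃ c ∈ X₀, ∃ γ ∈ Γ, x = c * γ) ∧
    ∀ y ∈ X₀, ∀ x : G, ∀ z : β 1 → ℤ, (∀ j, |π 1 x j - z j| ≤ 2) →
      ∃ c γ : G, γ ∈ Γ ∧ x = c * γ ∧ (π 1 γ = fun j => (z j : ℝ)) ∧ y * c ∈ X := by
  classical
  obtain ⟨X₀, hX₀, _, hX₀'⟩ := hN.coc 0
  have hX₀2 : ∀ x : G, ∃ c ∈ X₀, ∃ γ ∈ Γ, x = c * γ := fun x => hX₀' x (by rw [hN.A0]; trivial)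
  obtain ⟨T, hT⟩ := exists_bound hN X₀ hX₀
  set Nset : Finset (β 1 → ℤ) := Fintype.piFinset fun _ => Icc (-(T + 2 : ℤ)) (T + 2) with hNset
  set C₁ : Set G := ⋃ n ∈ Nset, (fun x : G => x * (up (e 1) (fun j => (n j : ℝ)))⁻¹) '' X₀ with hC₁
  have hC₁c : IsCompact C₁ := Nset.isCompact_biUnion fun n _ => hX₀.image (by fun_prop)
  set X : Set G := X₀ ∪ (fun p : G × G => p.1 * p.2) '' (X₀ ×ˢ C₁) with hX
  refine ⟨X, hX₀.union ((hX₀.prod hC₁c).image (by fun_prop)), X₀, hX₀, Set.subset_union_left,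
    hX₀2, ?_⟩
  intro y hy x z hz
  obtain ⟨c₀, hc₀, γ₀, hγ₀, hx⟩ := hX₀2 x
  obtain ⟨m, hm⟩ : ∃ m : β 1 → ℤ, ∀ j, π 1 γ₀ j = m j := by
    choose m hm using hN.pi_int 1 le_rfl γ₀ hγ₀ (by rw [hN.A1]; trivial)
    exact ⟨m, hm⟩
  set n : β 1 → ℤ := fun j => z j - m j with hn
  have hxπ : ∀ j, π 1 x j = π 1 c₀ j + m j := by
    intro j
    rw [hx, pi_one_mul hN, Pi.add_apply, hm]
  have hnN : n ∈ Nset := by
    rw [hNset, Fintype.mem_piFinset]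
    intro j
    have h1 : |(n j : ℝ)| ≤ (T + 2 : ℤ) := by
      have h2 : (n j : ℝ) = - (π 1 x j - z j) + π 1 c₀ j := by
        rw [hxπ, hn]; push_cast; ring
      rw [h2]
      push_cast
      calc |-(π 1 x j - z j) + π 1 c₀ j| ≤ |-(π 1 x j - z j)| + |π 1 c₀ j| := abs_add_le _ _
        _ ≤ 2 + T := by rw [abs_neg]; exact add_le_add (hz j) (hT c₀ hc₀ j)
        _ = _ := add_comm _ _
    have h2 : |n j| ≤ (T + 2 : ℤ) := by exact_mod_cast h1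
    rw [mem_Icc]
    exact abs_le.1 h2
  set γ₁ : G := up (e 1) (fun j => (n j : ℝ)) with hγ₁
  have hγ₁Γ : γ₁ ∈ Γ := up_int hN le_rfl _ fun j => ⟨n j, rfl⟩
  refine ⟨c₀ * γ₁⁻¹, γ₁ * γ₀, Γ.mul_mem hγ₁Γ hγ₀, by rw [hx]; group, ?_, ?_⟩
  · funext j
    rw [pi_one_mul hN, hγ₁, up_pi hN le_rfl, Pi.add_apply, hm, hn]
    push_cast
    ring
  · right
    refine ⟨(y, c₀ * γ₁⁻¹), ⟨hy, ?_⟩, rfl⟩
    rw [hC₁]
    simp only [Set.mem_iUnion]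
    exact ⟨n, hnN, c₀, hc₀, rfl⟩

/-- **The step for bounded functions.** -/
theorem step_norm (s : ℕ) (hs : 1 ≤ s) (ih : EquiAt s) (hN : NS A Γ π e) (F : G → ℂ)
    (hF : LevN A Γ e (s + 1) F) (hG : GoodN e (s + 1) F) (hF1 : ∀ x, ‖F x‖ ≤ 1)
    (ε : ℝ) (hε : 0 < ε) (hε1 : ε ≤ 1) :
    ∃ K : ℕ, ∀ θ : β 1 → ℝ, NR K θ → ∃ ρ : ℝ, 0 < ρ ∧ ∃ L₀ : ℕ, ∀ L : ℕ, L₀ ≤ L →
      ∀ g x : G, (∀ j, |π 1 g j - θ j| < ρ) →
        ‖∑ l ∈ Icc 1 L, F (g ^ l * x)‖ ≤ ε * L := by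
  classical
  obtain ⟨X, hX, X₀, hX₀, hX₀X, hdec, htr⟩ := exists_trans hN
  obtain ⟨N, hNf, ι, hιf, Ψ, hΨ, hnet⟩ := net_decomp hN s hs F hF hG X hX (ε ^ 2 / 128)
    (by positivity)
  set cd : ℝ := 1 + ∑ ν : N, (Fintype.card (ι ν) : ℝ) with hcd
  have hcd0 : 0 < cd := by positivity
  set ε₁ : ℝ := ε ^ 2 / (128 * cd) with hε₁
  have hε₁0 : 0 < ε₁ := by positivity
  have hSq := ns_sq hN
  choose Kf hKf using fun (ν : N) (i : ι ν) => ih (SqG A hN.anti hN.comm hN.A0)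
    (sqA A hN.anti hN.comm hN.A0) (sqΓ A hN.anti hN.comm hN.A0 Γ) (sqβ β)
    (sqπ A hN.anti hN.comm hN.A0 π) (sqe A hN.anti hN.comm hN.A0 e) hSq (Ψ ν i)
    (hΨ ν i).1 (hΨ ν i).2 ε₁ hε₁0
  set K' : ℕ := ∑ ν, ∑ i, Kf ν i with hK'
  have hKle : ∀ ν i, Kf ν i ≤ K' := by
    intro ν i
    calc Kf ν i ≤ ∑ i, Kf ν i := single_le_sum (f := fun i => Kf ν i)
          (fun _ _ => Nat.zero_le _) (mem_univ i)
      _ ≤ _ := single_le_sum (f := fun ν => ∑ i, Kf ν i) (fun _ _ => Nat.zero_le _) (mem_univ ν)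
  obtain ⟨b, hb1, hb2⟩ := comm_form hN
  obtain ⟨K, hK⟩ := bracket_good b hb2 K' (ε ^ 2 / 64) (by positivity)
  refine ⟨K, fun θ hθ => ?_⟩
  obtain ⟨R₀, hR₀⟩ := hK θ hθ
  set R : ℕ := R₀ + ⌈32 / ε ^ 2⌉₊ + 1 with hR
  have hR1 : 1 ≤ R := by omega
  have hRr : 32 ≤ ε ^ 2 * R := by
    have h1 := Nat.le_ceil (32 / ε ^ 2)
    have h2 : (⌈32 / ε ^ 2⌉₊ : ℝ) ≤ R := by exact_mod_cast (by omega : ⌈32 / ε ^ 2⌉₊ ≤ R)
    have h3 := h1.trans h2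
    rw [div_le_iff₀ (by positivity)] at h3
    linarith
  set θs : ℕ → β 1 ⊕ β 2 → ℝ := fun r => Sum.elim θ
        (fun k => ∑ j, ∑ i, (b k j i : ℝ) * (⌊(r : ℝ) * θ j⌋ : ℝ) * θ i) with hθs
  set S : Finset ℕ := (Icc 1 R).filter fun r : ℕ => ¬ NR K' (θs r) with hS
  have hScard : (S.card : ℝ) ≤ ε ^ 2 / 64 * R := hR₀ R (by omega)
  -- the constants for the square
  have hρL : ∀ (r : ℕ) (ν : N) (i : ι ν), ∃ ρ : ℝ, 0 < ρ ∧ ∃ L₀ : ℕ, NR K' (θs r) →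
      ∀ L : ℕ, L₀ ≤ L → ∀ g x : SqG A hN.anti hN.comm hN.A0,
        (∀ j, |sqπ A hN.anti hN.comm hN.A0 π 1 g j - θs r j| < ρ) →
        ‖∑ l ∈ Icc 1 L, Ψ ν i (g ^ l * x)‖ ≤ ε₁ * L := by
    intro r ν i
    by_cases hr : NR K' (θs r)
    · obtain ⟨ρ, hρ, L₀, h⟩ := hKf ν i (θs r) (hr.mono (hKle ν i))
      exact ⟨ρ, hρ, L₀, fun _ => h⟩
    · exact ⟨1, one_pos, 0, fun h => absurd h hr⟩
  choose ρf hρf Lf hLf using hρL
  set D : ℝ := 1 + ∑ r ∈ Icc 1 R, ∑ k, ∑ j, ∑ i, |(b k j i : ℝ) * (⌊(r : ℝ) * θ j⌋ : ℝ)| with hD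
  have hD0 : 0 < D := by positivity
  have hDle : ∀ r ∈ Icc 1 R, ∀ k, ∑ j, ∑ i, |(b k j i : ℝ) * (⌊(r : ℝ) * θ j⌋ : ℝ)| ≤ D := by
    intro r hr k
    have h1 : ∑ j, ∑ i, |(b k j i : ℝ) * (⌊(r : ℝ) * θ j⌋ : ℝ)| ≤
        ∑ k, ∑ j, ∑ i, |(b k j i : ℝ) * (⌊(r : ℝ) * θ j⌋ : ℝ)| :=
      single_le_sum (f := fun k => ∑ j, ∑ i, |(b k j i : ℝ) * (⌊(r : ℝ) * θ j⌋ : ℝ)|)
        (fun _ _ => by positivity) (mem_univ k)
    have h2 : ∑ k, ∑ j, ∑ i, |(b k j i : ℝ) * (⌊(r : ℝ) * θ j⌋ : ℝ)| ≤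
        ∑ r ∈ Icc 1 R, ∑ k, ∑ j, ∑ i, |(b k j i : ℝ) * (⌊(r : ℝ) * θ j⌋ : ℝ)| :=
      single_le_sum (f := fun r : ℕ => ∑ k, ∑ j, ∑ i, |(b k j i : ℝ) * (⌊(r : ℝ) * θ j⌋ : ℝ)|)
        (fun _ _ => by positivity) hr
    linarith
  set E : ℝ := 1 + R + ∑ r ∈ Icc 1 R, ∑ ν, ∑ i, 1 / ρf r ν i with hE
  have hsum0 : ∀ r, 0 ≤ ∑ ν, ∑ i, 1 / ρf r ν i := fun r =>
    sum_nonneg fun ν _ => sum_nonneg fun i _ => (one_div_pos.2 (hρf r ν i)).le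
  have hE1 : 0 ≤ ∑ r ∈ Icc 1 R, ∑ ν, ∑ i, 1 / ρf r ν i := sum_nonneg fun r _ => hsum0 r
  have hE0 : 0 < E := by positivity
  have hEle : ∀ r ∈ Icc 1 R, ∀ ν i, 1 / E ≤ ρf r ν i := by
    intro r hr ν i
    have h1 : 1 / ρf r ν i ≤ ∑ i, 1 / ρf r ν i :=
      single_le_sum (f := fun i => 1 / ρf r ν i) (fun i _ => (one_div_pos.2 (hρf r ν i)).le)
        (mem_univ i)
    have h2 : ∑ i, 1 / ρf r ν i ≤ ∑ ν, ∑ i, 1 / ρf r ν i :=
      single_le_sum (f := fun ν => ∑ i, 1 / ρf r ν i) (fun ν _ =>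
        sum_nonneg fun i _ => (one_div_pos.2 (hρf r ν i)).le) (mem_univ ν)
    have h3 : ∑ ν, ∑ i, 1 / ρf r ν i ≤ ∑ r ∈ Icc 1 R, ∑ ν, ∑ i, 1 / ρf r ν i :=
      single_le_sum (f := fun r => ∑ ν, ∑ i, 1 / ρf r ν i) (fun r _ => hsum0 r) hr
    have h4 : 1 / ρf r ν i ≤ E := by
      rw [hE]
      have : (0 : ℝ) ≤ R := Nat.cast_nonneg _
      linarith
    exact (one_div_le hE0 (hρf r ν i)).2 h4
  have hER : (R : ℝ) ≤ E := by rw [hE]; linarith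
  set L₀ : ℕ := ⌈128 * (R : ℝ) / ε ^ 2⌉₊ + ∑ r ∈ Icc 1 R, ∑ ν, ∑ i, Lf r ν i with hL₀
  have hL₀le : ∀ r ∈ Icc 1 R, ∀ ν i, Lf r ν i ≤ L₀ := by
    intro r hr ν i
    have h1 : Lf r ν i ≤ ∑ i, Lf r ν i :=
      single_le_sum (f := fun i => Lf r ν i) (fun i _ => Nat.zero_le _) (mem_univ i)
    have h2 : ∑ i, Lf r ν i ≤ ∑ ν, ∑ i, Lf r ν i :=
      single_le_sum (f := fun ν => ∑ i, Lf r ν i) (fun ν _ => Nat.zero_le _) (mem_univ ν)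
    have h3 : ∑ ν, ∑ i, Lf r ν i ≤ ∑ r ∈ Icc 1 R, ∑ ν, ∑ i, Lf r ν i :=
      single_le_sum (f := fun r => ∑ ν, ∑ i, Lf r ν i) (fun r _ => Nat.zero_le _) hr
    omega
  refine ⟨1 / (E * D), by positivity, L₀, fun L hL g x hg => ?_⟩
  have hLn : (0 : ℝ) ≤ L := Nat.cast_nonneg _
  have hD1 : 1 ≤ D := by
    rw [hD]
    have : (0 : ℝ) ≤ ∑ r ∈ Icc 1 R, ∑ k, ∑ j, ∑ i, |(b k j i : ℝ) * (⌊(r : ℝ) * θ j⌋ : ℝ)| := by
      positivity
    linarith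
  have hρE : 1 / (E * D) ≤ 1 / E := by
    apply one_div_le_one_div_of_le hE0
    exact le_mul_of_one_le_right hE0.le hD1
  refine vdc (fun l => F (g ^ l * x)) (fun l => hF1 _) ε hε hε1 R L S hRr ?_ ?_ ?_
  · have h1 := Nat.le_ceil (128 * (R : ℝ) / ε ^ 2)
    have h2 : (⌈128 * (R : ℝ) / ε ^ 2⌉₊ : ℝ) ≤ L := by
      exact_mod_cast (by omega : ⌈128 * (R : ℝ) / ε ^ 2⌉₊ ≤ L)
    have h3 := h1.trans h2
    rw [div_le_iff₀ (by positivity)] at h3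
    linarith
  · linarith
  -- one shift
  intro r hr hrS
  have hNR : NR K' (θs r) := by
    by_contra h
    exact hrS (by rw [hS, mem_filter]; exact ⟨hr, h⟩)
  have hrR : (r : ℝ) ≤ R := by exact_mod_cast (mem_Icc.1 hr).2
  obtain ⟨x₀, hx₀, γ₀, hγ₀, hx⟩ := hdec x
  set g' : G := x₀⁻¹ * g * x₀ with hg'
  have hπg' : π 1 g' = π 1 g := pi_one_conj hN x₀ g
  set z : β 1 → ℤ := fun j => ⌊(r : ℝ) * θ j⌋ with hz
  obtain ⟨c, γ, hγ, hcγ, hπγ, hyc⟩ := htr x₀ hx₀ (g' ^ r) z (by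
    intro j
    rw [pi_pow hN, hπg']
    have h1 : |(r : ℝ) * π 1 g j - r * θ j| ≤ 1 := by
      rw [← mul_sub, abs_mul, abs_of_nonneg (Nat.cast_nonneg r)]
      calc (r : ℝ) * |π 1 g j - θ j| ≤ R * (1 / E) := by
            apply mul_le_mul hrR ((hg j).le.trans hρE) (abs_nonneg _) (Nat.cast_nonneg _)
        _ ≤ 1 := by
            rw [mul_one_div, div_le_one hE0]; exact hER
    have h2 : |(r : ℝ) * θ j - z j| ≤ 1 := by
      rw [hz, abs_le]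
      have h3 := Int.floor_le ((r : ℝ) * θ j)
      have h4 := Int.lt_floor_add_one ((r : ℝ) * θ j)
      constructor <;> linarith
    calc |(r : ℝ) * π 1 g j - z j| = |((r : ℝ) * π 1 g j - r * θ j) + (r * θ j - z j)| := by
          congr 1; ring
      _ ≤ 1 + 1 := (abs_add_le _ _).trans (add_le_add h1 h2)
      _ = 2 := by norm_num)
  obtain ⟨ν, hν⟩ := hnet (x₀ * c) hyc x₀ (hX₀X hx₀)
  -- the element of the square
  have hmem : ((γ * g' * γ⁻¹, g') : G × G) ∈ sq A hN.anti hN.comm hN.A0 1 := by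
    rw [mem_sq A hN.anti hN.comm hN.A0 hN.A1]
    refine ⟨by rw [hN.A1]; trivial, by rw [hN.A1]; trivial, ?_⟩
    have := hN.comm 1 1 (Subgroup.commutator_mem_commutator (g₁ := γ) (g₂ := g')
      (by rw [hN.A1]; trivial) (by rw [hN.A1]; trivial))
    simpa [commutatorElement_def] using this
  set p : SqG A hN.anti hN.comm hN.A0 := ⟨(γ * g' * γ⁻¹, g'), hmem⟩ with hp
  have hclose : ∀ j, |sqπ A hN.anti hN.comm hN.A0 π 1 p j - θs r j| < 1 / E := by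
    rintro (j | k)
    · change |π 1 g' j - θ j| < 1 / E
      rw [hπg']
      exact (hg j).trans_le hρE
    · change |π 2 (γ * g' * γ⁻¹ * g'⁻¹) k -
        ∑ j, ∑ i, (b k j i : ℝ) * (⌊(r : ℝ) * θ j⌋ : ℝ) * θ i| < 1 / E
      rw [hb1, hπγ, hπg', ← sum_sub_distrib]
      have h1 : ∀ j, (∑ i, (b k j i : ℝ) * (z j : ℝ) * π 1 g i) -
          ∑ i, (b k j i : ℝ) * (⌊(r : ℝ) * θ j⌋ : ℝ) * θ i =
          ∑ i, ((b k j i : ℝ) * (⌊(r : ℝ) * θ j⌋ : ℝ)) * (π 1 g i - θ i) := by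
        intro j
        rw [← sum_sub_distrib]
        exact sum_congr rfl fun i _ => by rw [hz]; ring
      simp only [h1]
      have h2 : |∑ j, ∑ i, ((b k j i : ℝ) * (⌊(r : ℝ) * θ j⌋ : ℝ)) * (π 1 g i - θ i)| ≤
          ∑ j, ∑ i, |(b k j i : ℝ) * (⌊(r : ℝ) * θ j⌋ : ℝ)| * |π 1 g i - θ i| := by
        refine (abs_sum_le_sum_abs _ _).trans (sum_le_sum fun j _ => ?_)
        refine (abs_sum_le_sum_abs _ _).trans (sum_le_sum fun i _ => ?_)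
        rw [abs_mul]
      by_cases hne : Nonempty (β 1)
      · -- the largest difference
        obtain ⟨i₀, hi₀⟩ := Finite.exists_max (fun i : β 1 => |π 1 g i - θ i|)
        have h3 : ∑ j, ∑ i, |(b k j i : ℝ) * (⌊(r : ℝ) * θ j⌋ : ℝ)| * |π 1 g i - θ i| ≤
            D * |π 1 g i₀ - θ i₀| := by
          calc _ ≤ ∑ j, ∑ i, |(b k j i : ℝ) * (⌊(r : ℝ) * θ j⌋ : ℝ)| * |π 1 g i₀ - θ i₀| :=
                sum_le_sum fun j _ => sum_le_sum fun i _ =>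
                  mul_le_mul_of_nonneg_left (hi₀ i) (abs_nonneg _)
            _ = (∑ j, ∑ i, |(b k j i : ℝ) * (⌊(r : ℝ) * θ j⌋ : ℝ)|) * |π 1 g i₀ - θ i₀| := by
                simp only [sum_mul]
            _ ≤ _ := mul_le_mul_of_nonneg_right (hDle r hr k) (abs_nonneg _)
        have h4 : D * |π 1 g i₀ - θ i₀| < D * (1 / (E * D)) :=
          mul_lt_mul_of_pos_left (hg i₀) hD0
        have h5 : D * (1 / (E * D)) = 1 / E := by field_simp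
        linarith
      · have hem : IsEmpty (β 1) := not_nonempty_iff.1 hne
        rw [Finset.univ_eq_empty, sum_empty, abs_zero]
        positivity
  -- the terms
  have hterm : ∀ l, F (g ^ (l + r) * x) * (starRingEnd ℂ) (F (g ^ l * x)) =
      F (x₀ * c * (p ^ l).1.1) * (starRingEnd ℂ) (F (x₀ * (p ^ l).1.2)) := by
    intro l
    have e0 : ∀ n : ℕ, g ^ n * x₀ = x₀ * g' ^ n := by
      intro n
      rw [hg']
      have := conj_pow (a := x₀⁻¹) (b := g) (i := n)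
      rw [inv_inv] at this
      rw [this]
      group
    have e1 : (p ^ l).1.1 = (γ * g' * γ⁻¹) ^ l := by
      rw [hp]; simp
    have e2 : (p ^ l).1.2 = g' ^ l := by
      rw [hp]; simp
    rw [e1, e2]
    congr 1
    · have e3 : g ^ (l + r) * x = x₀ * c * (γ * g' * γ⁻¹) ^ l * (γ * γ₀) := by
        rw [hx, ← mul_assoc, e0, add_comm, pow_add, hcγ, conj_pow]
        group
      rw [e3]
      exact hF.1.2 _ _ (Γ.mul_mem hγ hγ₀)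
    · rw [hx, ← mul_assoc, e0]
      rw [hF.1.2 _ _ hγ₀]
  have hsum1 : ‖∑ l ∈ Icc 1 L, ∑ i, Ψ ν i (p ^ l)‖ ≤ ε ^ 2 / 128 * L := by
    rw [sum_comm]
    calc _ ≤ ∑ i, ‖∑ l ∈ Icc 1 L, Ψ ν i (p ^ l)‖ := norm_sum_le _ _
      _ ≤ ∑ i : ι ν, ε₁ * L := by
          refine sum_le_sum fun i _ => ?_
          have h1 := hLf r ν i hNR L ((hL₀le r hr ν i).trans hL) p 1
            (fun j => (hclose j).trans_le (hEle r hr ν i))
          simpa only [mul_one] using h1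
      _ = (Fintype.card (ι ν) : ℝ) * (ε₁ * L) := by simp
      _ ≤ cd * (ε₁ * L) := by
          refine mul_le_mul_of_nonneg_right ?_ (by positivity)
          have : (Fintype.card (ι ν) : ℝ) ≤ ∑ ν : N, (Fintype.card (ι ν) : ℝ) :=
            single_le_sum (f := fun ν => (Fintype.card (ι ν) : ℝ)) (fun _ _ => Nat.cast_nonneg _)
              (mem_univ ν)
          rw [hcd]; linarith
      _ = _ := by rw [hε₁]; field_simp
  have hsum2 : ‖∑ l ∈ Icc 1 L, (F (x₀ * c * (p ^ l).1.1) * (starRingEnd ℂ)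
      (F (x₀ * (p ^ l).1.2)) - ∑ i, Ψ ν i (p ^ l))‖ ≤ ε ^ 2 / 128 * L := by
    calc _ ≤ ∑ l ∈ Icc 1 L, ε ^ 2 / 128 :=
          (norm_sum_le _ _).trans (sum_le_sum fun l _ => hν (p ^ l))
      _ = _ := by simp; ring
  have hgoal : ∑ l ∈ Icc 1 L, F (g ^ (l + r) * x) * (starRingEnd ℂ) (F (g ^ l * x)) =
      ∑ l ∈ Icc 1 L, (F (x₀ * c * (p ^ l).1.1) * (starRingEnd ℂ)
      (F (x₀ * (p ^ l).1.2)) - ∑ i, Ψ ν i (p ^ l)) + ∑ l ∈ Icc 1 L, ∑ i, Ψ ν i (p ^ l) := by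
    rw [← sum_add_distrib]
    refine sum_congr rfl fun l _ => ?_
    rw [hterm]; ring
  change ‖∑ l ∈ Icc 1 L, F (g ^ (l + r) * x) * (starRingEnd ℂ) (F (g ^ l * x))‖ ≤ ε ^ 2 / 64 * L
  rw [hgoal]
  calc _ ≤ ε ^ 2 / 128 * L + ε ^ 2 / 128 * L := (norm_add_le _ _).trans (add_le_add hsum2 hsum1)
    _ = _ := by ring

end

/-- **Task I.** -/
theorem equi_step (s : ℕ) (hs : 1 ≤ s) (ih : EquiAt s) : EquiAt (s + 1) := by
  intro G _ _ _ A Γ β _ _ π e hN F hF hG ε hε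
  have hCo : Cocompact' Γ := by
    obtain ⟨C, hC1, _, hC3⟩ := hN.coc 0
    exact ⟨C, hC1, fun x => hC3 x (by rw [hN.A0]; trivial)⟩
  obtain ⟨B, hB0, hB⟩ := reg_bdd hCo hF.1
  set F' : G → ℂ := fun x => (B : ℂ)⁻¹ * F x with hF'
  have hF'L : LevN A Γ e (s + 1) F' := by
    refine ⟨reg_const_mul hF.1 _, fun z hz x => ?_, fun j => ?_⟩
    · simp only [hF']; rw [hF.2.1 z hz x]
    · obtain ⟨m, hm⟩ := hF.2.2 j
      exact ⟨m, hm.mul_const _⟩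
  have hF'1 : ∀ x, ‖F' x‖ ≤ 1 := by
    intro x
    simp only [hF']
    rw [norm_mul, norm_inv, Complex.norm_real, Real.norm_eq_abs, abs_of_pos hB0,
      inv_mul_le_iff₀ hB0, mul_one]
    exact hB x
  have hF'G : GoodN e (s + 1) F' := by
    obtain ⟨j, m, hm, h⟩ := hG
    exact ⟨j, m, hm, h.mul_const _⟩
  obtain ⟨K, hK⟩ := step_norm s hs ih hN F' hF'L hF'G hF'1 (min 1 (ε / B))
    (lt_min one_pos (by positivity)) (min_le_left _ _)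
  refine ⟨K, fun θ hθ => ?_⟩
  obtain ⟨ρ, hρ, L₀, h⟩ := hK θ hθ
  refine ⟨ρ, hρ, L₀, fun L hL g x hg => ?_⟩
  have h1 := h L hL g x hg
  have hLn : (0 : ℝ) ≤ L := Nat.cast_nonneg _
  have e1 : ∑ l ∈ Icc 1 L, F (g ^ l * x) = (B : ℂ) * ∑ l ∈ Icc 1 L, F' (g ^ l * x) := by
    rw [mul_sum]
    refine sum_congr rfl fun l _ => ?_
    simp only [hF']
    have : (B : ℂ) ≠ 0 := by exact_mod_cast hB0.ne'
    field_simp
  rw [e1, norm_mul, Complex.norm_real, Real.norm_eq_abs, abs_of_pos hB0]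
  calc B * ‖∑ l ∈ Icc 1 L, F' (g ^ l * x)‖ ≤ B * (min 1 (ε / B) * L) :=
        mul_le_mul_of_nonneg_left h1 hB0.le
    _ ≤ B * (ε / B * L) := by
        refine mul_le_mul_of_nonneg_left ?_ hB0.le
        exact mul_le_mul_of_nonneg_right (min_le_right _ _) hLn
    _ = ε * L := by field_simp

theorem equi_all (s : ℕ) (hs : 1 ≤ s) : EquiAt s := by
  induction s, hs using Nat.le_induction with
  | base => exact equi_one
  | succ s hs ih => exact equi_step s hs ih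

end Pool.Agent.Lib.MP_663568_nt.T3
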