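import Mathlib
import Pool.Agent.Lib.MP_663568_t3.TLift

/-!
# The product has coordinates
-/

set_option autoImplicit false
open Finset

namespace Pool.Agent.Lib.MP_663568_nt.T3

open Katai Tw Fib

/-- the filtration of the product -/
def prA {G : Type} [Group G] (A : ℕ → Subgroup G) : ℕ → Subgroup (G × G) :=
  fun s => (A s).prod (A s)

/-- the index types of the coordinates of the product -/
abbrev prβ (β : ℕ → Type) : ℕ → Type := fun s => β s ⊕ β s

instance (β : ℕ → Type) [∀ s, Fintype (β s)] (s : ℕ) : Fintype (prβ β s) :=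
  inferInstanceAs (Fintype (β s ⊕ β s))

instance (β : ℕ → Type) [∀ s, DecidableEq (β s)] (s : ℕ) : DecidableEq (prβ β s) :=
  inferInstanceAs (DecidableEq (β s ⊕ β s))

/-- the coordinates of the product -/
def prπ {G : Type} {β : ℕ → Type} (π : (s : ℕ) → G → β s → ℝ) :
    (s : ℕ) → G × G → prβ β s → ℝ := fun s x => Sum.elim (π s x.1) (π s x.2)

/-- the circles of the product -/
def pre {G : Type} [Group G] {β : ℕ → Type} (e : (s : ℕ) → β s → ℝ → G) :
    (s : ℕ) → prβ β s → ℝ → G × G :=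
  fun s j r => Sum.elim (fun j => ((e s j r, 1) : G × G)) (fun j => (1, e s j r)) j

variable {G : Type} [Group G] [TopologicalSpace G] [IsTopologicalGroup G] {A : ℕ → Subgroup G}
  {Γ : Subgroup G}
  {β : ℕ → Type} [∀ s, Fintype (β s)] [∀ s, DecidableEq (β s)]
  {π : (s : ℕ) → G → β s → ℝ} {e : (s : ℕ) → β s → ℝ → G}

open scoped commutatorElement in
/-- **Task P.** -/
theorem ns_prod (hN : NS A Γ π e) : NS (prA A) (Γ.prod Γ) (prπ π) (pre e) where
  anti := fun _ _ h => Subgroup.prod_mono (hN.anti h) (hN.anti h)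
  comm := by
    intro i j
    rw [Subgroup.commutator_le]
    rintro ⟨a, b⟩ ⟨ha, hb⟩ ⟨c, d⟩ ⟨hc, hd⟩
    exact ⟨hN.comm i j (Subgroup.commutator_mem_commutator ha hc),
      hN.comm i j (Subgroup.commutator_mem_commutator hb hd)⟩
  A0 := by rw [prA, hN.A0, Subgroup.top_prod_top]
  A1 := by rw [prA, hN.A1, Subgroup.top_prod_top]
  low := by
    intro s hs
    have h1 : A (s + 1) ≤ (⁅(⊤ : Subgroup (G × G)), prA A s⁆).comap (MonoidHom.inl G G) := by
      refine (hN.low s hs).trans ?_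
      rw [Subgroup.commutator_le]
      intro g _ w hw
      have h : ⁅((g, 1) : G × G), ((w, 1) : G × G)⁆ ∈ ⁅(⊤ : Subgroup (G × G)), prA A s⁆ :=
        Subgroup.commutator_mem_commutator trivial ⟨hw, (A s).one_mem⟩
      have h' : ⁅((g, 1) : G × G), ((w, 1) : G × G)⁆ = (⁅g, w⁆, 1) := by
        simp [commutatorElement_def]
      rw [h'] at h
      exact h
    have h2 : A (s + 1) ≤ (⁅(⊤ : Subgroup (G × G)), prA A s⁆).comap (MonoidHom.inr G G) := by
      refine (hN.low s hs).trans ?_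
      rw [Subgroup.commutator_le]
      intro g _ w hw
      have h : ⁅((1, g) : G × G), ((1, w) : G × G)⁆ ∈ ⁅(⊤ : Subgroup (G × G)), prA A s⁆ :=
        Subgroup.commutator_mem_commutator trivial ⟨(A s).one_mem, hw⟩
      have h' : ⁅((1, g) : G × G), ((1, w) : G × G)⁆ = (1, ⁅g, w⁆) := by
        simp [commutatorElement_def]
      rw [h'] at h
      exact h
    rintro ⟨a, b⟩ ⟨ha, hb⟩
    have h3 : ((a, 1) : G × G) * (1, b) ∈ ⁅(⊤ : Subgroup (G × G)), prA A s⁆ :=
      Subgroup.mul_mem _ (h1 ha) (h2 hb)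
    rwa [Prod.mk_mul_mk, mul_one, one_mul] at h3
  coc := by
    intro i
    obtain ⟨C, h1, h2, h3⟩ := hN.coc i
    refine ⟨C ×ˢ C, h1.prod h1, fun c hc => ⟨h2 _ hc.1, h2 _ hc.2⟩, ?_⟩
    rintro ⟨a, b⟩ ⟨ha, hb⟩
    obtain ⟨c, hc, γ, hγ, rfl⟩ := h3 a ha
    obtain ⟨c', hc', γ', hγ', rfl⟩ := h3 b hb
    exact ⟨(c, c'), ⟨hc, hc'⟩, (γ, γ'), ⟨hγ, hγ'⟩, rfl⟩
  pi_mul := by
    rintro s hs ⟨a, b⟩ ⟨ha, hb⟩ ⟨c, d⟩ ⟨hc, hd⟩
    funext j
    rcases j with j | j
    · exact congrFun (hN.pi_mul s hs a ha c hc) j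
    · exact congrFun (hN.pi_mul s hs b hb d hd) j
  pi_cont := by
    intro s hs
    have h := hN.pi_cont s hs
    refine continuousOn_pi.2 fun j => ?_
    rcases j with j | j
    · exact (continuousOn_pi.1 h j).comp continuous_fst.continuousOn (fun x hx => hx.1)
    · exact (continuousOn_pi.1 h j).comp continuous_snd.continuousOn (fun x hx => hx.2)
  pi_int := by
    rintro s hs ⟨a, b⟩ ⟨ha, hb⟩ ⟨ha', hb'⟩ j
    rcases j with j | j
    · exact hN.pi_int s hs a ha ha' j
    · exact hN.pi_int s hs b hb hb' j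
  pi_ker := by
    rintro s hs ⟨a, b⟩ ⟨ha, hb⟩
    constructor
    · intro h
      refine ⟨(hN.pi_ker s hs a ha).1 ?_, (hN.pi_ker s hs b hb).1 ?_⟩
      · funext j
        exact congrFun h (Sum.inl j)
      · funext j
        exact congrFun h (Sum.inr j)
    · rintro ⟨h1, h2⟩
      have h3 := (hN.pi_ker s hs a ha).2 h1
      have h4 := (hN.pi_ker s hs b hb).2 h2
      funext j
      rcases j with j | j
      · exact congrFun h3 j
      · exact congrFun h4 j
  e_onep := by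
    intro s hs j
    rcases j with j | j
    · obtain ⟨⟨h1, h2⟩, h3, h4⟩ := hN.e_onep s hs j
      refine ⟨⟨h1.prodMk continuous_const, fun a b => ?_⟩, ⟨h3, Γ.one_mem⟩,
        fun r => ⟨h4 r, (A s).one_mem⟩⟩
      change ((e s j (a + b), 1) : G × G) = (e s j a, 1) * (e s j b, 1)
      rw [h2, Prod.mk_mul_mk, one_mul]
    · obtain ⟨⟨h1, h2⟩, h3, h4⟩ := hN.e_onep s hs j
      refine ⟨⟨continuous_const.prodMk h1, fun a b => ?_⟩, ⟨Γ.one_mem, h3⟩,
        fun r => ⟨(A s).one_mem, h4 r⟩⟩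
      change ((1, e s j (a + b)) : G × G) = (1, e s j a) * (1, e s j b)
      rw [h2, Prod.mk_mul_mk, one_mul]
  e_pi := by
    intro s hs j r
    have h0 : π s (1 : G) = 0 := (hN.pi_ker s hs 1 (A s).one_mem).2 (A (s + 1)).one_mem
    rcases j with j | j
    · funext i
      rcases i with i | i
      · change π s (e s j r) i = _
        rw [hN.e_pi s hs j r]
        by_cases h : i = j
        · subst h
          simp
        · rw [Pi.single_eq_of_ne h, Pi.single_eq_of_ne (fun h' => h (Sum.inl.inj h'))]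
      · change π s (1 : G) i = _
        rw [h0, Pi.single_eq_of_ne (by simp)]
        rfl
    · funext i
      rcases i with i | i
      · change π s (1 : G) i = _
        rw [h0, Pi.single_eq_of_ne (by simp)]
        rfl
      · change π s (e s j r) i = _
        rw [hN.e_pi s hs j r]
        by_cases h : i = j
        · subst h
          simp
        · rw [Pi.single_eq_of_ne h, Pi.single_eq_of_ne (fun h' => h (Sum.inr.inj h'))]

lemma conj_ee (x : ℝ) : (starRingEnd ℂ) (ee x) = ee (-x) := by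
  have h := ee_sub 0 x
  have h0 : ee 0 = 1 := by
    have := ee_int 0
    rwa [Int.cast_zero] at this
  rw [h0, one_mul, zero_sub] at h
  exact h.symm

omit [IsTopologicalGroup G] [∀ s, Fintype (β s)] [∀ s, DecidableEq (β s)] in
/-- the tensor product -/
theorem lev_pr (s : ℕ) (F : G → ℂ) (hF : LevN A Γ e s F) (hG : GoodN e s F) :
    LevN (prA A) (Γ.prod Γ) (pre e) s (fun x : G × G => F x.1 * (starRingEnd ℂ) (F x.2)) ∧
      GoodN (pre e) s (fun x : G × G => F x.1 * (starRingEnd ℂ) (F x.2)) := by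
  obtain ⟨⟨hc, hΓ⟩, hinv, hfr⟩ := hF
  have hl : ∀ j m, Freq (e s j) m F → Freq (pre e s (Sum.inl j)) m
      (fun x : G × G => F x.1 * (starRingEnd ℂ) (F x.2)) := by
    intro j m h r x
    change F (e s j r * x.1) * (starRingEnd ℂ) (F (1 * x.2)) = _
    rw [h r x.1, one_mul, mul_assoc]
  have hr : ∀ j m, Freq (e s j) m F → Freq (pre e s (Sum.inr j)) (-m)
      (fun x : G × G => F x.1 * (starRingEnd ℂ) (F x.2)) := by
    intro j m h r x
    change F (1 * x.1) * (starRingEnd ℂ) (F (e s j r * x.2)) = _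
    rw [h r x.2, one_mul, map_mul, conj_ee]
    have h1 : ((-m : ℤ) : ℝ) * r = -(m * r) := by push_cast; ring
    rw [h1]
    ring
  refine ⟨⟨⟨?_, ?_⟩, ?_, ?_⟩, ?_⟩
  · exact (hc.comp continuous_fst).mul (Complex.continuous_conj.comp (hc.comp continuous_snd))
  · rintro ⟨x, y⟩ ⟨γ, γ'⟩ ⟨h1, h2⟩
    change F (x * γ) * (starRingEnd ℂ) (F (y * γ')) = F x * (starRingEnd ℂ) (F y)
    rw [hΓ x γ h1, hΓ y γ' h2]
  · rintro ⟨z, z'⟩ ⟨h1, h2⟩ ⟨x, y⟩
    change F (z * x) * (starRingEnd ℂ) (F (z' * y)) = F x * (starRingEnd ℂ) (F y)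
    rw [hinv z h1 x, hinv z' h2 y]
  · rintro (j | j)
    · obtain ⟨m, hm⟩ := hfr j
      exact ⟨m, hl j m hm⟩
    · obtain ⟨m, hm⟩ := hfr j
      exact ⟨-m, hr j m hm⟩
  · obtain ⟨j, m, hm0, hm⟩ := hG
    exact ⟨Sum.inl j, m, hm0, hl j m hm⟩

end Pool.Agent.Lib.MP_663568_nt.T3
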