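import Mathlib
import Pool.Agent.Lib.MP_663568_t3.TInd
import Pool.Agent.Lib.MP_663568_t3.TProd

/-!
# Correlations of two nilsequences without small relations
-/

set_option autoImplicit false
open Finset

namespace Pool.Agent.Lib.MP_663568_nt.T3

open Katai Tw Fib Nul

/-- No combination of `u` and `v` with coefficients at most `C` is within `κ` of an integer. -/
def SepV {β : Type} [Fintype β] (C : ℕ) (κ : ℝ) (u v : β → ℝ) : Prop :=
  ∀ k k' : β → ℤ, (k ≠ 0 ∨ k' ≠ 0) → (∀ j, |k j| ≤ (C : ℤ)) → (∀ j, |k' j| ≤ (C : ℤ)) →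
    κ ≤ nd (∑ j, (k j : ℝ) * u j + ∑ j, (k' j : ℝ) * v j)

variable {G : Type} [Group G] [TopologicalSpace G] [IsTopologicalGroup G] {A : ℕ → Subgroup G}
  {Γ : Subgroup G}
  {β : ℕ → Type} [∀ s, Fintype (β s)] [∀ s, DecidableEq (β s)]
  {π : (s : ℕ) → G → β s → ℝ} {e : (s : ℕ) → β s → ℝ → G}

/-- the vectors of size at most `T` which are `κ`-far from all relations with coefficients at
most `K` -/
def farSet (β : Type) [Fintype β] (K : ℕ) (κ T : ℝ) : Set (β → ℝ) :=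
  {θ | (∀ j, |θ j| ≤ T) ∧ ∀ k : β → ℤ, k ≠ 0 → (∀ j, |k j| ≤ (K : ℤ)) →
    κ ≤ nd (∑ j, (k j : ℝ) * θ j)}

lemma isCompact_farSet (β : Type) [Fintype β] (K : ℕ) (κ T : ℝ) :
    IsCompact (farSet β K κ T) := by
  have h1 : IsCompact (Set.pi Set.univ fun _ : β => Set.Icc (-T) T) :=
    isCompact_univ_pi fun _ => isCompact_Icc
  refine h1.of_isClosed_subset ?_ ?_
  · have h2 : farSet β K κ T = (⋂ j : β, {θ : β → ℝ | |θ j| ≤ T}) ∩
        ⋂ k : β → ℤ, ⋂ (_ : k ≠ 0), ⋂ (_ : ∀ j, |k j| ≤ (K : ℤ)),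
          {θ : β → ℝ | κ ≤ nd (∑ j, (k j : ℝ) * θ j)} := by
      ext θ
      simp only [farSet, Set.mem_ofPred_eq, Set.mem_inter_iff, Set.mem_iInter]
    rw [h2]
    refine IsClosed.inter ?_ ?_
    · exact isClosed_iInter fun j => isClosed_le ((continuous_apply j).abs) continuous_const
    · refine isClosed_iInter fun k => isClosed_iInter fun _ => isClosed_iInter fun _ =>
        isClosed_le continuous_const (continuous_nd.comp ?_)
      exact continuous_finsetSum _ fun j _ => continuous_const.mul (continuous_apply j)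
  · rintro θ ⟨h, -⟩ j -
    exact abs_le.1 (h j)

lemma nr_of_far {β : Type} [Fintype β] {K : ℕ} {κ T : ℝ} (hκ : 0 < κ) {θ : β → ℝ}
    (h : θ ∈ farSet β K κ T) : NR K θ := by
  intro k hk hkK z hz
  have h1 := h.2 k hk hkK
  rw [hz, nd_int] at h1
  linarith

/-- **Task C.** -/
theorem corr_nil (hN : NS A Γ π e) (s : ℕ) (hs : 1 ≤ s) (F : G → ℂ) (hF : LevN A Γ e s F)
    (hG : GoodN e s F) (ε : ℝ) (hε : 0 < ε) :
    ∃ K : ℕ, ∀ κ : ℝ, 0 < κ → ∀ T : ℝ, ∃ L₀ : ℕ, ∀ L : ℕ, L₀ ≤ L → ∀ g g' x x' : G,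
      (∀ j, |π 1 g j| ≤ T) → (∀ j, |π 1 g' j| ≤ T) → SepV K κ (π 1 g) (π 1 g') →
      ‖∑ l ∈ Icc 1 L, F (g ^ l * x) * (starRingEnd ℂ) (F (g' ^ l * x'))‖ ≤ ε * L := by
  obtain ⟨hF1, hG1⟩ := lev_pr s F hF hG
  obtain ⟨K, hK⟩ := equi_all s hs (G × G) (prA A) (Γ.prod Γ) (prβ β) (prπ π) (pre e)
    (ns_prod hN) _ hF1 hG1 ε hε
  refine ⟨K, fun κ hκ T => ?_⟩
  have h1 : ∀ θ : prβ β 1 → ℝ, ∃ ρ : ℝ, 0 < ρ ∧ ∃ L₀ : ℕ, θ ∈ farSet (prβ β 1) K κ T →
      ∀ L : ℕ, L₀ ≤ L → ∀ g x : G × G, (∀ j, |prπ π 1 g j - θ j| < ρ) →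
        ‖∑ l ∈ Icc 1 L, F (g ^ l * x).1 * (starRingEnd ℂ) (F (g ^ l * x).2)‖ ≤ ε * L := by
    intro θ
    by_cases h : θ ∈ farSet (prβ β 1) K κ T
    · obtain ⟨ρ, hρ, L₀, hL⟩ := hK θ (nr_of_far hκ h)
      exact ⟨ρ, hρ, L₀, fun _ => hL⟩
    · exact ⟨1, one_pos, 0, fun h' => absurd h' h⟩
  choose ρ hρ L₀ hL using h1
  obtain ⟨t, ht, hcov⟩ := (isCompact_farSet (prβ β 1) K κ T).elim_nhds_subcover
    (fun θ => Metric.ball θ (ρ θ)) (fun θ _ => Metric.ball_mem_nhds θ (hρ θ))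
  refine ⟨t.sup L₀, fun L hLt g g' x x' hg hg' hsep => ?_⟩
  have hmem : prπ π 1 (g, g') ∈ farSet (prβ β 1) K κ T := by
    constructor
    · rintro (j | j)
      · exact hg j
      · exact hg' j
    · intro k hk hkK
      have h2 : ∑ j, (k j : ℝ) * prπ π 1 (g, g') j =
          ∑ j, (k (Sum.inl j) : ℝ) * π 1 g j + ∑ j, (k (Sum.inr j) : ℝ) * π 1 g' j :=
        Fintype.sum_sum_type _
      rw [h2]
      refine hsep (fun j => k (Sum.inl j)) (fun j => k (Sum.inr j)) ?_ (fun j => hkK _)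
        (fun j => hkK _)
      by_contra hcon
      push Not at hcon
      apply hk
      funext j
      rcases j with j | j
      · exact congrFun hcon.1 j
      · exact congrFun hcon.2 j
  obtain ⟨θ, hθt, hθ⟩ := Set.mem_iUnion₂.1 (hcov hmem)
  have hball : ∀ j, |prπ π 1 (g, g') j - θ j| < ρ θ := by
    intro j
    have h3 := (dist_pi_lt_iff (hρ θ)).1 (Metric.mem_ball.1 hθ) j
    rwa [Real.dist_eq] at h3
  have h4 := hL θ (ht θ hθt) L ((Finset.le_sup hθt).trans hLt) (g, g') (x, x') hball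
  exact h4

end Pool.Agent.Lib.MP_663568_nt.T3
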