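import Mathlib
import Pool.Agent.Lib.MP_663568_nt_h86.FUnif
import Pool.Agent.Lib.MP_663568_t3.TLift

/-!
# The characters of the horizontal torus
-/

set_option autoImplicit false
open Finset MeasureTheory

namespace Pool.Agent.Lib.MP_663568_nt.T3

open Katai Tw Fib

variable {G : Type} [Group G] [TopologicalSpace G] {A : ℕ → Subgroup G} {Γ : Subgroup G}
  {β : ℕ → Type} [∀ s, Fintype (β s)] [∀ s, DecidableEq (β s)]
  {π : (s : ℕ) → G → β s → ℝ} {e : (s : ℕ) → β s → ℝ → G}

/-- the linear form with integral coefficients in the horizontal coordinates -/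
def hf (π : (s : ℕ) → G → β s → ℝ) (k : β 1 → ℤ) (x : G) : ℝ := ∑ j, (k j : ℝ) * π 1 x j

lemma hf_mul (hN : NS A Γ π e) (k : β 1 → ℤ) (x y : G) :
    hf π k (x * y) = hf π k x + hf π k y := by
  have h := hN.pi_mul 1 le_rfl x (by rw [hN.A1]; trivial) y (by rw [hN.A1]; trivial)
  rw [hf, hf, hf, h, ← sum_add_distrib]
  exact sum_congr rfl fun j _ => by rw [Pi.add_apply]; ring

lemma hf_cont (hN : NS A Γ π e) (k : β 1 → ℤ) : Continuous (hf π k) := by
  have h : Continuous (π 1) := by
    have := hN.pi_cont 1 le_rfl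
    rw [hN.A1] at this
    simpa [continuousOn_univ] using this
  unfold hf
  exact continuous_finsetSum _ fun j _ => continuous_const.mul ((continuous_apply j).comp h)

lemma hf_int (hN : NS A Γ π e) (k : β 1 → ℤ) {γ : G} (hγ : γ ∈ Γ) : ∃ z : ℤ, hf π k γ = z := by
  choose z hz using hN.pi_int 1 le_rfl γ hγ (by rw [hN.A1]; trivial)
  refine ⟨∑ j, k j * z j, ?_⟩
  rw [hf]
  push_cast
  exact sum_congr rfl fun j _ => by rw [hz]

/-- the character of the horizontal torus -/
noncomputable def chi (hN : NS A Γ π e) (k : β 1 → ℤ) : G →* Circle where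
  toFun x := Circle.exp (2 * Real.pi * hf π k x)
  map_one' := by
    have h := hf_mul hN k 1 1
    rw [mul_one] at h
    have h0 : hf π k 1 = 0 := by linarith
    rw [h0, mul_zero, Circle.exp_zero]
  map_mul' x y := by
    rw [hf_mul hN, mul_add, Circle.exp_add]

lemma chi_apply (hN : NS A Γ π e) (k : β 1 → ℤ) (x : G) :
    chi hN k x = Circle.exp (2 * Real.pi * hf π k x) := rfl

lemma chi_cont (hN : NS A Γ π e) (k : β 1 → ℤ) : Continuous (chi hN k) :=
  Circle.exp.continuous.comp (continuous_const.mul (hf_cont hN k))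

lemma exp_int (z : ℤ) : Circle.exp (2 * Real.pi * z) = 1 := by
  rw [mul_comm]
  exact Circle.exp_int_mul_two_pi z

lemma chi_gamma (hN : NS A Γ π e) (k : β 1 → ℤ) {γ : G} (hγ : γ ∈ Γ) : chi hN k γ = 1 := by
  obtain ⟨z, hz⟩ := hf_int hN k hγ
  rw [chi_apply, hz, exp_int]

lemma chi_ne_one (hN : NS A Γ π e) {k : β 1 → ℤ} (hk : k ≠ 0) : chi hN k ≠ 1 := by
  obtain ⟨j, hj⟩ : ∃ j, k j ≠ 0 := by
    by_contra h
    push Not at h
    exact hk (funext h)
  intro h
  have hj' : (k j : ℝ) ≠ 0 := by exact_mod_cast hj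
  have h1 : chi hN k (e 1 j (1 / (2 * k j))) = 1 := by rw [h]; rfl
  rw [chi_apply, hf, hN.e_pi 1 le_rfl] at h1
  rw [Finset.sum_eq_single j (fun i _ hi => by rw [Pi.single_eq_of_ne hi, mul_zero])
    (fun h => absurd (mem_univ j) h), Pi.single_eq_same] at h1
  have h2 : 2 * Real.pi * ((k j : ℝ) * (1 / (2 * k j))) = Real.pi := by field_simp
  rw [h2] at h1
  have h3 : ((Circle.exp Real.pi : Circle) : ℂ) = ((1 : Circle) : ℂ) := by rw [h1]
  rw [Circle.coe_exp, Complex.exp_pi_mul_I, Circle.coe_one] at h3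
  norm_num at h3

/-- horizontal coordinates of ergodic elements are irrational -/
theorem erg_irr (hN : NS A Γ π e) {a : G} (ha : Erg Γ a) {k : β 1 → ℤ} (hk : k ≠ 0) :
    Irrational (hf π k a) := by
  rintro ⟨q, hq⟩
  have h1 : chi hN (fun j => (q.den : ℤ) * k j) a = 1 := by
    rw [chi_apply]
    have : hf π (fun j => (q.den : ℤ) * k j) a = ((q.num : ℤ) : ℝ) := by
      have h2 : hf π (fun j => (q.den : ℤ) * k j) a = (q.den : ℝ) * hf π k a := by
        rw [hf, hf, mul_sum]
        exact sum_congr rfl fun j _ => by push_cast; ring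
      rw [h2, ← hq]
      exact_mod_cast Rat.den_mul_eq_num q
    rw [this, exp_int]
  have h2 := ha _ (chi_cont hN _) (fun γ hγ => chi_gamma hN _ hγ) h1
  refine chi_ne_one hN ?_ h2
  intro h
  apply hk
  funext j
  have h3 := congrFun h j
  simp only [Pi.zero_apply, mul_eq_zero, Nat.cast_eq_zero] at h3
  rcases h3 with h3 | h3
  · exact absurd h3 q.den_nz
  · exact h3

/-- the measure of the image under a character -/
theorem vol_chi (hN : NS A Γ π e) (k : β 1 → ℤ) (C : Set G) (hC : IsCompact C) :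
    volume ((fun x : ℝ => (x : UnitAddCircle)) '' (hf π k '' C)) =
      volume {r : ℝ | r ∈ Set.Icc (0 : ℝ) 1 ∧ Circle.exp (2 * Real.pi * r) ∈ chi hN k '' C} := by
  have hcont : Continuous (fun x : ℝ => (x : UnitAddCircle)) := AddCircle.continuous_mk' 1
  have hc := (hC.image (hf_cont hN k)).image hcont
  have hmeas := hc.isClosed.measurableSet
  have h1 := (AddCircle.measurePreserving_mk (1 : ℝ) 0).measure_preimage hmeas.nullMeasurableSet
  rw [← h1, Measure.restrict_apply (hcont.measurable hmeas), zero_add]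
  have h2 : (fun x : ℝ => (x : UnitAddCircle)) ⁻¹'
      ((fun x : ℝ => (x : UnitAddCircle)) '' (hf π k '' C)) =
      {r : ℝ | Circle.exp (2 * Real.pi * r) ∈ chi hN k '' C} := by
    ext r
    simp only [Set.mem_preimage, Set.mem_image, exists_exists_and_eq_and, Set.mem_ofPred_eq,
      chi_apply]
    constructor
    · rintro ⟨a, ha, h⟩
      refine ⟨a, ha, ?_⟩
      rw [← sub_eq_zero, ← AddCircle.coe_sub, AddCircle.coe_eq_zero_iff] at h
      obtain ⟨n, hn⟩ := h
      have h3 : hf π k a = r + n := by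
        rw [zsmul_eq_mul, mul_one] at hn
        linarith
      rw [h3, mul_add, Circle.exp_add, exp_int, mul_one]
    · rintro ⟨a, ha, h⟩
      refine ⟨a, ha, ?_⟩
      rw [Circle.exp_eq_exp] at h
      obtain ⟨n, hn⟩ := h
      rw [← sub_eq_zero, ← AddCircle.coe_sub, AddCircle.coe_eq_zero_iff]
      refine ⟨n, ?_⟩
      rw [zsmul_eq_mul, mul_one]
      have h4 := Real.pi_pos
      have h5 : 2 * Real.pi * (hf π k a - r - n) = 0 := by linarith
      have h6 := (mul_eq_zero.1 h5).resolve_left (by positivity)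
      linarith
  rw [h2]
  have h3 : {r : ℝ | r ∈ Set.Icc (0 : ℝ) 1 ∧ Circle.exp (2 * Real.pi * r) ∈ chi hN k '' C} =
      {r : ℝ | Circle.exp (2 * Real.pi * r) ∈ chi hN k '' C} ∩ Set.Icc 0 1 := by
    ext r
    simp only [Set.mem_ofPred_eq, Set.mem_inter_iff]
    tauto
  rw [h3]
  refine measure_congr ?_
  exact Filter.EventuallyEq.rfl.inter Ioc_ae_eq_Icc

end Pool.Agent.Lib.MP_663568_nt.T3
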