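import Mathlib
import Pool.Agent.Lib.MP_663568_t3.TLift

/-!
# Functions of a given level: lists of circles and indexed circles
-/

set_option autoImplicit false
open Finset

namespace Pool.Agent.Lib.MP_663568_nt.T3

open Katai Tw Fib

/-- the list of the circles -/
noncomputable def esL {G : Type} {β : ℕ → Type} [∀ s, Fintype (β s)]
    (e : (s : ℕ) → β s → ℝ → G) : ℕ → List (ℝ → G) :=
  fun s => (univ : Finset (β s)).toList.map (e s)

lemma mem_esL {G : Type} {β : ℕ → Type} [∀ s, Fintype (β s)]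
    (e : (s : ℕ) → β s → ℝ → G) (s : ℕ) (x : ℝ → G) : x ∈ esL e s ↔ ∃ j, e s j = x := by
  simp [esL]

variable {G : Type} [Group G] [TopologicalSpace G] {A : ℕ → Subgroup G} {Γ : Subgroup G}
  {β : ℕ → Type} [∀ s, Fintype (β s)]
  {e : (s : ℕ) → β s → ℝ → G}

lemma lev_iff (s : ℕ) (F : G → ℂ) : Lev A Γ (esL e) s F ↔ LevN A Γ e s F := by
  unfold Lev LevN
  simp only [mem_esL]
  constructor
  · rintro ⟨h1, h2, h3⟩
    exact ⟨h1, h2, fun j => h3 _ ⟨j, rfl⟩⟩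
  · rintro ⟨h1, h2, h3⟩
    refine ⟨h1, h2, ?_⟩
    rintro _ ⟨j, rfl⟩
    exact h3 j

omit [TopologicalSpace G] in
lemma good_iff (s : ℕ) (F : G → ℂ) : Good (esL e) s F ↔ GoodN e s F := by
  unfold Good GoodN
  simp only [mem_esL]
  constructor
  · rintro ⟨_, ⟨j, rfl⟩, m, hm, h⟩
    exact ⟨j, m, hm, h⟩
  · rintro ⟨j, m, hm, h⟩
    exact ⟨_, ⟨j, rfl⟩, m, hm, h⟩

variable [∀ s, DecidableEq (β s)] {π : (s : ℕ) → G → β s → ℝ}

lemma esL_onep (hN : NS A Γ π e) : ∀ s, 1 ≤ s → ∀ x ∈ esL e s, IsOneP x ∧ x 1 ∈ Γ ∧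
    ∀ r, x r ∈ A s := by
  intro s hs x hx
  rw [mem_esL] at hx
  obtain ⟨j, rfl⟩ := hx
  exact hN.e_onep s hs j

lemma esL_gen (hN : NS A Γ π e) : ∀ s, 1 ≤ s →
    A s ≤ Subgroup.closure {x | ∃ e' ∈ esL e s, ∃ r, x = e' r} ⊔ A (s + 1) := by
  intro s hs
  refine (gen_of hN hs).trans (sup_le_sup_right (Subgroup.closure_mono ?_) _)
  rintro x ⟨j, r, rfl⟩
  exact ⟨e s j, (mem_esL e s _).2 ⟨j, rfl⟩, r, rfl⟩

end Pool.Agent.Lib.MP_663568_nt.T3
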