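import Mathlib
import Pool.Agent.Lib.MP_663568_nul.Single
import Pool.Agent.Lib.MP_663568_nt_h86.FChar
import Pool.Agent.Lib.MP_663568_t3.TConv

/-!
# Single windows near a compact set of ergodic elements
-/

set_option autoImplicit false
open Finset

namespace Pool.Agent.Lib.MP_663568_nt.T3

open Katai Tw Fib Nul

/-- One window, from the criterion of Kátai. -/
lemma window_small (f a : ℕ → ℂ) (hf : ∀ n, ‖f n‖ ≤ 1) (ha : ∀ n, ‖a n‖ ≤ 1) (ε : ℝ) (hε : 0 < ε)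
    (H₀ : ℕ) (hH₀ : 0 < H₀)
    (h : ∀ X : ℕ, H₀ ≤ X → ∑ n ∈ range X, ws f a n H₀ ≤ ε / 4 * H₀ * X) (H n : ℕ)
    (hH : H₀ + ⌈4 * (H₀ : ℝ) / ε⌉₊ ≤ H) (hn : n ≤ H) : ws f a n H ≤ ε * H := by
  have h1 := h (n + H) (by omega)
  have hx : ∀ m, ‖f m * a m‖ ≤ 1 := fun m => by
    rw [norm_mul]; exact mul_le_one₀ (hf _) (norm_nonneg _) (ha _)
  have h2 := smooth (fun m => f m * a m) hx n (n + H) H₀ (by omega) hH₀
  have hH0r : (0 : ℝ) < H₀ := by exact_mod_cast hH₀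
  have hHr : 4 * (H₀ : ℝ) / ε ≤ H := by
    have h1 := Nat.le_ceil (4 * (H₀ : ℝ) / ε)
    have h2 : ((⌈4 * (H₀ : ℝ) / ε⌉₊ : ℕ) : ℝ) ≤ H := Nat.cast_le.mpr (by omega)
    linarith
  rw [div_le_iff₀ hε] at hHr
  have h3 : ∑ j ∈ Ico n (n + H), ‖∑ l ∈ Icc 1 H₀, f (j + l) * a (j + l)‖
      ≤ ε / 4 * H₀ * ((n + H : ℕ) : ℝ) := by
    refine le_trans ?_ h1
    apply sum_le_sum_of_subset_of_nonneg
    · intro j hj; rw [mem_Ico] at hj; rw [mem_range]; exact hj.2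
    · intro j _ _; exact norm_nonneg _
  have h4 : ((n + H : ℕ) : ℝ) ≤ 2 * H := by
    have : (n : ℝ) ≤ H := by exact_mod_cast hn
    push_cast; linarith
  have h5 : ws f a n H = ‖∑ m ∈ Ioc n (n + H), f m * a m‖ := by
    rw [ws, icc_ioc (fun m => f m * a m)]
  rw [h5]
  calc _ ≤ _ := h2
    _ ≤ (1 / (H₀ : ℝ)) * (ε / 4 * H₀ * (2 * H)) + 2 * H₀ := by
        refine add_le_add ?_ le_rfl
        refine mul_le_mul_of_nonneg_left ?_ (by positivity)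
        exact h3.trans (mul_le_mul_of_nonneg_left h4 (by positivity))
    _ = ε / 2 * H + 2 * H₀ := by field_simp; ring
    _ ≤ _ := by linarith

variable {G : Type} [Group G] [TopologicalSpace G] [IsTopologicalGroup G] {A : ℕ → Subgroup G}
  {Γ : Subgroup G}
  {β : ℕ → Type} [∀ s, Fintype (β s)] [∀ s, DecidableEq (β s)]
  {π : (s : ℕ) → G → β s → ℝ} {e : (s : ℕ) → β s → ℝ → G}

/-- Local orthogonality at one ergodic element. -/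
lemma loc_near (hN : NS A Γ π e) (hΓ : IsClosed (Γ : Set G)) (s : ℕ) (hs : 1 ≤ s)
    (F : G → ℂ) (hF : LevN A Γ e s F) (hG : GoodN e s F) (hF1 : ∀ x, ‖F x‖ ≤ 1)
    (a : G) (ha : Erg Γ a) (p q : ℕ) (hp : 0 < p) (hq : 0 < q) (hpq : p ≠ q) (η : ℝ) (hη : 0 < η) :
    ∃ L₀ : ℕ, 0 < L₀ ∧ ∃ U V : Set G, IsOpen U ∧ a ∈ U ∧ IsOpen V ∧ a ∈ V ∧
      ∀ u ∈ U, ∀ v ∈ V, ∀ w ∈ A 2, ∀ w' ∈ A 2, ∀ x x' : G,
        ‖∑ l ∈ Icc 1 L₀, F ((u * w) ^ (p * l) * x) *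
          (starRingEnd ℂ) (F ((v * w') ^ (q * l) * x'))‖ ≤ η * L₀ := by
  have hCo := cocompact_of_coc hN.A0 hN.coc
  obtain ⟨e', he', m, hm0, hm'⟩ := (good_iff s F).2 hG
  have heA : ∀ r, e' r ∈ A s := (esL_onep hN s hs e' he').2.2
  refine loc_orth A hN.anti hN.comm hN.A0 hN.A1 Γ hΓ hN.coc (esL e) s hs (esL_onep hN s hs)
    (esL_gen hN s hs) F ((lev_iff s F).2 hF) hF1 a a p q (prodZs p q (esL e))
    (sys_prod A hN.anti hN.comm hN.A1 hN.low Γ hCo (esL e) (esL_onep hN) (esL_gen hN) a ha p q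
      hp hq) ?_ η hη
  intro f f' _ _ hf hf'
  have g1 := freq_of_char heA hm' hf
  have g2 := freq_of_char heA hm' hf'
  refine ⟨fun r => (e' ((p : ℝ) ^ s * r), e' ((q : ℝ) ^ s * r)), ?_,
    m * ((p : ℤ) ^ s - (q : ℤ) ^ s), ?_, ?_⟩
  · rw [prodZs, List.mem_map]; exact ⟨e', he', rfl⟩
  · apply mul_ne_zero hm0
    rw [sub_ne_zero]
    intro h
    have h' : p ^ s = q ^ s := by exact_mod_cast h
    exact hpq (Nat.pow_left_injective (by omega : s ≠ 0) h')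
  · intro r x
    simp only [Prod.fst_mul, Prod.snd_mul]
    rw [g1, g2, map_mul, conj_ee]
    have e3 : ee (((m * ((p : ℤ) ^ s - (q : ℤ) ^ s) : ℤ) : ℝ) * r) =
        ee ((m : ℝ) * ((p : ℝ) ^ s * r)) * ee (-((m : ℝ) * ((q : ℝ) ^ s * r))) := by
      rw [← ee_add]; congr 1; push_cast; ring
    rw [e3]; ring

/-- **Task S.** -/
theorem single_near (hN : NS A Γ π e) (hΓ : IsClosed (Γ : Set G)) (s : ℕ) (hs : 1 ≤ s)
    (F : G → ℂ) (hF : LevN A Γ e s F) (hG : GoodN e s F) (hF1 : ∀ x, ‖F x‖ ≤ 1)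
    (C : Set G) (hC : IsCompact C) (hCe : ∀ a ∈ C, Erg Γ a) (ε : ℝ) (hε : 0 < ε) :
    ∃ U : Set G, IsOpen U ∧ C ⊆ U ∧ ∃ H₁ : ℕ, ∀ u ∈ U, ∀ w ∈ A 2, ∀ x : G, ∀ H n : ℕ,
      H₁ ≤ H → n ≤ H → ws (fun m => F ((u * w) ^ m * x)) muC n H ≤ ε * H := by
  obtain ⟨P, hP, η, hη, hnat⟩ := SgA.natural_one muC norm_muC (fun p hp m hm => muC_mul p hp m hm)
    (ε / 4) (by positivity)
  have h1 : ∀ c : ↥C, ∃ W : Set G, IsOpen W ∧ (c : G) ∈ W ∧ ∃ H₁ : ℕ, ∀ u ∈ W, ∀ w ∈ A 2,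
      ∀ x : G, ∀ H n : ℕ, H₁ ≤ H → n ≤ H →
      ws (fun m => F ((u * w) ^ m * x)) muC n H ≤ ε * H := by
    rintro ⟨a, ha⟩
    obtain ⟨L, hL0, W, hW1, hW2, hW⟩ := glob_orth F hF1 (A 2) {a} isCompact_singleton P (by
      intro p hp q hq hpq a' ha' b' hb' η' hη'
      obtain rfl : a' = a := ha'
      obtain rfl : b' = a' := hb'
      exact loc_near hN hΓ s hs F hF hG hF1 b' (hCe _ ha) p q (hP p hp).pos (hP q hq).pos hpq
        η' hη') η hη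
    obtain ⟨H₀, hH₀, hsum⟩ := hnat L hL0
    refine ⟨W, hW1, hW2 rfl, H₀ + ⌈4 * (H₀ : ℝ) / ε⌉₊, fun u hu w hw x H n hH hn => ?_⟩
    refine window_small _ muC (fun _ => hF1 _) norm_muC ε hε H₀ hH₀ (fun X hX => ?_) H n hH hn
    refine hsum _ (fun _ => hF1 _) (fun p hp q hq hpq j => ?_) H₀ X le_rfl hX
    exact hW p hp q hq hpq (⟨u * w, u, hu, w, hw, rfl⟩, x) (⟨u * w, u, hu, w, hw, rfl⟩, x) j
  choose W hW hcW H₁ hH₁ using h1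
  obtain ⟨T, hT⟩ := hC.elim_finite_subcover W hW (fun c hc => Set.mem_iUnion.2 ⟨⟨c, hc⟩, hcW _⟩)
  refine ⟨⋃ c ∈ T, W c, isOpen_biUnion fun c _ => hW c, hT, T.sup H₁, ?_⟩
  intro u hu w hw x H n hH hn
  rw [Set.mem_iUnion₂] at hu
  obtain ⟨c, hc, hu⟩ := hu
  exact hH₁ c u hu w hw x H n ((Finset.le_sup hc).trans hH) hn

end Pool.Agent.Lib.MP_663568_nt.T3
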