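import Mathlib
import Pool.Agent.Lib.MP_663568_nt_h86.FCalc

/-!
# The uniform estimate for a fixed `ε`
-/

set_option autoImplicit false
open Finset

namespace Pool.Agent.Lib.MP_663568_nt.T3

open Katai Fib Fib.Calc

variable {G : Type} [Group G] [TopologicalSpace G]

/-- The uniform estimate with constant `ε` for `F` and all `g ∈ U N`, `U` a neighbourhood of `K`. -/
def UEps (N : Subgroup G) (F : G → ℂ) (K : Set G) (ε : ℝ) : Prop :=
  ∃ U : Set G, IsOpen U ∧ K ⊆ U ∧ ∃ H₀ : ℕ, ∀ M H : ℕ, H₀ ≤ H → H ≤ M →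
    ∑ n ∈ Icc 1 M, (1 / (n : ℝ)) * GG (orb N U F) muC H n ≤ ε * H * Real.log M

theorem UEps.mono {N : Subgroup G} {F : G → ℂ} {K : Set G} {ε ε' : ℝ} (h : UEps N F K ε)
    (hε : ε ≤ ε') : UEps N F K ε' := by
  obtain ⟨U, hU, hKU, H₀, hH⟩ := h
  refine ⟨U, hU, hKU, H₀, fun M H h1 h2 => (hH M H h1 h2).trans ?_⟩
  have h5 : 0 ≤ (H : ℝ) * Real.log M := mul_nonneg (by positivity) (log_nonneg M)
  calc ε * H * Real.log M = ε * (H * Real.log M) := by ring
    _ ≤ ε' * (H * Real.log M) := mul_le_mul_of_nonneg_right hε h5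
    _ = _ := by ring

theorem UEps.const_mul {N : Subgroup G} {F : G → ℂ} {K : Set G} {ε : ℝ} (h : UEps N F K ε)
    (c : ℂ) : UEps N (fun x => c * F x) K (‖c‖ * ε) := by
  obtain ⟨U, hU, hKU, H₀, hH⟩ := h
  refine ⟨U, hU, hKU, H₀, fun M H h1 h2 => ?_⟩
  have hG : ∀ n, GG (orb N U fun x => c * F x) muC H n = ‖c‖ * GG (orb N U F) muC H n := by
    intro n
    rw [GG, GG, Real.mul_iSup_of_nonneg (norm_nonneg _)]
    congr 1
    funext i
    rw [← norm_mul, mul_sum]
    congr 1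
    refine sum_congr rfl fun h _ => ?_
    simp only [orb]
    ring
  have h3 := hH M H h1 h2
  have h4 : ∑ n ∈ Icc 1 M, (1 / (n : ℝ)) * GG (orb N U fun x => c * F x) muC H n =
      ‖c‖ * ∑ n ∈ Icc 1 M, (1 / (n : ℝ)) * GG (orb N U F) muC H n := by
    rw [mul_sum]
    refine sum_congr rfl fun n _ => ?_
    rw [hG]
    ring
  rw [h4]
  calc _ ≤ ‖c‖ * (ε * H * Real.log M) := mul_le_mul_of_nonneg_left h3 (norm_nonneg _)
    _ = _ := by ring

/-- finite sums and approximation -/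
theorem ueps_approx (N : Subgroup G) (F : G → ℂ) (K : Set G) (ε : ℝ) (hε : 0 < ε)
    (ι : Type) [Fintype ι] (Fs : ι → G → ℂ) (hB : ∀ i, ∃ B : ℝ, ∀ x, ‖Fs i x‖ ≤ B)
    (hFs : ∀ i, UEps N (Fs i) K (ε / (2 * (Fintype.card ι + 1))))
    (hap : ∀ x, ‖F x - ∑ i, Fs i x‖ ≤ ε / 4) : UEps N F K ε := by
  choose U hU hKU H₀ hH using hFs
  refine ⟨⋂ i, U i, isOpen_iInter_of_finite hU, Set.subset_iInter hKU, 3 + ∑ i, H₀ i, ?_⟩
  intro M H hHH hHM
  have hM3 : 3 ≤ M := by omega
  have hH₀ : ∀ i, H₀ i ≤ H := by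
    intro i
    have := single_le_sum (f := H₀) (fun _ _ => Nat.zero_le _) (mem_univ i)
    omega
  have hlogM : 1 ≤ Real.log M := by
    rw [Real.le_log_iff_exp_le (by positivity)]
    have h1 : Real.exp 1 < 2.7182818286 := Real.exp_one_lt_d9
    have h2 : (3 : ℝ) ≤ M := by exact_mod_cast hM3
    linarith
  have hpt : ∀ n, GG (orb N (⋂ i, U i) F) muC H n ≤
      ∑ i, GG (orb N (U i) (Fs i)) muC H n + ε / 4 * H := by
    intro n
    refine Real.iSup_le ?_ (add_nonneg (sum_nonneg fun _ _ => GG_nonneg _ _ _ _) (by positivity))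
    rintro ⟨⟨g, u, hu, w, hw, rfl⟩, x⟩
    rw [Set.mem_iInter] at hu
    let i' : ∀ i, Idx N (U i) := fun i => ⟨⟨u * w, u, hu i, w, hw, rfl⟩, x⟩
    have e1 : ∑ h ∈ Icc 1 H, orb N (⋂ i, U i) F
        ⟨⟨u * w, u, Set.mem_iInter.2 hu, w, hw, rfl⟩, x⟩ (n + h) * muC (n + h) =
        ∑ i, ∑ h ∈ Icc 1 H, orb N (U i) (Fs i) (i' i) (n + h) * muC (n + h) +
        ∑ h ∈ Icc 1 H, (F ((u * w) ^ (n + h) * x) - ∑ i, Fs i ((u * w) ^ (n + h) * x)) *
          muC (n + h) := by
      rw [sum_comm, ← sum_add_distrib]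
      refine sum_congr rfl fun h _ => ?_
      simp only [orb, i']
      rw [← sum_mul]
      ring
    rw [e1]
    refine (norm_add_le _ _).trans (add_le_add ?_ ?_)
    · refine (norm_sum_le _ _).trans (sum_le_sum fun i _ => ?_)
      exact le_GG' (hB i) H n (i' i)
    · calc _ ≤ ∑ h ∈ Icc 1 H, ‖(F ((u * w) ^ (n + h) * x) -
            ∑ i, Fs i ((u * w) ^ (n + h) * x)) * muC (n + h)‖ := norm_sum_le _ _
        _ ≤ ∑ _h ∈ Icc 1 H, ε / 4 := by
            refine sum_le_sum fun h _ => ?_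
            rw [norm_mul]
            calc _ ≤ ε / 4 * 1 := mul_le_mul (hap _) (norm_muC _) (norm_nonneg _) (by positivity)
              _ = ε / 4 := mul_one _
        _ = ε / 4 * H := by simp [mul_comm]
  have hH0 : (0 : ℝ) ≤ H := by positivity
  calc _ ≤ ∑ n ∈ Icc 1 M, (1 / (n : ℝ)) *
        (∑ i, GG (orb N (U i) (Fs i)) muC H n + ε / 4 * H) := by
        refine sum_le_sum fun n _ => ?_
        exact mul_le_mul_of_nonneg_left (hpt n) (by positivity)
    _ = ∑ i, ∑ n ∈ Icc 1 M, (1 / (n : ℝ)) * GG (orb N (U i) (Fs i)) muC H n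
        + (∑ n ∈ Icc 1 M, (1 / (n : ℝ))) * (ε / 4 * H) := by
        simp only [mul_add, sum_add_distrib]
        congr 1
        · simp only [mul_sum]
          rw [sum_comm]
        · rw [sum_mul]
    _ ≤ ∑ _i : ι, (ε / (2 * (Fintype.card ι + 1)) * H * Real.log M)
        + (1 + Real.log M) * (ε / 4 * H) := by
        apply add_le_add
        · exact sum_le_sum fun i _ => hH i M H (hH₀ i) hHM
        · exact mul_le_mul_of_nonneg_right (sum_inv_le_log M) (by positivity)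
    _ = (Fintype.card ι : ℝ) / (Fintype.card ι + 1) * (ε / 2 * H * Real.log M)
        + (1 + Real.log M) * (ε / 4 * H) := by
        rw [sum_const, card_univ, nsmul_eq_mul]
        field_simp
    _ ≤ 1 * (ε / 2 * H * Real.log M) + (Real.log M + Real.log M) * (ε / 4 * H) := by
        apply add_le_add
        · apply mul_le_mul_of_nonneg_right _ (by positivity)
          rw [div_le_one (by positivity)]; linarith
        · apply mul_le_mul_of_nonneg_right _ (by positivity)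
          linarith
    _ = ε * H * Real.log M := by ring

end Pool.Agent.Lib.MP_663568_nt.T3
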