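import Mathlib
import Pool.Agent.Lib.MP_663568_t3.TCorr
import Pool.Agent.Lib.MP_663568_t3.TSingle
import Pool.Agent.Lib.MP_663568_t3.TErg
import Pool.Agent.Lib.MP_663568_t3.TUEps
import Pool.Agent.Lib.MP_663568_t3.MScales

/-!
# The uniform estimate for functions with a nonzero vertical frequency
-/

set_option autoImplicit false
open Finset MeasureTheory

namespace Pool.Agent.Lib.MP_663568_nt.T3

open Katai Tw Fib Nul

section

variable {G : Type} [Group G] [TopologicalSpace G] {A : ℕ → Subgroup G} {Γ : Subgroup G}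
  {β : ℕ → Type} [∀ s, Fintype (β s)] [∀ s, DecidableEq (β s)]
  {π : (s : ℕ) → G → β s → ℝ} {e : (s : ℕ) → β s → ℝ → G}

lemma hf_pow (hN : NS A Γ π e) (k : β 1 → ℤ) (x : G) (n : ℕ) :
    hf π k (x ^ n) = n * hf π k x := by
  rw [hf, hf, pi_pow hN, mul_sum]
  exact sum_congr rfl fun j _ => by ring

omit [Group G] [TopologicalSpace G] [∀ s, DecidableEq (β s)] in
lemma hf_neg (k : β 1 → ℤ) (x : G) : hf π (-k) x = - hf π k x := by
  rw [hf, hf, ← sum_neg_distrib]
  exact sum_congr rfl fun j _ => by rw [Pi.neg_apply]; push_cast; ring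

omit [Group G] [TopologicalSpace G] in
lemma hf_single (j : β 1) (x : G) : hf π (Pi.single j 1) x = π 1 x j := by
  rw [hf, Finset.sum_eq_single j (fun i _ hi => by rw [Pi.single_eq_of_ne hi]; simp)
    (fun h => absurd (mem_univ j) h), Pi.single_eq_same]
  simp

/-- the box of the nonzero integral vectors -/
noncomputable def kbox (β : ℕ → Type) [∀ s, Fintype (β s)] [∀ s, DecidableEq (β s)] (K : ℕ) :
    Finset (β 1 → ℤ) :=
  (Fintype.piFinset fun _ => Icc (-(K : ℤ)) K).filter (· ≠ 0)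

lemma mem_kbox {K : ℕ} {k : β 1 → ℤ} : k ∈ kbox β K ↔ (∀ j, |k j| ≤ (K : ℤ)) ∧ k ≠ 0 := by
  rw [kbox, mem_filter, Fintype.mem_piFinset]
  simp only [mem_Icc, abs_le]

end

variable {G : Type} [Group G] [TopologicalSpace G] [IsTopologicalGroup G] {A : ℕ → Subgroup G}
  {Γ : Subgroup G}
  {β : ℕ → Type} [∀ s, Fintype (β s)] [∀ s, DecidableEq (β s)]
  {π : (s : ℕ) → G → β s → ℝ} {e : (s : ℕ) → β s → ℝ → G}

/-- elements with horizontal part near `C` -/
lemma near_mem (hN : NS A Γ π e) (C U : Set G) (hC : IsCompact C) (hU : IsOpen U) (hCU : C ⊆ U) :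
    ∃ δ : ℝ, 0 < δ ∧ ∀ g : G, ∀ a ∈ C, (∀ j, |π 1 g j - π 1 a j| < δ) →
      ∃ u ∈ U, ∃ w ∈ A 2, g = u * w := by
  have hcont : Continuous fun p : G × (β 1 → ℝ) => p.1 * up (e 1) p.2 :=
    continuous_fst.mul ((up_cont hN le_rfl).comp continuous_snd)
  have h0 : up (e 1) (0 : β 1 → ℝ) = 1 := by
    have h1 : ∀ j, e 1 j 0 = 1 := by
      intro j
      have := (hN.e_onep 1 le_rfl j).1.2 0 0
      rw [add_zero] at this
      exact (mul_eq_left.1 this.symm)
    unfold up
    simp [h1]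
  obtain ⟨V, W, hV, hW, hCV, h0W, hVW⟩ := generalized_tube_lemma hC
    (isCompact_singleton (x := (0 : β 1 → ℝ))) (hU.preimage hcont) (by
      rintro ⟨a, v⟩ ⟨ha, hv⟩
      rw [Set.mem_singleton_iff] at hv
      change a * up (e 1) v ∈ U
      simp only at ha hv
      rw [hv, h0, mul_one]
      exact hCU ha)
  obtain ⟨δ, hδ, hball⟩ := Metric.isOpen_iff.1 hW 0 (h0W rfl)
  refine ⟨δ, hδ, fun g a ha hga => ?_⟩
  set v : β 1 → ℝ := π 1 g - π 1 a with hv
  have hvW : v ∈ W := by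
    apply hball
    rw [Metric.mem_ball, dist_pi_lt_iff hδ]
    intro j
    rw [hv, Real.dist_eq, Pi.zero_apply, sub_zero]
    exact hga j
  have hu : a * up (e 1) v ∈ U := hVW (Set.mk_mem_prod (hCV ha) hvW)
  refine ⟨a * up (e 1) v, hu, (a * up (e 1) v)⁻¹ * g, ?_, by group⟩
  have hA1 : ∀ x : G, x ∈ A 1 := fun x => by rw [hN.A1]; trivial
  rw [show (2 : ℕ) = 1 + 1 from rfl, ← hN.pi_ker 1 le_rfl _ (hA1 _)]
  rw [hN.pi_mul 1 le_rfl _ (hA1 _) _ (hA1 _), pi_inv hN le_rfl (hA1 _),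
    hN.pi_mul 1 le_rfl _ (hA1 _) _ (hA1 _), up_pi hN le_rfl, hv]
  abel

theorem char_eps (hN : NS A Γ π e) (hΓ : IsClosed (Γ : Set G)) (s : ℕ) (hs : 1 ≤ s)
    (F : G → ℂ) (hF : LevN A Γ e s F) (hG : GoodN e s F) (hF1 : ∀ x, ‖F x‖ ≤ 1)
    (ε : ℝ) (hε : 0 < ε) :
    ∃ K : ℕ, ∃ v : ℝ, 0 < v ∧ ∀ C : Set G, IsCompact C → (∀ a ∈ C, Erg Γ a) →
      (∀ k ∈ kbox β K, (volume ((fun x : ℝ => (x : UnitAddCircle)) '' (hf π k '' C))).toReal < v) →
      UEps (A 2) F C ε := by
  classical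
  obtain ⟨K₀, hK₀⟩ := corr_nil hN s hs F hF hG ((ε / 10 / 16) ^ 2 / 2) (by positivity)
  set K : ℕ := max K₀ 1 with hK
  set J : Type := {k // k ∈ kbox β K} with hJ
  set cst : ℝ := ε / 10 / 4 / (8 * (MM (ε / 10) : ℕ)) with hcst
  have hMM : (0 : ℝ) < (MM (ε / 10) : ℕ) := by
    have : 0 < MM (ε / 10) := by rw [MM]; omega
    exact_mod_cast this
  have hcst0 : 0 < cst := by positivity
  set n : ℝ := (Fintype.card J : ℝ) + 1 with hn
  have hn0 : 0 < n := by positivity
  refine ⟨K, cst / n ^ 2, by positivity, fun C hC hCe hvol => ?_⟩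
  -- the family
  set F' : G × G → ℕ → ℂ := fun i m => F (i.1 ^ m * i.2) with hF'
  set ld : G × G → J → ℝ := fun i k => hf π k.1 i.1 with hld
  set Φ : G → J → ℝ := fun a k => hf π k.1 a with hΦ
  have hΦc : Continuous Φ := continuous_pi fun k => hf_cont hN k.1
  set Ks : Set (J → ℝ) := Φ '' C with hKs
  have hKsc : IsCompact Ks := hC.image hΦc
  have hk0 : ∀ k : J, k.1 ≠ 0 := fun k => (mem_kbox.1 k.2).2
  have hcoord : ∀ b : J, (fun α : J → ℝ => α b) '' Ks = hf π b.1 '' C := by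
    intro b
    rw [hKs, Set.image_image]
  -- volume
  have hvolU : ((Fintype.card J : ℝ) + 1) * (volume ((fun x : ℝ => (x : UnitAddCircle)) ''
      (⋃ b, (fun α : J → ℝ => α b) '' Ks))).toReal < cst := by
    have h1 : (volume ((fun x : ℝ => (x : UnitAddCircle)) ''
      (⋃ b, (fun α : J → ℝ => α b) '' Ks))).toReal ≤ Fintype.card J * (cst / n ^ 2) := by
      rw [Set.image_iUnion]
      have h2 : volume (⋃ b, (fun x : ℝ => (x : UnitAddCircle)) '' ((fun α : J → ℝ => α b) '' Ks)) ≤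
          ∑ b : J, volume ((fun x : ℝ => (x : UnitAddCircle)) ''
            ((fun α : J → ℝ => α b) '' Ks)) := measure_iUnion_fintype_le _ _
      have h3 : (∑ b : J, volume ((fun x : ℝ => (x : UnitAddCircle)) ''
            ((fun α : J → ℝ => α b) '' Ks))) ≠ ⊤ :=
        (ENNReal.sum_lt_top.2 fun b _ => measure_lt_top _ _).ne
      refine (ENNReal.toReal_mono h3 h2).trans ?_
      rw [ENNReal.toReal_sum fun b _ => (measure_lt_top _ _).ne]
      calc _ ≤ ∑ b : J, cst / n ^ 2 := by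
            refine sum_le_sum fun b _ => ?_
            rw [hcoord]
            exact (hvol b.1 b.2).le
        _ = _ := by simp
    calc ((Fintype.card J : ℝ) + 1) * _ ≤ n * (Fintype.card J * (cst / n ^ 2)) :=
          mul_le_mul_of_nonneg_left h1 hn0.le
      _ < n * (n * (cst / n ^ 2)) := by
          apply mul_lt_mul_of_pos_left _ hn0
          apply mul_lt_mul_of_pos_right _ (by positivity)
          rw [hn]; linarith
      _ = cst := by field_simp
  -- correlations
  obtain ⟨T, hT⟩ : ∃ T : ℝ, ∀ a ∈ C, ∀ j, |π 1 a j| ≤ T := by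
    obtain ⟨T, hT⟩ := exists_bound hN C hC
    exact ⟨T, hT⟩
  have hK1 : 1 ≤ K := le_max_right _ _
  have hKK : K₀ ≤ K := le_max_left _ _
  have hcorr : CorrJ F' ld (AAJ ld Ks 1) ((ε / 10 / 16) ^ 2 / 2) := by
    intro κ hκ Dm
    obtain ⟨L₀, hL₀⟩ := hK₀ κ hκ (Dm * (T + 1))
    refine ⟨L₀, fun L hL i hi i' hi' p q j hp hq hsep => ?_⟩
    have hbd : ∀ i ∈ AAJ ld Ks 1, ∀ p : ℕ, p ≤ Dm → ∀ j, |π 1 (i.1 ^ p) j| ≤ Dm * (T + 1) := by
      rintro i ⟨_, ⟨a, ha, rfl⟩, hia⟩ p hp j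
      rw [pi_pow hN, abs_mul, abs_of_nonneg (Nat.cast_nonneg p)]
      have hmem : (Pi.single j 1 : β 1 → ℤ) ∈ kbox β K := by
        rw [mem_kbox]
        constructor
        · intro j'
          by_cases h : j' = j
          · subst h; rw [Pi.single_eq_same]; simpa using hK1
          · rw [Pi.single_eq_of_ne h]; simp
        · intro h
          have := congrFun h j
          rw [Pi.single_eq_same] at this
          simp at this
      have h1 := hia ⟨_, hmem⟩
      simp only [hld, hΦ, hf_single] at h1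
      have h2 : |π 1 i.1 j| ≤ T + 1 := by
        calc |π 1 i.1 j| = |π 1 a j + (π 1 i.1 j - π 1 a j)| := by congr 1; ring
          _ ≤ |π 1 a j| + |π 1 i.1 j - π 1 a j| := abs_add_le _ _
          _ ≤ T + 1 := add_le_add (hT a ha j) h1.le
      have h3 : (p : ℝ) ≤ Dm := by exact_mod_cast hp
      exact mul_le_mul h3 h2 (abs_nonneg _) (Nat.cast_nonneg _)
    have h1 := hL₀ L hL (i.1 ^ p) (i'.1 ^ q) (i.1 ^ (p * j) * i.2) (i'.1 ^ (q * j) * i'.2)
      (hbd i hi p hp) (hbd i' hi' q hq) (by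
        intro k k' hkk hk hk'
        obtain ⟨s1, s2, s3⟩ := hsep
        have e1 : ∑ j, (k j : ℝ) * π 1 (i.1 ^ p) j = p * hf π k i.1 := by
          rw [← hf_pow hN, hf]
        have e2 : ∑ j, (k' j : ℝ) * π 1 (i'.1 ^ q) j = q * hf π k' i'.1 := by
          rw [← hf_pow hN, hf]
        rw [e1, e2]
        have hkb : ∀ k : β 1 → ℤ, k ≠ 0 → (∀ j, |k j| ≤ (K₀ : ℤ)) → k ∈ kbox β K := by
          intro k h1 h2
          rw [mem_kbox]
          exact ⟨fun j => (h2 j).trans (by exact_mod_cast hKK), h1⟩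
        by_cases h0 : k = 0
        · have h0' : k' ≠ 0 := by
            rcases hkk with h | h
            · exact absurd h0 h
            · exact h
          have h2 := s2 ⟨k', hkb k' h0' hk'⟩
          simp only [hld] at h2
          have e3 : hf π k i.1 = 0 := by rw [h0, hf]; simp
          rw [e3, mul_zero, zero_add]
          exact h2
        · by_cases h0' : k' = 0
          · have h2 := s1 ⟨k, hkb k h0 hk⟩
            simp only [hld] at h2
            have e3 : hf π k' i'.1 = 0 := by rw [h0', hf]; simp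
            rw [e3, mul_zero, add_zero]
            exact h2
          · have hneg : -k' ∈ kbox β K := hkb (-k') (neg_ne_zero.2 h0') (fun j => by
              rw [Pi.neg_apply, abs_neg]; exact hk' j)
            have h2 := s3 ⟨k, hkb k h0 hk⟩ ⟨-k', hneg⟩
            simp only [hld] at h2
            rw [hf_neg] at h2
            rwa [mul_neg, sub_neg_eq_add] at h2)
    refine le_trans (le_of_eq ?_) h1
    congr 1
    refine sum_congr rfl fun l _ => ?_
    simp only [hF']
    have e1 : ∀ (g : G) (p : ℕ) (x : G), g ^ (p * (j + l)) * x = (g ^ p) ^ l * (g ^ (p * j) * x) := by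
      intro g p x
      rw [← mul_assoc, ← pow_mul, ← pow_add]
      congr 2; ring
    rw [e1, e1]
  -- single windows
  obtain ⟨U₀, hU₀, hCU₀, H₁, hH₁⟩ := single_near hN hΓ s hs F hF hG hF1 C hC hCe (ε / 10)
    (by positivity)
  obtain ⟨δ₀, hδ₀, hδ₀'⟩ := near_mem hN C U₀ hC hU₀ hCU₀
  have hsingle : ∃ δ : ℝ, 0 < δ ∧ ∃ H₁ : ℕ, ∀ i ∈ AAJ ld Ks δ, ∀ H n : ℕ, H₁ ≤ H → n ≤ H →
      ws (F' i) muC n H ≤ ε / 10 * H := by
    refine ⟨δ₀, hδ₀, H₁, ?_⟩
    rintro i ⟨_, ⟨a, ha, rfl⟩, hia⟩ H n hH hn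
    obtain ⟨u, hu, w, hw, hiu⟩ := hδ₀' i.1 a ha (fun j => by
      have hmem : (Pi.single j 1 : β 1 → ℤ) ∈ kbox β K := by
        rw [mem_kbox]
        constructor
        · intro j'
          by_cases h : j' = j
          · subst h; rw [Pi.single_eq_same]; simpa using hK1
          · rw [Pi.single_eq_of_ne h]; simp
        · intro h
          have := congrFun h j
          rw [Pi.single_eq_same] at this
          simp at this
      have h1 := hia ⟨_, hmem⟩
      simpa only [hld, hΦ, hf_single] using h1)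
    have h1 := hH₁ u hu w hw i.2 H n hH hn
    simp only [hF', hiu]
    exact h1
  obtain ⟨δ, hδ, H₀, hmain⟩ := scales_vec F' ld muC (fun i m => hF1 _) norm_muC muC_mul ε hε Ks
    hKsc (by
      rintro _ ⟨a, ha, rfl⟩ b
      exact erg_irr hN (hCe a ha) (hk0 b)) hvolU hcorr hsingle
  -- the neighbourhood
  have hπc : Continuous (π 1) := pi_one_cont hN
  set E : ℝ := (K : ℝ) * Fintype.card (β 1) + 1 with hE
  have hE0 : 0 < E := by positivity
  set δ' : ℝ := δ / E with hδ'
  have hδ'0 : 0 < δ' := by positivity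
  refine ⟨⋃ a ∈ C, {g : G | ∀ j, |π 1 g j - π 1 a j| < δ'}, ?_, ?_, H₀, fun M H h1 h2 => ?_⟩
  · refine isOpen_biUnion fun a _ => ?_
    have : {g : G | ∀ j, |π 1 g j - π 1 a j| < δ'} =
        ⋂ j, {g : G | |π 1 g j - π 1 a j| < δ'} := by ext; simp
    rw [this]
    refine isOpen_iInter_of_finite fun j => ?_
    have hc : Continuous fun g : G => |π 1 g j - π 1 a j| :=
      continuous_abs.comp (((continuous_apply j).comp hπc).sub continuous_const)
    exact isOpen_lt hc continuous_const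
  · intro a ha
    simp only [Set.mem_iUnion]
    exact ⟨a, ha, fun j => by simpa using hδ'0⟩
  · refine le_trans (sum_le_sum fun m _ => ?_) (hmain M H h1 h2)
    refine mul_le_mul_of_nonneg_left ?_ (by positivity)
    refine Real.iSup_le ?_ (GG_nonneg _ _ _ _)
    rintro ⟨⟨g, u, hu, w, hw, rfl⟩, x⟩
    simp only [Set.mem_iUnion] at hu
    obtain ⟨a, ha, hua⟩ := hu
    have hA1 : ∀ x : G, x ∈ A 1 := fun x => by rw [hN.A1]; trivial
    have hw0 : π 1 w = 0 := (hN.pi_ker 1 le_rfl w (hA1 w)).2 hw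
    have hmem : ((u * w, x) : G × G) ∈ AAJ ld Ks δ := by
      refine ⟨Φ a, ⟨a, ha, rfl⟩, fun b => ?_⟩
      simp only [hld, hΦ]
      rw [hf_mul hN]
      have e1 : hf π b.1 w = 0 := by rw [hf, hw0]; simp
      rw [e1, add_zero, hf, hf, ← sum_sub_distrib]
      have hb := (mem_kbox.1 b.2).1
      calc |∑ j, ((b.1 j : ℝ) * π 1 u j - (b.1 j : ℝ) * π 1 a j)|
          ≤ ∑ j, |(b.1 j : ℝ) * π 1 u j - (b.1 j : ℝ) * π 1 a j| := abs_sum_le_sum_abs _ _
        _ ≤ ∑ j : β 1, (K : ℝ) * δ' := by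
            refine sum_le_sum fun j _ => ?_
            rw [← mul_sub, abs_mul]
            have h3 : |(b.1 j : ℝ)| ≤ K := by exact_mod_cast hb j
            exact mul_le_mul h3 (hua j).le (abs_nonneg _) (Nat.cast_nonneg _)
        _ = (K : ℝ) * Fintype.card (β 1) * δ' := by simp; ring
        _ < E * δ' := by
            apply mul_lt_mul_of_pos_right _ hδ'0
            rw [hE]; linarith
        _ = δ := by rw [hδ']; field_simp
    exact le_GG (FAJ F' ld Ks δ) muC (fun i m => hF1 _) norm_muC H m ⟨_, hmem⟩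

end Pool.Agent.Lib.MP_663568_nt.T3
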