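import Mathlib
import Pool.Agent.Lib.MP_663568_t3.TChar
import Pool.Agent.Lib.MP_663568_t3.TConv
import Pool.Agent.Lib.MP_663568_nt_h86.FFinal

/-!
# The uniform estimate for functions of mean zero
-/

set_option autoImplicit false
open Finset MeasureTheory

namespace Pool.Agent.Lib.MP_663568_nt.T3

open Katai Tw Fib Nul

variable {G : Type} [Group G] [TopologicalSpace G] [IsTopologicalGroup G] {A : ℕ → Subgroup G}
  {Γ : Subgroup G}
  {β : ℕ → Type} [∀ s, Fintype (β s)] [∀ s, DecidableEq (β s)]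
  {π : (s : ℕ) → G → β s → ℝ} {e : (s : ℕ) → β s → ℝ → G}

omit [IsTopologicalGroup G] in
lemma coc_prime (hN : NS A Γ π e) : Cocompact' Γ := by
  obtain ⟨C, hC1, _, hC3⟩ := hN.coc 0
  exact ⟨C, hC1, fun x => hC3 x (by rw [hN.A0]; trivial)⟩

/-- the estimate for functions which are not bounded by one -/
theorem char_eps' (hN : NS A Γ π e) (hΓ : IsClosed (Γ : Set G)) (s : ℕ) (hs : 1 ≤ s)
    (F : G → ℂ) (hF : LevN A Γ e s F) (hG : GoodN e s F) (ε : ℝ) (hε : 0 < ε) :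
    ∃ K : ℕ, ∃ v : ℝ, 0 < v ∧ ∀ C : Set G, IsCompact C → (∀ a ∈ C, Erg Γ a) →
      (∀ k ∈ kbox β K, (volume ((fun x : ℝ => (x : UnitAddCircle)) '' (hf π k '' C))).toReal < v) →
      UEps (A 2) F C ε := by
  obtain ⟨B, hB0, hB⟩ := reg_bdd (coc_prime hN) hF.1
  set F' : G → ℂ := fun x => (B : ℂ)⁻¹ * F x with hF'
  have hF'L : LevN A Γ e s F' := by
    refine ⟨reg_const_mul hF.1 _, fun z hz x => ?_, fun j => ?_⟩
    · simp only [hF']; rw [hF.2.1 z hz x]
    · obtain ⟨m, hm⟩ := hF.2.2 j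
      exact ⟨m, hm.mul_const _⟩
  have hF'1 : ∀ x, ‖F' x‖ ≤ 1 := by
    intro x
    simp only [hF']
    rw [norm_mul, norm_inv, Complex.norm_real, Real.norm_eq_abs, abs_of_pos hB0,
      inv_mul_le_iff₀ hB0, mul_one]
    exact hB x
  have hF'G : GoodN e s F' := by
    obtain ⟨j, m, hm, h⟩ := hG
    exact ⟨j, m, hm, h.mul_const _⟩
  obtain ⟨K, v, hv, h⟩ := char_eps hN hΓ s hs F' hF'L hF'G hF'1 (ε / B) (by positivity)
  refine ⟨K, v, hv, fun C hC hCe hvol => ?_⟩
  have h1 := (h C hC hCe hvol).const_mul (B : ℂ)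
  have e1 : (fun x => (B : ℂ) * F' x) = F := by
    funext x
    simp only [hF']
    have : (B : ℂ) ≠ 0 := by exact_mod_cast hB0.ne'
    field_simp
  rw [e1, Complex.norm_real, Real.norm_eq_abs, abs_of_pos hB0] at h1
  have e2 : B * (ε / B) = ε := by field_simp
  rwa [e2] at h1

lemma kbox_mono {K K' : ℕ} (h : K ≤ K') : kbox β K ⊆ kbox β K' := by
  intro k hk
  rw [mem_kbox] at hk ⊢
  exact ⟨fun j => (hk.1 j).trans (by exact_mod_cast h), hk.2⟩

/-- the uniform estimate for a function of mean zero -/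
theorem mean_eps (hN : NS A Γ π e) (hΓ : IsClosed (Γ : Set G)) (t : ℕ) (ht : A (t + 1) = ⊥)
    [MeasurableSpace (G ⧸ Γ)] [BorelSpace (G ⧸ Γ)] (m : Measure (G ⧸ Γ)) [IsProbabilityMeasure m]
    (hm : ∀ g : G, m.map (fun x => g • x) = m)
    (f : G ⧸ Γ → ℂ) (hf : Continuous f) (hf0 : ∫ x, f x ∂m = 0) (ε : ℝ) (hε : 0 < ε) :
    ∃ K : ℕ, ∃ v : ℝ, 0 < v ∧ ∀ C : Set G, IsCompact C → (∀ a ∈ C, Erg Γ a) →
      (∀ k ∈ kbox β K, (volume ((fun x : ℝ => (x : UnitAddCircle)) ''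
        (T3.hf π k '' C))).toReal < v) →
      UEps (A 2) (fun x : G => f (x : G ⧸ Γ)) C ε := by
  classical
  have hCo := coc_prime hN
  set F0 : G → ℂ := fun x : G => f (x : G ⧸ Γ) with hF0
  have hF0r : Reg Γ F0 := ⟨hf.comp QuotientGroup.continuous_mk, fun x γ hγ => by
    simp only [hF0]
    rw [QuotientGroup.mk_mul_of_mem x hγ]⟩
  obtain ⟨ι, hι, lev, F, c, hF1, hF2⟩ := level_decomp A hN.anti hN.comm hN.A1 Γ hCo (esL e)
    (esL_onep hN) (esL_gen hN) t F0 hF0r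
    (by
      rw [ht]
      intro z hz x
      rw [Subgroup.mem_bot.mp hz, one_mul]) (ε / 8) (by positivity)
  have hc : ‖c‖ ≤ ε / 8 := by
    have hd : ∀ i, ∃ F' : G ⧸ Γ → ℂ, Continuous F' ∧ ∀ x : G, F' (x : G ⧸ Γ) = F i x := fun i =>
      exists_descend (hF1 i).2.1.1
    choose F' hF'c hF' using hd
    have hz : ∀ i, ∫ x, F' i x ∂m = 0 := by
      intro i
      obtain ⟨z, hz, k, hk, hzk⟩ := (hF1 i).2.2
      refine mean_zero Γ m hm (F' i) (hF'c i) z k hk ?_
      intro r x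
      obtain ⟨y, rfl⟩ := QuotientGroup.mk_surjective x
      have : z r • (y : G ⧸ Γ) = ((z r * y : G) : G ⧸ Γ) := rfl
      rw [this, hF', hF', hzk]
    have hcpt : CompactSpace (G ⧸ Γ) := by
      obtain ⟨C, hC1, hC2⟩ := hCo
      refine ⟨?_⟩
      have : (Set.univ : Set (G ⧸ Γ)) = (fun g : G => (g : G ⧸ Γ)) '' C := by
        ext x
        simp only [Set.mem_univ, true_iff]
        obtain ⟨g, rfl⟩ := QuotientGroup.mk_surjective x
        obtain ⟨c, hc, γ, hγ, e⟩ := hC2 g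
        exact ⟨c, hc, (coe_eq_of_mul Γ _ _ _ hγ e).symm⟩
      rw [this]
      exact hC1.image QuotientGroup.continuous_mk
    have hint : ∀ {φ : G ⧸ Γ → ℂ}, Continuous φ → Integrable φ m := fun {φ} hφ => by
      obtain ⟨B, hB⟩ : ∃ B : ℝ, ∀ x, ‖φ x‖ ≤ B := by
        have h1 : IsCompact (Set.range fun x => ‖φ x‖) := isCompact_range (by fun_prop)
        obtain ⟨B, hB⟩ := h1.bddAbove
        exact ⟨B, fun x => hB ⟨x, rfl⟩⟩
      exact Integrable.of_bound hφ.aestronglyMeasurable B (Filter.Eventually.of_forall hB)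
    have e1 : ∫ x, (f x - ∑ i, F' i x - c) ∂m = -c := by
      have i1 : Integrable (fun x => ∑ i, F' i x) m :=
        integrable_finsetSum _ fun i _ => hint (hF'c i)
      have i2 : Integrable (fun x => f x - ∑ i, F' i x) m := (hint hf).sub i1
      rw [integral_sub i2 (integrable_const _), integral_sub (hint hf) i1,
        hf0, integral_finsetSum _ (fun i _ => hint (hF'c i))]
      simp [hz]
    have e2 : ‖∫ x, (f x - ∑ i, F' i x - c) ∂m‖ ≤ ε / 8 := by
      have := norm_integral_le_of_norm_le_const (μ := m) (f := fun x => f x - ∑ i, F' i x - c)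
        (C := ε / 8) (Filter.Eventually.of_forall fun x => by
          obtain ⟨y, rfl⟩ := QuotientGroup.mk_surjective x
          have := hF2 y
          simpa only [hF'] using this)
      simpa using this
    rw [e1, norm_neg] at e2
    exact e2
  -- the pieces
  choose Kf vf hvf hmain using fun i => char_eps' hN hΓ (lev i) (hF1 i).1 (F i)
    ((lev_iff (lev i) (F i)).1 (hF1 i).2.1) ((good_iff (lev i) (F i)).1 (hF1 i).2.2)
    (ε / (2 * (Fintype.card ι + 1))) (by positivity)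
  have hv0 : 0 ≤ ∑ i, 1 / vf i := sum_nonneg fun i _ => (one_div_pos.2 (hvf i)).le
  refine ⟨∑ i, Kf i, 1 / (1 + ∑ i, 1 / vf i), by positivity, fun C hC hCe hvol => ?_⟩
  refine ueps_approx (A 2) F0 C ε hε ι F (fun i => ?_) (fun i => ?_) (fun x => ?_)
  · obtain ⟨B, _, hB⟩ := reg_bdd hCo (hF1 i).2.1.1
    exact ⟨B, hB⟩
  · refine hmain i C hC hCe fun k hk => ?_
    have hKi : Kf i ≤ ∑ i, Kf i := single_le_sum (f := Kf) (fun _ _ => Nat.zero_le _) (mem_univ i)
    refine (hvol k (kbox_mono hKi hk)).trans_le ?_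
    have h1 : 1 / vf i ≤ ∑ i, 1 / vf i :=
      single_le_sum (f := fun i => 1 / vf i) (fun i _ => (one_div_pos.2 (hvf i)).le) (mem_univ i)
    rw [one_div_le (by positivity) (hvf i)]
    linarith
  · calc _ = ‖(F0 x - ∑ i, F i x - c) + c‖ := by congr 1; ring
      _ ≤ ε / 8 + ε / 8 := (norm_add_le _ _).trans (add_le_add (hF2 x) hc)
      _ = ε / 4 := by ring

end Pool.Agent.Lib.MP_663568_nt.T3
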