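import Mathlib
import Pool.Agent.Lib.MP_663568_t3.TDefs

/-!
# Generation by the circles
-/

set_option autoImplicit false
open Finset

namespace Pool.Agent.Lib.MP_663568_nt.T3

open Katai Tw Fib

/-- A group with coordinates is generated by the circles modulo the kernel. -/
theorem gen_raw {G : Type} [Group G] {B B' : Subgroup G} {β : Type} [Fintype β] [DecidableEq β]
    (π : G → β → ℝ) (e : β → ℝ → G)
    (hmul : ∀ x ∈ B, ∀ y ∈ B, π (x * y) = π x + π y)
    (hker : ∀ x ∈ B, π x = 0 ↔ x ∈ B') (he : ∀ j r, e j r ∈ B)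
    (heπ : ∀ j r, π (e j r) = Pi.single j r) :
    B ≤ Subgroup.closure {x | ∃ j r, x = e j r} ⊔ B' := by
  classical
  have h1 : π 1 = 0 := by
    have := hmul 1 B.one_mem 1 B.one_mem
    rw [mul_one] at this
    simpa using this
  intro x hx
  have key : ∀ l : List β, (l.map fun j => e j (π x j)).prod ∈ B ∧
      (l.map fun j => e j (π x j)).prod ∈ Subgroup.closure {x | ∃ j r, x = e j r} ∧
      π (l.map fun j => e j (π x j)).prod = (l.map fun j => (Pi.single j (π x j) : β → ℝ)).sum := by
    intro l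
    induction l with
    | nil => exact ⟨B.one_mem, Subgroup.one_mem _, h1⟩
    | cons j l ih =>
      obtain ⟨i1, i2, i3⟩ := ih
      rw [List.map_cons, List.prod_cons, List.map_cons, List.sum_cons]
      refine ⟨B.mul_mem (he _ _) i1, Subgroup.mul_mem _ (Subgroup.subset_closure ⟨j, _, rfl⟩) i2, ?_⟩
      rw [hmul _ (he _ _) _ i1, i3, heπ]
  obtain ⟨k1, k2, k3⟩ := key (univ : Finset β).toList
  set y := ((univ : Finset β).toList.map fun j => e j (π x j)).prod with hy
  have h2 : π y = π x := by
    rw [k3]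
    have : ((univ : Finset β).toList.map fun j => (Pi.single j (π x j) : β → ℝ)).sum =
        ∑ j, (Pi.single j (π x j) : β → ℝ) := by
      rw [Finset.sum_map_toList]
    rw [this]
    exact Finset.univ_sum_single _
  have hinv : π y⁻¹ = - π y := by
    have := hmul y k1 y⁻¹ (B.inv_mem k1)
    rw [mul_inv_cancel, h1] at this
    exact (neg_eq_of_add_eq_zero_right this.symm).symm
  have h3 : y⁻¹ * x ∈ B' := by
    rw [← hker _ (B.mul_mem (B.inv_mem k1) hx), hmul _ (B.inv_mem k1) _ hx, hinv, h2]
    simp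
  have h4 : x = y * (y⁻¹ * x) := by group
  rw [h4]
  exact Subgroup.mul_mem _ ((le_sup_left : _ ≤ Subgroup.closure {x | ∃ j r, x = e j r} ⊔ B') k2)
    ((le_sup_right : B' ≤ Subgroup.closure {x | ∃ j r, x = e j r} ⊔ B') h3)

end Pool.Agent.Lib.MP_663568_nt.T3
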